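import Mathlib

/-!
A trilinear form on a 12-dimensional space, given by its support, with the combinatorial properties of
its leading terms.
-/

set_option autoImplicit false

namespace Pool.Agent.H275Z.AntiData

def mask : ℕ := 1527716998073403658593468886977127737099898257838179854448405830437447137181929482424713624253779606340220480319242773665648414298658615341365066852107345992972549071817023484738378696979420194112158381606001432137199325156639703182868125621947703106657808285331775831781826628077194944030313321522128694740875596189561074490343909984688648892495954462719458092189477260022137445961290659174848279616602659834962462062598369079372035250445893016581170131154186691688720010128682599629291782144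

def om (a b c : Fin 12) : Bool := mask.testBit (144 * a.val + 12 * b.val + c.val)

def w (f : Fin 3) (u v x : Fin 12) : Bool :=
  if f = 0 then om u v x else if f = 1 then om v x u else om x u v

def al (f : Fin 3) (x : Fin 12) : Fin 12 :=
  if f = 0 then ![7, 11, 10, 11, 6, 5, 6, 10, 11, 7, 7, 8] x
  else if f = 1 then ![11, 11, 7, 10, 11, 10, 6, 5, 7, 5, 7, 9] x
  else ![6, 7, 11, 11, 5, 10, 6, 10, 5, 11, 5, 4] x

def be (f : Fin 3) (x : Fin 12) : Fin 12 :=
  if f = 0 then ![3, 0, 1, 4, 0, 3, 3, 0, 1, 1, 0, 1] x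
  else if f = 1 then ![1, 8, 0, 3, 3, 1, 1, 2, 3, 3, 2, 2] x
  else ![2, 2, 9, 3, 0, 3, 1, 2, 2, 2, 1, 3] x

def ga (f : Fin 3) (x : Fin 12) : Fin 12 := al (-f) x

def de (f : Fin 3) (x : Fin 12) : Fin 12 := be (-f) x

def pa (x : Fin 12) : Fin 12 := ![2, 6, 0, 3, 0, 3, 1, 0, 2, 2, 1, 1] x

def pb (x : Fin 12) : Fin 12 := ![6, 6, 6, 11, 5, 9, 6, 2, 5, 11, 5, 0] x

/-- Strict lexicographic comparison of pairs. -/
def lt2 (a b a' b' : Fin 12) : Prop := a < a' ∨ (a = a' ∧ b < b')

/-- Strict lexicographic comparison of triples. -/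
def lt3 (a b c a' b' c' : Fin 12) : Prop := a < a' ∨ (a = a' ∧ lt2 b c b' c')

instance (a b a' b' : Fin 12) : Decidable (lt2 a b a' b') := by unfold lt2; infer_instance

instance (a b c a' b' c' : Fin 12) : Decidable (lt3 a b c a' b' c') := by unfold lt3; infer_instance

lemma w_succ (f : Fin 3) (u v x : Fin 12) : w (f + 1) u v x = w f v x u := by
  fin_cases f <;> rfl

lemma A1 : ∀ f x, w f (al f x) (be f x) x = true := by decide +kernel

lemma A2 : ∀ f x u v, w f u v x = true → (u = al f x ∧ v = be f x) ∨ lt2 u v (al f x) (be f x) := by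
  decide +kernel

lemma B1 : ∀ f u, w f u (de f u) (ga f u) = true := by decide +kernel

lemma B2 : ∀ f u x v, w f u v x = true → (x = ga f u ∧ v = de f u) ∨ lt2 x v (ga f u) (de f u) := by
  decide +kernel

set_option synthInstance.maxSize 1000 in
lemma C1 : ∀ f f' x x', al f x = al f' x' → be f x = be f' x' →
    (f = f' ∧ x = x') ∨ (f = 1 ∧ f' ≠ 1) ∨ (f ≠ 1 ∧ f' = 1) := by decide +kernel

set_option synthInstance.maxSize 1000 in
lemma C2 : ∀ f f' x x', ga f x = ga f' x' → de f x = de f' x' →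
    (f = f' ∧ x = x') ∨ (f = 2 ∧ f' ≠ 2) ∨ (f ≠ 2 ∧ f' = 2) := by decide +kernel

lemma D1 : ∀ f x, al f x ≠ 0 ∧ be f x ≠ 11 ∧ ga f x ≠ 0 ∧ de f x ≠ 11 := by decide +kernel

lemma E1 : ∀ f f' x x', be f x = al f' x' → f = f' + 1 ∧ x' = al f x ∧ be f' x' = x ∧
    (∀ y, y ≠ x → lt3 (al f y) (be f y) y (al f x) (be f x) x) ∧
    (∀ y, y ≠ x' → lt3 y (al f' y) (be f' y) (al f x) (be f x) x) := by decide +kernel

lemma E2 : ∀ f f' x x', de f x = ga f' x' → f' = f + 1 ∧ x' = ga f x ∧ de f' x' = x ∧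
    (∀ y, y ≠ x → lt3 (ga f y) (de f y) y (ga f x) (de f x) x) ∧
    (∀ y, y ≠ x' → lt3 y (ga f' y) (de f' y) (ga f x) (de f x) x) := by decide +kernel

lemma P1 : ∀ x y, w 0 (pa x) (pb x) y = decide (y = x) := by decide +kernel

lemma Z1 : ∀ u, w 0 u 0 0 = false := by decide +kernel

lemma Z2 : ∀ v x, w 0 8 v x = decide ((v = 1 ∧ x = 11) ∨ (v = 5 ∧ x = 2)) := by decide +kernel

lemma Z3 : ∀ x, al 0 x ≠ 1 ∧ ¬ (al 0 x = 5 ∧ be 0 x = 2) := by decide +kernel

end Pool.Agent.H275Z.AntiData
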