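import Pool.Agent.H275Z.AntiOv

/-!
The universal Hopf algebra preserving the trilinear form is finitely generated and its antipode has a
nonzero kernel.
-/

set_option autoImplicit false

namespace Pool.Agent.H275Z.Anti

open FreeAlgebra Diamond FreeHopf AntiData TensorProduct MulOpposite

variable (k : Type) [Field k]

abbrev rel1 := rel (ρ k)

abbrev H := RingQuot (rel1 k)

noncomputable abbrev x (r : ℕ) (i j : I) : H k := X k (rel1 k) r i j

lemma mk_ρ (σ : Rule) : RingQuot.mkAlgHom k (rel1 k) (ρ k σ) = 0 := by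
  rw [RingQuot.mkAlgHom_rel k (s := rel1 k) (y := 0) ⟨σ, rfl, rfl⟩, map_zero]

lemma hO (j : ℕ) (t a b : I) :
    ∑ u, ∑ v, cw k j u v t • (x k (lam (j + 2)) u a * x k (lam (j + 1)) v b) =
      ∑ y, cw k j a b y • x k (lam j + 1) t y := by
  have h := mk_ρ k (.O j t a b)
  simp only [ρ, OR, map_sub, map_sum, map_mul, map_smul, sub_eq_zero] at h
  exact h

lemma hN (j : ℕ) (u e e' : I) :
    ∑ t, ∑ v, cw k j u v t • (x k (lam j + 1) e t * x k (lam (j + 1) + 1) e' v) =
      ∑ y, cw k j y e' e • x k (lam (j + 2)) y u := by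
  have h := mk_ρ k (.N j u e e')
  simp only [ρ, NR, map_sub, map_sum, map_mul, map_smul, sub_eq_zero] at h
  exact h

lemma sum4 {M : Type*} [AddCommMonoid M] (f : I → I → I → I → M) :
    ∑ u, ∑ v, ∑ m, ∑ n, f u v m n = ∑ m, ∑ n, ∑ u, ∑ v, f u v m n := by
  calc ∑ u, ∑ v, ∑ m, ∑ n, f u v m n = ∑ p : I × I, ∑ q : I × I, f p.1 p.2 q.1 q.2 := by
        simp only [Fintype.sum_prod_type]
    _ = ∑ q : I × I, ∑ p : I × I, f p.1 p.2 q.1 q.2 := Finset.sum_comm
    _ = _ := by simp only [Fintype.sum_prod_type]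

lemma sum3' {M : Type*} [AddCommMonoid M] (f : I → I → I → M) :
    ∑ m, ∑ n, ∑ y, f m n y = ∑ y, ∑ m, ∑ n, f m n y := by
  calc ∑ m, ∑ n, ∑ y, f m n y = ∑ p : I × I, ∑ y, f p.1 p.2 y := by
        simp only [Fintype.sum_prod_type]
    _ = ∑ y, ∑ p : I × I, f p.1 p.2 y := Finset.sum_comm
    _ = _ := by simp only [Fintype.sum_prod_type]

lemma D0_OR (j : ℕ) (t a b : I) : D0 k (rel1 k) (OR k j t a b) = 0 := by
  simp only [OR, map_sub, map_sum, map_mul, map_smul, D0_ι, sub_eq_zero]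
  calc ∑ u, ∑ v, cw k j u v t • ((∑ m, x k (lam (j + 2)) u m ⊗ₜ[k] x k (lam (j + 2)) m a) *
        ∑ n, x k (lam (j + 1)) v n ⊗ₜ[k] x k (lam (j + 1)) n b)
      = ∑ u, ∑ v, ∑ m, ∑ n, (cw k j u v t • (x k (lam (j + 2)) u m * x k (lam (j + 1)) v n)) ⊗ₜ[k]
          (x k (lam (j + 2)) m a * x k (lam (j + 1)) n b) := by
        simp only [Finset.sum_mul_sum, Algebra.TensorProduct.tmul_mul_tmul, Finset.smul_sum,
          smul_tmul']
    _ = ∑ m, ∑ n, ∑ y, x k (lam j + 1) t y ⊗ₜ[k]
          (cw k j m n y • (x k (lam (j + 2)) m a * x k (lam (j + 1)) n b)) := by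
        rw [sum4]
        simp only [← sum_tmul, hO]
        simp only [sum_tmul, smul_tmul]
    _ = ∑ y, ∑ z, cw k j a b z • x k (lam j + 1) t y ⊗ₜ[k] x k (lam j + 1) y z := by
        rw [sum3']
        simp only [← tmul_sum, hO]
        simp only [tmul_sum, tmul_smul]
    _ = _ := by
        rw [Finset.sum_comm]
        simp only [Finset.smul_sum]

lemma D0_NR (j : ℕ) (u e e' : I) : D0 k (rel1 k) (NR k j u e e') = 0 := by
  simp only [NR, map_sub, map_sum, map_mul, map_smul, D0_ι, sub_eq_zero]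
  calc ∑ t, ∑ v, cw k j u v t • ((∑ m, x k (lam j + 1) e m ⊗ₜ[k] x k (lam j + 1) m t) *
        ∑ n, x k (lam (j + 1) + 1) e' n ⊗ₜ[k] x k (lam (j + 1) + 1) n v)
      = ∑ t, ∑ v, ∑ m, ∑ n, (x k (lam j + 1) e m * x k (lam (j + 1) + 1) e' n) ⊗ₜ[k]
          (cw k j u v t • (x k (lam j + 1) m t * x k (lam (j + 1) + 1) n v)) := by
        simp only [Finset.sum_mul_sum, Algebra.TensorProduct.tmul_mul_tmul, Finset.smul_sum,
          tmul_smul]
    _ = ∑ m, ∑ n, ∑ y, (cw k j y n m • (x k (lam j + 1) e m * x k (lam (j + 1) + 1) e' n)) ⊗ₜ[k]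
          x k (lam (j + 2)) y u := by
        rw [sum4]
        simp only [← tmul_sum, hN]
        simp only [tmul_sum, smul_tmul]
    _ = ∑ y, ∑ z, cw k j z e' e • x k (lam (j + 2)) z y ⊗ₜ[k] x k (lam (j + 2)) y u := by
        rw [sum3']
        simp only [← sum_tmul, hN]
        simp only [sum_tmul, smul_tmul']
    _ = _ := by
        rw [Finset.sum_comm]
        simp only [Finset.smul_sum]

lemma E0_OR (j : ℕ) (t a b : I) : E0 k (OR k j t a b) = 0 := by
  simp [OR]

lemma E0_NR (j : ℕ) (u e e' : I) : E0 k (NR k j u e e') = 0 := by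
  simp [NR]

lemma S0_OR (j : ℕ) (t a b : I) : S0 k (rel1 k) (OR k j t a b) = 0 := by
  have h := hN k (j + 1) t b a
  have hl : lam (j + 1 + 2) = lam j + 1 + 1 := lam_add j
  simp only [cw_succ, hl] at h
  simp only [OR, map_sub, map_sum, map_mul, map_smul, S0_ι, sub_eq_zero, ← op_mul, ← op_smul,
    ← Finset.op_sum]
  rw [Finset.sum_comm]
  exact congrArg op h

lemma S0_NR (j : ℕ) (u e e' : I) : S0 k (rel1 k) (NR k j u e e') = 0 := by
  have h := hO k (j + 2) u e' e
  have hl : lam (j + 2 + 1) = lam j + 1 + 1 := lam_add j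
  have hl' : lam (j + 2 + 2) = lam (j + 1) + 1 + 1 := lam_add (j + 1)
  simp only [cw_succ, hl, hl'] at h
  simp only [NR, map_sub, map_sum, map_mul, map_smul, S0_ι, sub_eq_zero, ← op_mul, ← op_smul,
    ← Finset.op_sum]
  rw [Finset.sum_comm]
  exact congrArg op h

lemma good : Good k (rel1 k) := by
  have hc := fun r i j => coev_of k (rel1 k) r i j (mk_ρ k (.coev r i j))
  have he := fun r i j => ev_of k (rel1 k) r i j (mk_ρ k (.ev r i j))
  refine ⟨hc, he, ?_, ?_, ?_⟩
  · rintro _ _ ⟨σ, rfl, rfl⟩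
    rw [map_zero]
    cases σ
    · exact D0_coevR k _ hc _ _ _
    · exact D0_evR k _ he _ _ _
    · exact D0_OR k _ _ _ _
    · exact D0_NR k _ _ _ _
  · rintro _ _ ⟨σ, rfl, rfl⟩
    rw [map_zero]
    cases σ
    · exact E0_coevR k _ _ _
    · exact E0_evR k _ _ _
    · exact E0_OR k _ _ _ _
    · exact E0_NR k _ _ _ _
  · rintro _ _ ⟨σ, rfl, rfl⟩
    rw [map_zero]
    cases σ
    · exact S0_coevR k _ he _ _ _
    · exact S0_evR k _ hc _ _ _
    · exact S0_OR k _ _ _ _
    · exact S0_NR k _ _ _ _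

noncomputable def gens : Set (H k) := Set.range fun p : I × I => x k 0 p.1 p.2

lemma x0_mem (i j : I) : x k 0 i j ∈ Algebra.adjoin k (gens k) :=
  Algebra.subset_adjoin ⟨(i, j), rfl⟩

lemma x1_mem (i j : I) : x k 1 i j ∈ Algebra.adjoin k (gens k) := by
  have h := hO k 0 i (pa j) (pb j)
  have e : ∀ y, cw k 0 (pa j) (pb j) y = if y = j then 1 else 0 := by
    intro y
    have : fj 0 = 0 := rfl
    simp [cw, this, P1]
  simp only [e, ite_smul, one_smul, zero_smul, Finset.sum_ite_eq', Finset.mem_univ, if_true] at h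
  have h' : x k 1 i j = ∑ u, ∑ v, cw k 0 u v i • (x k 0 u (pa j) * x k 0 v (pb j)) := h.symm
  rw [h']
  exact sum_mem fun u _ => sum_mem fun v _ =>
    Subalgebra.smul_mem _ (mul_mem (x0_mem k _ _) (x0_mem k _ _)) _

lemma S_mem {z : H k} (hz : z ∈ Algebra.adjoin k (gens k)) :
    S (good k) z ∈ Algebra.adjoin k (gens k) := by
  induction hz using Algebra.adjoin_induction with
  | mem z hz =>
    obtain ⟨p, rfl⟩ := hz
    rw [S_X]
    exact x1_mem k _ _
  | algebraMap a =>
    rw [Algebra.algebraMap_eq_smul_one, map_smul, S_one]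
    exact Subalgebra.smul_mem _ (one_mem _) _
  | add a b _ _ ha hb => rw [map_add]; exact add_mem ha hb
  | mul a b _ _ ha hb => rw [S_mul]; exact mul_mem hb ha

lemma x_mem (r : ℕ) : ∀ i j, x k r i j ∈ Algebra.adjoin k (gens k) := by
  induction r with
  | zero => exact x0_mem k
  | succ r ih =>
    intro i j
    have := S_mem k (ih j i)
    rw [S_X] at this
    exact this

lemma finiteType : Algebra.FiniteType k (H k) := by
  refine ⟨Subalgebra.fg_def.2 ⟨gens k, Set.finite_range _, ?_⟩⟩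
  rw [eq_top_iff]
  intro z hz
  clear hz
  induction z using FreeHopf.induction with
  | h0 a => exact Subalgebra.algebraMap_mem _ _
  | h1 r i j => exact x_mem k r i j
  | hmul a b ha hb => exact mul_mem ha hb
  | hadd a b ha hb => exact add_mem ha hb

noncomputable def xi : H k := x k 0 1 0 * x k 0 11 0 + x k 0 5 0 * x k 0 2 0

lemma S_xi : S (good k) (xi k) = 0 := by
  have h := hN k 0 8 0 0
  have h0 : fj 0 = 0 := rfl
  have e1 : ∀ y, cw k 0 y 0 0 = 0 := by intro y; simp [cw, h0, Z1]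
  have e2 : ∀ v t, cw k 0 8 v t =
      (if t = 11 then (if v = 1 then 1 else 0) else 0) +
        if t = 2 then (if v = 5 then 1 else 0) else 0 := by
    intro v t
    simp only [cw, h0, Z2, decide_eq_true_eq]
    by_cases h1 : t = 11
    · subst h1
      by_cases h2 : v = 1 <;> simp [h2]
    · by_cases h2 : t = 2
      · subst h2
        by_cases h3 : v = 5 <;> simp [h3]
      · simp [h1, h2]
  simp only [e1, e2, zero_smul, Finset.sum_const_zero, add_smul, Finset.sum_add_distrib, ite_smul,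
    one_smul, Finset.sum_ite_irrel, Finset.sum_ite_eq', Finset.mem_univ, if_true] at h
  simp only [xi, map_add, S_mul, S_X]
  exact h

lemma not_red (p q : I) (h : ∀ t, ¬ (al 0 t = p ∧ be 0 t = q)) :
    ¬ Red ra rb [((0, p, 0) : Lt I), (0, q, 0)] := by
  rintro ⟨⟨u, v, σ⟩, h1⟩
  have hl := congrArg List.length h1
  simp only [List.length_cons, List.length_nil, List.length_append] at hl
  obtain rfl : u = [] := List.length_eq_zero_iff.1 (by omega)
  obtain rfl : v = [] := List.length_eq_zero_iff.1 (by omega)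
  simp only [List.nil_append, List.append_nil, List.cons.injEq, and_true] at h1
  obtain ⟨ha, hb⟩ := h1
  cases σ with
  | coev r i j => simp [rb] at hb
  | ev r i j => simp [ra] at ha
  | N j u e e' => simp [ra] at ha
  | O j t a b =>
    simp only [ra, rb, Prod.mk.injEq] at ha hb
    obtain rfl : j = 0 := by have := ha.1; unfold lam at this; omega
    exact h t ⟨ha.2.1.symm, hb.2.1.symm⟩

lemma xi_ne : xi k ≠ 0 := by
  classical
  obtain ⟨nf, h1, h2⟩ := diamond rl ra rb (ρ k) rl_wf (hlow k) (hinj k) (hov k)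
  intro h
  have h3 := h2 (W k [((0, 1, 0) : Lt I), (0, 11, 0)] + W k [((0, 5, 0) : Lt I), (0, 2, 0)]) (by
    rw [W_pair, W_pair, map_add, map_mul, map_mul]
    exact h)
  rw [map_add, h1 _ (not_red 1 11 fun t ht => (Z3 t).1 ht.1),
    h1 _ (not_red 5 2 fun t ht => (Z3 t).2 ht)] at h3
  have h4 := congrArg (Diamond.ext (k := k)
    (fun l : List (Lt I) => if l = [(0, 1, 0), (0, 11, 0)] then (1 : k) else 0)) h3
  rw [map_add, ext_W, ext_W, map_zero, if_pos rfl, if_neg (by decide), add_zero] at h4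
  exact one_ne_zero h4

theorem main : ∃ (H : Type) (_ : Ring H) (_ : HopfAlgebra k H),
    Algebra.FiniteType k H ∧ ¬ Function.Injective (HopfAlgebra.antipode k : H →ₗ[k] H) := by
  refine ⟨H k, inferInstance, hopf (good k), finiteType k, fun h => xi_ne k (h ?_)⟩
  rw [map_zero]
  exact S_xi k

end Pool.Agent.H275Z.Anti
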