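import Pool.Agent.H275Z.AntiRules

/-!
All overlaps of the rewriting system are resolvable.
-/

set_option autoImplicit false

namespace Pool.Agent.H275Z.Anti

open FreeAlgebra Diamond FreeHopf AntiData

variable (k : Type) [Field k]

lemma sum_delta (f : I → I → A k) :
    ∑ x, ∑ z, (if x = z then (1 : k) else 0) • f x z = ∑ x, f x x := by
  simp [ite_smul]

lemma mem_of_eq {M : Submodule k (A k)} {x y : A k} (h : x ∈ M) (e : y = x) : y ∈ M := e ▸ h

lemma delta_mem {M : Submodule k (A k)} {x z x0 : I} {g : A k} (hne : (x, z) ≠ (x0, x0))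
    (h : x = z → x ≠ x0 → g ∈ M) : (if x = z then (1 : k) else 0) • g ∈ M := by
  split_ifs with hxz
  · rw [one_smul]
    exact h hxz (fun e => hne (by rw [← hxz, e]))
  · rw [zero_smul]; exact zero_mem _

lemma overlap2 {M : Submodule k (A k)} (f g : I → A k) (x0 u0 : I)
    (h1 : ∀ x, x ≠ x0 → f x ∈ M) (h2 : ∀ u, u ≠ u0 → g u ∈ M)
    (h3 : (∑ x, f x) - ∑ u, g u ∈ M) : f x0 - g u0 ∈ M := by
  rw [← Finset.add_sum_erase _ _ (Finset.mem_univ x0),
    ← Finset.add_sum_erase _ g (Finset.mem_univ u0)] at h3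
  have s1 : ∑ p ∈ Finset.univ.erase x0, f p ∈ M :=
    Submodule.sum_mem _ fun p hp => h1 p (Finset.ne_of_mem_erase hp)
  have s2 : ∑ p ∈ Finset.univ.erase u0, g p ∈ M :=
    Submodule.sum_mem _ fun p hp => h2 p (Finset.ne_of_mem_erase hp)
  convert add_mem (sub_mem h3 s1) s2 using 1
  abel

noncomputable abbrev JJ (l : List (Lt I)) : Submodule k (A k) := J rl ra rb (ρ k) l

lemma ov_coev_ev (r : ℕ) (i j' : I) :
    coevR k r i (c r) * ι k (r, c r, j') - ι k (r, i, c r) * evR k r (c r) j' ∈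
      JJ k [(r, i, c r), (r + 1, c r, c r), (r, c r, j')] := by
  refine overlap _ (fun x => ι k (r, i, x)) (fun z y => ι k (r + 1, y, z)) (fun e => ι k (r, e, j'))
    (fun x z => if x = z then (1 : k) else 0) (fun x z => if x = z then (1 : k) else 0)
    (fun y => if i = y then 1 else 0) (fun y => coevR k r i y)
    (fun z => if z = j' then 1 else 0) (fun z => evR k r z j')
    (fun y => by rw [sum_delta]; rfl) (fun z => by rw [sum_delta]; rfl)
    (c r) (c r) (c r) (c r) (by simp) (by simp) ?_ ?_ ?_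
  · intro y e hye
    refine delta_mem k hye fun _ hy => ?_
    exact mem_J_right rl ra rb (ρ k) (.coev r i y) _
      (List.Shortlex.of_lex rfl (List.Lex.cons (List.Lex.rel (rl_row _ _ _ hy))))
  · intro x z hxz
    refine delta_mem k hxz fun _ hy => ?_
    exact mem_J_left rl ra rb (ρ k) (.ev r z j') _
      (List.Shortlex.of_lex rfl (List.Lex.rel (rl_col _ _ _ hy)))
  · rw [sum_delta, sum_delta]
    simp

lemma ov_ev_coev (r : ℕ) (i j' : I) :
    evR k r i (c r) * ι k (r + 1, j', c r) - ι k (r + 1, c r, i) * coevR k r (c r) j' ∈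
      JJ k [(r + 1, c r, i), (r, c r, c r), (r + 1, j', c r)] := by
  refine overlap _ (fun x => ι k (r + 1, x, i)) (fun z y => ι k (r, z, y))
    (fun e => ι k (r + 1, j', e))
    (fun x z => if x = z then (1 : k) else 0) (fun x z => if x = z then (1 : k) else 0)
    (fun y => if i = y then 1 else 0) (fun y => evR k r i y)
    (fun z => if z = j' then 1 else 0) (fun z => coevR k r z j')
    (fun y => by rw [sum_delta]; rfl) (fun z => by rw [sum_delta]; rfl)
    (c r) (c r) (c r) (c r) (by simp) (by simp) ?_ ?_ ?_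
  · intro y e hye
    refine delta_mem k hye fun _ hy => ?_
    exact mem_J_right rl ra rb (ρ k) (.ev r i y) _
      (List.Shortlex.of_lex rfl (List.Lex.cons (List.Lex.rel (rl_col _ _ _ hy))))
  · intro x z hxz
    refine delta_mem k hxz fun _ hy => ?_
    exact mem_J_left rl ra rb (ρ k) (.coev r z j') _
      (List.Shortlex.of_lex rfl (List.Lex.rel (rl_row _ _ _ hy)))
  · rw [sum_delta, sum_delta]
    simp

lemma ov_ev_N (j : ℕ) (i u e' : I) :
    evR k (lam j + 1) i (ga (fj j) u) * ι k (lam (j + 1) + 1, e', de (fj j) u) -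
      ι k (lam j + 1 + 1, c (lam j + 1), i) * NR k j u (c (lam j + 1)) e' ∈
      JJ k [(lam j + 1 + 1, c (lam j + 1), i), (lam j + 1, c (lam j + 1), ga (fj j) u),
        (lam (j + 1) + 1, e', de (fj j) u)] := by
  refine overlap _ (fun x => ι k (lam j + 1 + 1, x, i)) (fun z y => ι k (lam j + 1, z, y))
    (fun v => ι k (lam (j + 1) + 1, e', v))
    (fun x z => if x = z then (1 : k) else 0) (fun y v => cw k j u v y)
    (fun y => if i = y then 1 else 0) (fun y => evR k (lam j + 1) i y)
    (fun z => ∑ y, cw k j y e' z • ι k (lam (j + 2), y, u)) (fun z => NR k j u z e')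
    (fun y => by rw [sum_delta]; rfl) (fun z => rfl)
    (c (lam j + 1)) (c (lam j + 1)) _ _ (by simp) (cw_ga k j u) ?_ ?_ ?_
  · intro y v hne
    refine cw_smul_mem k fun hw => ?_
    exact mem_J_right rl ra rb (ρ k) (.ev (lam j + 1) i y) _
      (List.Shortlex.of_lex rfl (List.Lex.cons
        (lex2 (p := fun x => (lam j + 1, c (lam j + 1), x)) (q := fun v => (lam (j + 1) + 1, e', v))
          (rl_odd _ _) (rl_odd _ _) (lt_ga hw hne) _ _)))
  · intro x z hxz
    refine delta_mem k hxz fun _ hy => ?_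
    exact mem_J_left rl ra rb (ρ k) (.N j u z e') _
      (List.Shortlex.of_lex rfl (List.Lex.rel (rl_row _ _ _ hy)))
  · refine mem_of_eq k (mem_J0 rl ra rb (ρ k) (.O (j + 1) e' i u) (by simp)) ?_
    rw [sum_delta]
    simp only [ρ, OR, cw_succ, lam_add, Finset.mul_sum, mul_smul_comm]
    congr 1
    simp

lemma ov_O_coev (j : ℕ) (x a j' : I) :
    OR k j x a (c (lam (j + 1))) * ι k (lam (j + 1) + 1, j', c (lam (j + 1))) -
      ι k (lam (j + 2), al (fj j) x, a) * coevR k (lam (j + 1)) (be (fj j) x) j' ∈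
      JJ k [(lam (j + 2), al (fj j) x, a), (lam (j + 1), be (fj j) x, c (lam (j + 1))),
        (lam (j + 1) + 1, j', c (lam (j + 1)))] := by
  refine overlap _ (fun u => ι k (lam (j + 2), u, a)) (fun v y => ι k (lam (j + 1), v, y))
    (fun e => ι k (lam (j + 1) + 1, j', e))
    (fun u v => cw k j u v x) (fun x z => if x = z then (1 : k) else 0)
    (fun y => ∑ t, cw k j a y t • ι k (lam j + 1, x, t)) (fun y => OR k j x a y)
    (fun z => if z = j' then 1 else 0) (fun z => coevR k (lam (j + 1)) z j')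
    (fun y => rfl) (fun z => by rw [sum_delta]; rfl)
    _ _ (c (lam (j + 1))) (c (lam (j + 1))) (cw_al k j x) (by simp) ?_ ?_ ?_
  · intro y e hye
    refine delta_mem k hye fun _ hy => ?_
    exact mem_J_right rl ra rb (ρ k) (.O j x a y) _
      (List.Shortlex.of_lex rfl (List.Lex.cons (List.Lex.rel (rl_col _ _ _ hy))))
  · intro u v hne
    refine cw_smul_mem k fun hw => ?_
    exact mem_J_left rl ra rb (ρ k) (.coev (lam (j + 1)) v j') _
      (List.Shortlex.of_lex rfl
        (lex2 (p := fun u => (lam (j + 2), u, a)) (q := fun v => (lam (j + 1), v, c (lam (j + 1))))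
          (rl_even _ _) (rl_even _ _) (lt_al hw hne) _ _))
  · refine mem_of_eq k (neg_mem (mem_J0 rl ra rb (ρ k) (.N j a x j') (by simp))) ?_
    rw [sum_delta]
    simp only [ρ, NR, neg_sub, Finset.sum_mul, smul_mul_assoc]
    congr 1
    · simp
    · exact Finset.sum_comm

lemma ov_coev_O (j : ℕ) (i x b : I) :
    coevR k (lam j + 1) i (al (fj (j + 1)) x) * ι k (lam (j + 2), be (fj (j + 1)) x, b) -
      ι k (lam j + 1, i, c (lam j + 1)) * OR k (j + 1) x (c (lam j + 1)) b ∈
      JJ k [(lam j + 1, i, c (lam j + 1)), (lam j + 1 + 1, al (fj (j + 1)) x, c (lam j + 1)),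
        (lam (j + 2), be (fj (j + 1)) x, b)] := by
  have hl : lam j + 1 + 1 = lam (j + 1 + 2) := (lam_add j).symm
  refine overlap _ (fun m => ι k (lam j + 1, i, m)) (fun z y => ι k (lam j + 1 + 1, y, z))
    (fun v => ι k (lam (j + 2), v, b))
    (fun x z => if x = z then (1 : k) else 0) (fun y v => cw k (j + 1) y v x)
    (fun y => if i = y then 1 else 0) (fun y => coevR k (lam j + 1) i y)
    (fun z => ∑ t, cw k (j + 1) z b t • ι k (lam (j + 1) + 1, x, t)) (fun z => OR k (j + 1) x z b)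
    (fun y => by rw [sum_delta]; rfl) (fun z => by rw [hl]; rfl)
    (c (lam j + 1)) (c (lam j + 1)) _ _ (by simp) (cw_al k (j + 1) x) ?_ ?_ ?_
  · intro y v hne
    refine cw_smul_mem k fun hw => ?_
    refine mem_J_right rl ra rb (ρ k) (.coev (lam j + 1) i y) _
      (List.Shortlex.of_lex rfl (List.Lex.cons ?_))
    simp only [rb, hl]
    exact lex2 (p := fun y => (lam (j + 1 + 2), y, c (lam j + 1))) (q := fun v => (lam (j + 2), v, b))
      (rl_even _ _) (rl_even _ _) (lt_al hw hne) _ _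
  · intro m z hxz
    refine delta_mem k hxz fun _ hy => ?_
    exact mem_J_left rl ra rb (ρ k) (.O (j + 1) x z b) _
      (List.Shortlex.of_lex rfl (List.Lex.rel (rl_col _ _ _ hy)))
  · refine mem_of_eq k (mem_J0 rl ra rb (ρ k) (.N j b i x) (by simp)) ?_
    rw [sum_delta]
    simp only [ρ, NR, cw_succ, Finset.mul_sum, mul_smul_comm]
    congr 1
    simp

lemma ov_N_ev (j : ℕ) (u e j' : I) :
    NR k j u e (c (lam (j + 1))) * ι k (lam (j + 1), c (lam (j + 1)), j') -
      ι k (lam j + 1, e, ga (fj j) u) * evR k (lam (j + 1)) (de (fj j) u) j' ∈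
      JJ k [(lam j + 1, e, ga (fj j) u), (lam (j + 1) + 1, c (lam (j + 1)), de (fj j) u),
        (lam (j + 1), c (lam (j + 1)), j')] := by
  refine overlap _ (fun x => ι k (lam j + 1, e, x)) (fun z y => ι k (lam (j + 1) + 1, y, z))
    (fun t => ι k (lam (j + 1), t, j'))
    (fun x z => cw k j u z x) (fun x z => if x = z then (1 : k) else 0)
    (fun y => ∑ t, cw k j t y e • ι k (lam (j + 2), t, u)) (fun y => NR k j u e y)
    (fun z => if z = j' then 1 else 0) (fun z => evR k (lam (j + 1)) z j')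
    (fun y => rfl) (fun z => by rw [sum_delta]; rfl)
    _ _ (c (lam (j + 1))) (c (lam (j + 1))) (cw_ga k j u) (by simp) ?_ ?_ ?_
  · intro y t hye
    refine delta_mem k hye fun _ hy => ?_
    exact mem_J_right rl ra rb (ρ k) (.N j u e y) _
      (List.Shortlex.of_lex rfl (List.Lex.cons (List.Lex.rel (rl_row _ _ _ hy))))
  · intro x v hne
    refine cw_smul_mem k fun hw => ?_
    exact mem_J_left rl ra rb (ρ k) (.ev (lam (j + 1)) v j') _
      (List.Shortlex.of_lex rfl
        (lex2 (p := fun x => (lam j + 1, e, x)) (q := fun v => (lam (j + 1) + 1, c (lam (j + 1)), v))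
          (rl_odd _ _) (rl_odd _ _) (lt_ga hw hne) _ _))
  · refine mem_of_eq k (neg_mem (mem_J0 rl ra rb (ρ k) (.O j e u j') (by simp))) ?_
    rw [sum_delta]
    simp only [ρ, OR, neg_sub, Finset.sum_mul, smul_mul_assoc]
    congr 1
    · simp
    · exact Finset.sum_comm

lemma sum3 (f : I → I → I → A k) : ∑ x, ∑ u, ∑ v, f x u v = ∑ u, ∑ v, ∑ x, f x u v := by
  rw [Finset.sum_comm]
  exact Finset.sum_congr rfl fun _ _ => Finset.sum_comm

lemma id_OO (j : ℕ) (a b t : I) :
    (∑ x, OR k (j + 1) x a b * ι k (lam (j + 1), x, t)) -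
      ∑ u, ι k (lam (j + 1 + 2), u, a) * OR k j u b t =
    (∑ y, cw k j b t y • evR k (lam j + 1) a y) -
      ∑ y, cw k (j + 1) a b y • evR k (lam (j + 1)) y t := by
  have hl : lam (j + 1 + 2) = lam j + 1 + 1 := lam_add j
  simp only [OR, evR, cw_succ, hl, sub_mul, mul_sub, smul_sub, Finset.sum_sub_distrib,
    Finset.sum_mul, Finset.mul_sum, Finset.smul_sum, smul_mul_assoc, mul_smul_comm, mul_assoc]
  rw [sum3]
  have e1 : ∑ y, cw k j b t y • (if a = y then (1 : A k) else 0) = cw k j b t a • 1 := by simp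
  have e2 : ∑ y, cw k j b y a • (if y = t then (1 : A k) else 0) = cw k j b t a • 1 := by simp
  rw [e1, e2, Finset.sum_comm (f := fun y m => cw k j b t y • _),
    Finset.sum_comm (f := fun y m => cw k j b y a • _)]
  abel

lemma id_NN (j : ℕ) (e e' t : I) :
    (∑ u, NR k j u e e' * ι k (lam (j + 2) + 1, t, u)) -
      ∑ x, ι k (lam j + 1, e, x) * NR k (j + 1) x e' t =
    (∑ y, cw k (j + 1) y t e' • coevR k (lam j + 1) e y) -
      ∑ y, cw k j y e' e • coevR k (lam (j + 2)) y t := by
  have hl : lam (j + 1 + 2) = lam j + 1 + 1 := lam_add j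
  simp only [NR, coevR, cw_succ, hl, sub_mul, mul_sub, smul_sub, Finset.sum_sub_distrib,
    Finset.sum_mul, Finset.mul_sum, Finset.smul_sum, smul_mul_assoc, mul_smul_comm, mul_assoc]
  rw [sum3]
  have e1 : ∑ y, cw k j t e' y • (if e = y then (1 : A k) else 0) = cw k j t e' e • 1 := by simp
  have e2 : ∑ y, cw k j y e' e • (if y = t then (1 : A k) else 0) = cw k j t e' e • 1 := by simp
  rw [e1, e2, Finset.sum_comm (f := fun y m => cw k j t e' y • _),
    Finset.sum_comm (f := fun y m => cw k j y e' e • _)]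
  abel

lemma hov (σ τ : Rule) (h : rb σ = ra τ) :
    ρ k σ * ι k (rb τ) - ι k (ra σ) * ρ k τ ∈ J rl ra rb (ρ k) [ra σ, rb σ, rb τ] := by
  cases σ <;> cases τ <;> simp only [ra, rb, Prod.mk.injEq] at h
  case coev.coev r i j r' i' j' =>
    obtain ⟨rfl, -, h⟩ := h
    exact absurd h.symm (c_succ r)
  case coev.ev r i j r' i' j' =>
    obtain ⟨h, rfl, rfl⟩ := h
    obtain rfl : r = r' := by omega
    exact ov_coev_ev k r i j'
  case coev.O r i j' j x a b =>
    obtain ⟨h, rfl, rfl⟩ := h
    obtain ⟨j0, rfl⟩ : ∃ j0, j = j0 + 1 := ⟨j - 1, by unfold lam at h; omega⟩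
    obtain rfl : r = lam j0 + 1 := by have := lam_add j0; unfold lam at *; omega
    exact ov_coev_O k j0 i x b
  case coev.N r i j' j u e e' =>
    obtain ⟨h, -, h2⟩ := h
    rw [c_even (by unfold lam at h; omega)] at h2
    exact absurd h2.symm (D1 _ _).2.2.1
  case ev.coev r i j r' i' j' =>
    obtain ⟨rfl, rfl, rfl⟩ := h
    exact ov_ev_coev k r i j'
  case ev.ev r i j r' i' j' =>
    obtain ⟨rfl, h, -⟩ := h
    exact absurd h (c_succ _)
  case ev.O r i j' j x a b =>
    obtain ⟨h, h2, -⟩ := h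
    rw [c_even (by unfold lam at h; omega)] at h2
    exact absurd h2.symm (D1 _ _).1
  case ev.N r i j' j u e e' =>
    obtain ⟨rfl, rfl, rfl⟩ := h
    exact ov_ev_N k j i u e'
  case O.coev j x a b r i j' =>
    obtain ⟨rfl, rfl, rfl⟩ := h
    exact ov_O_coev k j x a j'
  case O.ev j x a b r i j' =>
    obtain ⟨h, h2, -⟩ := h
    rw [c_odd (by unfold lam at h; omega)] at h2
    exact absurd h2 (D1 _ _).2.1
  case O.N j x a b j' u e e' =>
    obtain ⟨h, -, -⟩ := h
    unfold lam at h; omega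
  case N.coev j u e e' r i j' =>
    obtain ⟨h, -, h2⟩ := h
    rw [c_odd (by unfold lam at h; omega)] at h2
    exact absurd h2 (D1 _ _).2.2.2
  case N.ev j u e e' r i j' =>
    obtain ⟨h, rfl, rfl⟩ := h
    obtain rfl : r = lam (j + 1) := by omega
    exact ov_N_ev k j u e j'
  case N.O j u e e' j' x a b =>
    obtain ⟨h, -, -⟩ := h
    unfold lam at h; omega
  case O.O j x a b j' x' a' t =>
    obtain ⟨hl, h2, rfl⟩ := h
    obtain ⟨hf, rfl, hx, h3, h4⟩ := E1 _ _ _ _ h2
    obtain rfl : j = j' + 1 := by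
      rw [← fj_succ] at hf
      simp only [fj, Fin.ext_iff] at hf
      unfold lam at hl; omega
    simp only [ra, rb, ρ, hx]
    refine overlap2 k (fun y => OR k (j' + 1) y a b * ι k (lam (j' + 1), y, t))
      (fun u => ι k (lam (j' + 1 + 2), u, a) * OR k j' u b t) x _ ?_ ?_ ?_
    · intro y hy
      exact mem_J_right rl ra rb (ρ k) (.O (j' + 1) y a b) _
        (lex3 (p := fun u => (lam (j' + 1 + 2), u, a)) (q := fun v => (lam (j' + 1 + 1), v, b))
          (s := fun y => (lam (j' + 1), y, t)) (rl_even _ _) (rl_even _ _) (rl_even _ _) (h3 y hy))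
    · intro y hy
      exact mem_J_left rl ra rb (ρ k) (.O j' y b t) _
        (lex3 (p := fun u => (lam (j' + 1 + 2), u, a)) (q := fun v => (lam (j' + 1 + 1), v, b))
          (s := fun y => (lam (j' + 1), y, t)) (rl_even _ _) (rl_even _ _) (rl_even _ _) (h4 y hy))
    · rw [id_OO]
      exact sub_mem
        (Submodule.sum_mem _ fun y _ => Submodule.smul_mem _ _
          (mem_J0 rl ra rb (ρ k) (.ev _ a y) (by simp)))
        (Submodule.sum_mem _ fun y _ => Submodule.smul_mem _ _
          (mem_J0 rl ra rb (ρ k) (.ev _ y t) (by simp)))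
  case N.N j u e e' j' u' e'' t =>
    obtain ⟨hl, rfl, h2⟩ := h
    obtain ⟨hf, rfl, hx, h3, h4⟩ := E2 _ _ _ _ h2
    obtain rfl : j' = j + 1 := by
      rw [← fj_succ] at hf
      simp only [fj, Fin.ext_iff] at hf
      unfold lam at hl; omega
    simp only [ra, rb, ρ, hx]
    refine overlap2 k (fun y => NR k j y e e' * ι k (lam (j + 2) + 1, t, y))
      (fun x => ι k (lam j + 1, e, x) * NR k (j + 1) x e' t) u _ ?_ ?_ ?_
    · intro y hy
      exact mem_J_right rl ra rb (ρ k) (.N j y e e') _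
        (lex3 (p := fun u => (lam j + 1, e, u)) (q := fun v => (lam (j + 1) + 1, e', v))
          (s := fun y => (lam (j + 2) + 1, t, y)) (rl_odd _ _) (rl_odd _ _) (rl_odd _ _) (h3 y hy))
    · intro y hy
      exact mem_J_left rl ra rb (ρ k) (.N (j + 1) y e' t) _
        (lex3 (p := fun u => (lam j + 1, e, u)) (q := fun v => (lam (j + 1) + 1, e', v))
          (s := fun y => (lam (j + 2) + 1, t, y)) (rl_odd _ _) (rl_odd _ _) (rl_odd _ _) (h4 y hy))
    · rw [id_NN]
      exact sub_mem
        (Submodule.sum_mem _ fun y _ => Submodule.smul_mem _ _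
          (mem_J0 rl ra rb (ρ k) (.coev _ e y) (by simp)))
        (Submodule.sum_mem _ fun y _ => Submodule.smul_mem _ _
          (mem_J0 rl ra rb (ρ k) (.coev _ y t) (by simp)))

end Pool.Agent.H275Z.Anti
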