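import Mathlib

/-!
Quotients of the free Hopf algebra on a matrix coalgebra.
-/

set_option autoImplicit false

namespace Pool.Agent.H275Z.FreeHopf

open FreeAlgebra TensorProduct MulOpposite

variable (k : Type) [CommRing k] {I : Type} [Fintype I] [DecidableEq I]

/-- Letters: level, row, column. -/
abbrev Lt (I : Type) := ℕ × I × I

variable (rel : FreeAlgebra k (Lt I) → FreeAlgebra k (Lt I) → Prop)

/-- The image of a generator in the quotient. -/
noncomputable def X (r : ℕ) (i j : I) : RingQuot rel := RingQuot.mkAlgHom k rel (ι k (r, i, j))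

noncomputable def D0 : FreeAlgebra k (Lt I) →ₐ[k] RingQuot rel ⊗[k] RingQuot rel :=
  lift k (fun l => ∑ m, X k rel l.1 l.2.1 m ⊗ₜ[k] X k rel l.1 m l.2.2)

noncomputable def E0 : FreeAlgebra k (Lt I) →ₐ[k] k :=
  lift k (fun l => if l.2.1 = l.2.2 then 1 else 0)

noncomputable def S0 : FreeAlgebra k (Lt I) →ₐ[k] (RingQuot rel)ᵐᵒᵖ :=
  lift k (fun l => op (X k rel (l.1 + 1) l.2.2 l.2.1))

omit [DecidableEq I] in
@[simp] lemma D0_ι (r : ℕ) (i j : I) :
    D0 k rel (ι k (r, i, j)) = ∑ m, X k rel r i m ⊗ₜ[k] X k rel r m j := by simp [D0]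

omit [Fintype I] in
@[simp] lemma E0_ι (r : ℕ) (i j : I) :
    E0 k (ι k ((r, i, j) : Lt I)) = if i = j then 1 else 0 := by simp [E0]

omit [Fintype I] [DecidableEq I] in
@[simp] lemma S0_ι (r : ℕ) (i j : I) :
    S0 k rel (ι k (r, i, j)) = op (X k rel (r + 1) j i) := by simp [S0]

/-- The relation `U_r U_{r+1}^T = 1`. -/
noncomputable def coevR (r : ℕ) (i j : I) : FreeAlgebra k (Lt I) :=
  ∑ m, ι k (r, i, m) * ι k (r + 1, j, m) - if i = j then 1 else 0

/-- The relation `U_{r+1}^T U_r = 1`. -/
noncomputable def evR (r : ℕ) (i j : I) : FreeAlgebra k (Lt I) :=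
  ∑ m, ι k (r + 1, m, i) * ι k (r, m, j) - if i = j then 1 else 0

lemma coev_of (r : ℕ) (i j : I) (h : RingQuot.mkAlgHom k rel (coevR k r i j) = 0) :
    ∑ m, X k rel r i m * X k rel (r + 1) j m = if i = j then 1 else 0 := by
  simp only [coevR, map_sub, map_sum, map_mul, sub_eq_zero] at h
  simp only [X]
  rw [h]
  split_ifs <;> simp

lemma ev_of (r : ℕ) (i j : I) (h : RingQuot.mkAlgHom k rel (evR k r i j) = 0) :
    ∑ m, X k rel (r + 1) m i * X k rel r m j = if i = j then 1 else 0 := by
  simp only [evR, map_sub, map_sum, map_mul, sub_eq_zero] at h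
  simp only [X]
  rw [h]
  split_ifs <;> simp

lemma D0_coevR
    (hc : ∀ r i j, ∑ m, X k rel r i m * X k rel (r + 1) j m = if i = j then 1 else 0)
    (r : ℕ) (i j : I) : D0 k rel (coevR k r i j) = 0 := by
  simp only [coevR, map_sub, map_sum, map_mul, D0_ι, Finset.sum_mul, Finset.mul_sum,
    Algebra.TensorProduct.tmul_mul_tmul, sub_eq_zero]
  rw [Finset.sum_comm]
  have : ∀ b, ∑ m, ∑ a, (X k rel r i a * X k rel (r + 1) j b) ⊗ₜ[k]
      (X k rel r a m * X k rel (r + 1) b m) = (X k rel r i b * X k rel (r + 1) j b) ⊗ₜ[k] 1 := by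
    intro b
    rw [Finset.sum_comm]
    simp only [← tmul_sum, hc, tmul_ite, Finset.sum_ite_eq', Finset.mem_univ, if_true]
  simp only [this, ← sum_tmul, hc]
  split_ifs <;> simp [Algebra.TensorProduct.one_def]

lemma D0_evR
    (he : ∀ r i j, ∑ m, X k rel (r + 1) m i * X k rel r m j = if i = j then 1 else 0)
    (r : ℕ) (i j : I) : D0 k rel (evR k r i j) = 0 := by
  simp only [evR, map_sub, map_sum, map_mul, D0_ι, Finset.sum_mul, Finset.mul_sum,
    Algebra.TensorProduct.tmul_mul_tmul, sub_eq_zero]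
  rw [Finset.sum_comm]
  have : ∀ b, ∑ m, ∑ a, (X k rel (r + 1) m a * X k rel r m b) ⊗ₜ[k]
      (X k rel (r + 1) a i * X k rel r b j) = 1 ⊗ₜ[k] (X k rel (r + 1) b i * X k rel r b j) := by
    intro b
    rw [Finset.sum_comm]
    simp only [← sum_tmul, he, ite_tmul, Finset.sum_ite_eq', Finset.mem_univ, if_true]
  simp only [this, ← tmul_sum, he]
  split_ifs <;> simp [Algebra.TensorProduct.one_def]

lemma E0_coevR (r : ℕ) (i j : I) : E0 k (coevR k r i j) = 0 := by
  simp only [coevR, map_sub, map_sum, map_mul, E0_ι, sub_eq_zero, ite_mul, one_mul, zero_mul,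
    Finset.sum_ite_eq, Finset.mem_univ, if_true]
  by_cases h : i = j
  · simp [h]
  · simp [h, Ne.symm h]

lemma E0_evR (r : ℕ) (i j : I) : E0 k (evR k r i j) = 0 := by
  simp only [evR, map_sub, map_sum, map_mul, E0_ι, sub_eq_zero, ite_mul, one_mul, zero_mul,
    Finset.sum_ite_eq', Finset.mem_univ, if_true]
  by_cases h : i = j
  · simp [h]
  · simp [h]

lemma S0_coevR
    (he : ∀ r i j, ∑ m, X k rel (r + 1) m i * X k rel r m j = if i = j then 1 else 0)
    (r : ℕ) (i j : I) : S0 k rel (coevR k r i j) = 0 := by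
  simp only [coevR, map_sub, map_sum, map_mul, S0_ι, sub_eq_zero, ← op_mul, ← Finset.op_sum, he]
  by_cases h : i = j
  · simp [h]
  · simp [h, Ne.symm h]

lemma S0_evR
    (hc : ∀ r i j, ∑ m, X k rel r i m * X k rel (r + 1) j m = if i = j then 1 else 0)
    (r : ℕ) (i j : I) : S0 k rel (evR k r i j) = 0 := by
  simp only [evR, map_sub, map_sum, map_mul, S0_ι, sub_eq_zero, ← op_mul, ← Finset.op_sum, hc]
  by_cases h : i = j
  · simp [h]
  · simp [h, Ne.symm h]

structure Good : Prop where
  coev : ∀ r i j, ∑ m, X k rel r i m * X k rel (r + 1) j m = if i = j then 1 else 0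
  ev : ∀ r i j, ∑ m, X k rel (r + 1) m i * X k rel r m j = if i = j then 1 else 0
  hD : ∀ ⦃x y⦄, rel x y → D0 k rel x = D0 k rel y
  hE : ∀ ⦃x y⦄, rel x y → E0 k x = E0 k y
  hS : ∀ ⦃x y⦄, rel x y → S0 k rel x = S0 k rel y

variable {k rel}

noncomputable def D (h : Good k rel) : RingQuot rel →ₐ[k] RingQuot rel ⊗[k] RingQuot rel :=
  RingQuot.liftAlgHom k ⟨D0 k rel, h.hD⟩

noncomputable def E (h : Good k rel) : RingQuot rel →ₐ[k] k :=
  RingQuot.liftAlgHom k ⟨E0 k, h.hE⟩

noncomputable def Sop (h : Good k rel) : RingQuot rel →ₐ[k] (RingQuot rel)ᵐᵒᵖ :=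
  RingQuot.liftAlgHom k ⟨S0 k rel, h.hS⟩

noncomputable def S (h : Good k rel) : RingQuot rel →ₗ[k] RingQuot rel :=
  (opLinearEquiv k).symm.toLinearMap ∘ₗ (Sop h).toLinearMap

lemma D_X (h : Good k rel) (r : ℕ) (i j : I) :
    D h (X k rel r i j) = ∑ m, X k rel r i m ⊗ₜ[k] X k rel r m j := by
  rw [D, X, RingQuot.liftAlgHom_mkAlgHom_apply, D0_ι]

lemma E_X (h : Good k rel) (r : ℕ) (i j : I) :
    E h (X k rel r i j) = if i = j then 1 else 0 := by
  rw [E, X, RingQuot.liftAlgHom_mkAlgHom_apply, E0_ι]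

lemma S_X (h : Good k rel) (r : ℕ) (i j : I) :
    S h (X k rel r i j) = X k rel (r + 1) j i := by
  simp only [S, LinearMap.comp_apply, AlgHom.toLinearMap_apply]
  rw [Sop, X, RingQuot.liftAlgHom_mkAlgHom_apply, S0_ι]
  rfl

lemma S_mul (h : Good k rel) (x y : RingQuot rel) : S h (x * y) = S h y * S h x := by
  simp [S]

lemma S_one (h : Good k rel) : S h 1 = 1 := by simp [S]

omit [Fintype I] [DecidableEq I] in
lemma hom_ext {B : Type*} [Semiring B] [Algebra k B] {f g : RingQuot rel →ₐ[k] B}
    (h : ∀ r i j, f (X k rel r i j) = g (X k rel r i j)) : f = g := by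
  refine RingQuot.ringQuot_ext' k f g ?_
  ext ⟨r, i, j⟩
  exact h r i j

omit [Fintype I] [DecidableEq I] in
@[elab_as_elim]
lemma induction {p : RingQuot rel → Prop} (h0 : ∀ c : k, p (algebraMap k _ c))
    (h1 : ∀ r i j, p (X k rel r i j)) (hmul : ∀ x y, p x → p y → p (x * y))
    (hadd : ∀ x y, p x → p y → p (x + y)) (z : RingQuot rel) : p z := by
  obtain ⟨z, rfl⟩ := RingQuot.mkAlgHom_surjective k rel z
  induction z using FreeAlgebra.induction with
  | grade0 c => rw [AlgHom.commutes]; exact h0 c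
  | grade1 l => exact h1 l.1 l.2.1 l.2.2
  | mul x y hx hy => rw [map_mul]; exact hmul _ _ hx hy
  | add x y hx hy => rw [map_add]; exact hadd _ _ hx hy

@[reducible] noncomputable def bialg (h : Good k rel) : Bialgebra k (RingQuot rel) :=
  Bialgebra.ofAlgHom (D h) (E h)
    (hom_ext fun r i j => by
      simp only [AlgHom.comp_apply, D_X, map_sum, Algebra.TensorProduct.map_tmul, AlgHom.id_apply,
        sum_tmul, tmul_sum]
      exact Finset.sum_comm)
    (hom_ext fun r i j => by
      simp only [AlgHom.comp_apply, D_X, map_sum, Algebra.TensorProduct.map_tmul, AlgHom.id_apply,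
        E_X, ite_tmul, Finset.sum_ite_eq, Finset.mem_univ, if_true]
      rfl)
    (hom_ext fun r i j => by
      simp only [AlgHom.comp_apply, D_X, map_sum, Algebra.TensorProduct.map_tmul, AlgHom.id_apply,
        E_X, tmul_ite, Finset.sum_ite_eq', Finset.mem_univ, if_true]
      rfl)

lemma anti_r (h : Good k rel) (z : RingQuot rel) :
    LinearMap.mul' k _ ((S h).rTensor _ (D h z)) = algebraMap k _ (E h z) := by
  have aux : ∀ (s : RingQuot rel ⊗[k] RingQuot rel) (u v : RingQuot rel),
      LinearMap.mul' k _ ((S h).rTensor _ (s * u ⊗ₜ[k] v)) =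
        S h u * LinearMap.mul' k _ ((S h).rTensor _ s) * v := by
    intro s u v
    induction s using TensorProduct.induction_on with
    | zero => simp
    | tmul a b => simp [S_mul, mul_assoc]
    | add s t hs ht => simp only [add_mul, map_add, hs, ht, mul_add]
  induction z using induction with
  | h0 c => simp [Algebra.algebraMap_eq_smul_one, Algebra.TensorProduct.one_def, S_one]
  | h1 r i j =>
    simp only [D_X, map_sum, LinearMap.rTensor_tmul, LinearMap.mul'_apply, S_X, h.ev, E_X]
    split_ifs <;> simp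
  | hmul x y hx hy =>
    rw [map_mul (D h), map_mul (E h), map_mul (algebraMap k _), ← hy]
    generalize D h y = t
    induction t using TensorProduct.induction_on with
    | zero => simp
    | tmul a b =>
      rw [aux, hx, ← Algebra.commutes]
      simp [mul_assoc]
    | add s t hs ht => simp only [mul_add, map_add, hs, ht]
  | hadd x y hx hy => simp only [map_add, hx, hy]

lemma anti_l (h : Good k rel) (z : RingQuot rel) :
    LinearMap.mul' k _ ((S h).lTensor _ (D h z)) = algebraMap k _ (E h z) := by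
  have aux : ∀ (s : RingQuot rel ⊗[k] RingQuot rel) (u v : RingQuot rel),
      LinearMap.mul' k _ ((S h).lTensor _ (u ⊗ₜ[k] v * s)) =
        u * LinearMap.mul' k _ ((S h).lTensor _ s) * S h v := by
    intro s u v
    induction s using TensorProduct.induction_on with
    | zero => simp
    | tmul a b => simp [S_mul, mul_assoc]
    | add s t hs ht => simp only [add_mul, map_add, hs, ht, mul_add]
  induction z using induction with
  | h0 c => simp [Algebra.algebraMap_eq_smul_one, Algebra.TensorProduct.one_def, S_one]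
  | h1 r i j =>
    simp only [D_X, map_sum, LinearMap.lTensor_tmul, LinearMap.mul'_apply, S_X, h.coev, E_X]
    split_ifs <;> simp
  | hmul x y hx hy =>
    rw [map_mul (D h), map_mul (E h), map_mul (algebraMap k _), ← hx]
    generalize D h x = t
    induction t using TensorProduct.induction_on with
    | zero => simp
    | tmul a b =>
      rw [aux, hy, mul_assoc, Algebra.commutes]
      simp [mul_assoc]
    | add s t hs ht => simp only [add_mul, map_add, hs, ht]
  | hadd x y hx hy => simp only [map_add, hx, hy]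

@[reducible] noncomputable def hopf (h : Good k rel) : HopfAlgebra k (RingQuot rel) :=
  { bialg h with
    antipode := S h
    mul_antipode_rTensor_comul := LinearMap.ext fun z => anti_r h z
    mul_antipode_lTensor_comul := LinearMap.ext fun z => anti_l h z }

end Pool.Agent.H275Z.FreeHopf
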