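import Pool.Agent.H275Z.Diamond
import Pool.Agent.H275Z.FreeHopf
import Pool.Agent.H275Z.AntiData

/-!
The rewriting system of the universal Hopf algebra that preserves the trilinear form.
-/

set_option autoImplicit false

namespace Pool.Agent.H275Z.Anti

open FreeAlgebra Diamond FreeHopf AntiData

variable (k : Type) [Field k]

abbrev I := Fin 12

abbrev A := FreeAlgebra k (Lt I)

def fj (j : ℕ) : Fin 3 := ⟨j % 3, Nat.mod_lt _ (by norm_num)⟩

lemma fj_succ (j : ℕ) : fj (j + 1) = fj j + 1 := by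
  apply Fin.ext
  simp [fj, Fin.val_add]

def lam (n : ℕ) : ℕ := 2 * (n / 3)

lemma lam_add (n : ℕ) : lam (n + 3) = lam n + 2 := by unfold lam; omega

def cw (j : ℕ) (u v x : I) : k := if w (fj j) u v x = true then 1 else 0

lemma cw_succ (j : ℕ) (u v x : I) : cw k (j + 1) u v x = cw k j v x u := by
  simp only [cw, fj_succ, w_succ]

noncomputable def OR (j : ℕ) (x a b : I) : A k :=
  (∑ u, ∑ v, cw k j u v x • (ι k (lam (j + 2), u, a) * ι k (lam (j + 1), v, b))) -
    ∑ y, cw k j a b y • ι k (lam j + 1, x, y)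

noncomputable def NR (j : ℕ) (u e e' : I) : A k :=
  (∑ x, ∑ v, cw k j u v x • (ι k (lam j + 1, e, x) * ι k (lam (j + 1) + 1, e', v))) -
    ∑ y, cw k j y e' e • ι k (lam (j + 2), y, u)

inductive Rule
  | coev (r : ℕ) (i j : I)
  | ev (r : ℕ) (i j : I)
  | O (j : ℕ) (x a b : I)
  | N (j : ℕ) (u e e' : I)

def c (r : ℕ) : I := if r % 2 = 0 then 0 else 11

def ra : Rule → Lt I
  | .coev r i _ => (r, i, c r)
  | .ev r i _ => (r + 1, c r, i)
  | .O j x a _ => (lam (j + 2), al (fj j) x, a)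
  | .N j u e _ => (lam j + 1, e, ga (fj j) u)

def rb : Rule → Lt I
  | .coev r _ j => (r + 1, j, c r)
  | .ev r _ j => (r, c r, j)
  | .O j x _ b => (lam (j + 1), be (fj j) x, b)
  | .N j u _ e' => (lam (j + 1) + 1, e', de (fj j) u)

noncomputable def ρ : Rule → A k
  | .coev r i j => coevR k r i j
  | .ev r i j => evR k r i j
  | .O j x a b => OR k j x a b
  | .N j u e e' => NR k j u e e'

def wt (l : Lt I) : ℕ :=
  if l.1 % 2 = 0 then l.2.1.val + (if l.2.2 = 0 then 1 else 0)
  else (if l.2.1 = 0 then 1 else 0) + l.2.2.val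

def rl (x y : Lt I) : Prop := wt x < wt y

lemma rl_wf : WellFounded rl := InvImage.wf wt wellFounded_lt

lemma c_even {r : ℕ} (h : r % 2 = 0) : c r = 0 := if_pos h

lemma c_odd {r : ℕ} (h : r % 2 = 1) : c r = 11 := if_neg (by omega)

lemma c_succ (r : ℕ) : c (r + 1) ≠ c r := by
  rcases Nat.mod_two_eq_zero_or_one r with h | h
  · rw [c_even h, c_odd (by omega)]; decide
  · rw [c_odd h, c_even (by omega)]; decide

lemma lt_eleven (m : I) (h : m ≠ 11) : m.val < (11 : I).val := by
  revert m; decide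

lemma rl_col (r : ℕ) (i m : I) (h : m ≠ c r) : rl (r, i, m) (r, i, c r) := by
  rcases Nat.mod_two_eq_zero_or_one r with hr | hr
  · rw [c_even hr] at h ⊢
    simp [rl, wt, hr, h]
  · rw [c_odd hr] at h ⊢
    have := lt_eleven m h
    simp only [rl, wt, hr, one_ne_zero, if_false]
    omega

lemma rl_row (r : ℕ) (i m : I) (h : m ≠ c r) : rl (r + 1, m, i) (r + 1, c r, i) := by
  rcases Nat.mod_two_eq_zero_or_one r with hr | hr
  · rw [c_even hr] at h ⊢
    have hr' : (r + 1) % 2 = 1 := by omega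
    simp [rl, wt, hr', h]
  · rw [c_odd hr] at h ⊢
    have := lt_eleven m h
    have hr' : (r + 1) % 2 = 0 := by omega
    simp only [rl, wt, hr', if_true]
    omega

lemma rl_even (n : ℕ) (a : I) {u u' : I} (h : u < u') : rl (lam n, u, a) (lam n, u', a) := by
  have hr : lam n % 2 = 0 := by unfold lam; omega
  simp only [rl, wt, hr, if_true]
  have : u.val < u'.val := h
  omega

lemma rl_odd (n : ℕ) (a : I) {u u' : I} (h : u < u') :
    rl (lam n + 1, a, u) (lam n + 1, a, u') := by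
  have hr : (lam n + 1) % 2 = 1 := by unfold lam; omega
  simp only [rl, wt, hr, one_ne_zero, if_false]
  have : u.val < u'.val := h
  omega

lemma lex2 {p q : I → Lt I} (hp : ∀ {u u'}, u < u' → rl (p u) (p u'))
    (hq : ∀ {u u'}, u < u' → rl (q u) (q u')) {u v u' v' : I} (h : lt2 u v u' v')
    (t t' : List (Lt I)) : List.Lex rl (p u :: q v :: t) (p u' :: q v' :: t') := by
  rcases h with h | ⟨rfl, h⟩
  · exact List.Lex.rel (hp h)
  · exact List.Lex.cons (List.Lex.rel (hq h))

lemma lex3 {p q s : I → Lt I} (hp : ∀ {u u'}, u < u' → rl (p u) (p u'))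
    (hq : ∀ {u u'}, u < u' → rl (q u) (q u')) (hs : ∀ {u u'}, u < u' → rl (s u) (s u'))
    {u v x u' v' x' : I} (h : lt3 u v x u' v' x') :
    List.Shortlex rl [p u, q v, s x] [p u', q v', s x'] := by
  refine List.Shortlex.of_lex rfl ?_
  rcases h with h | ⟨rfl, h⟩
  · exact List.Lex.rel (hp h)
  · exact List.Lex.cons (lex2 hq hs h _ _)

lemma cw_smul_mem {M : Submodule k (A k)} {j : ℕ} {u v x : I} {z : A k}
    (h : w (fj j) u v x = true → z ∈ M) : cw k j u v x • z ∈ M := by
  unfold cw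
  split_ifs with hw
  · rw [one_smul]; exact h hw
  · rw [zero_smul]; exact zero_mem _

lemma ite_low (P : Prop) [Decidable P] (x y : Lt I) :
    (if P then 1 else 0 : A k) ∈ low k rl [x, y] := by
  split_ifs
  · exact W_mem_low rl (u := []) (List.Shortlex.of_length_lt (by simp))
  · exact zero_mem _

lemma one_low (z x y : Lt I) : ι k z ∈ low k rl [x, y] := by
  rw [← W_single]
  exact W_mem_low rl (List.Shortlex.of_length_lt (by simp))

lemma pair_low {x y x' y' : Lt I} (h : List.Lex rl [x', y'] [x, y]) :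
    ι k x' * ι k y' ∈ low k rl [x, y] := by
  rw [← W_pair]
  exact W_mem_low rl (List.Shortlex.of_lex rfl h)

lemma lead_low {M : Submodule k (A k)} (F : I → I → k) (g : I → I → A k) (l : A k) (u0 v0 : I)
    (h0 : F u0 v0 = 1) (h1 : ∀ u v, (u, v) ≠ (u0, v0) → F u v • g u v ∈ M) (h2 : l ∈ M) :
    g u0 v0 - ((∑ u, ∑ v, F u v • g u v) - l) ∈ M := by
  rw [← Fintype.sum_prod_type', ← Finset.add_sum_erase _ _ (Finset.mem_univ (u0, v0))]
  simp only [h0, one_smul]
  have : ∀ a b d : A k, a - (a + b - d) = d - b := by intros; abel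
  rw [this]
  exact sub_mem h2 (Submodule.sum_mem _ fun p hp => h1 p.1 p.2 (Finset.ne_of_mem_erase hp))

lemma cw_al (j : ℕ) (x : I) : cw k j (al (fj j) x) (be (fj j) x) x = 1 := if_pos (A1 _ _)

lemma cw_ga (j : ℕ) (u : I) : cw k j u (de (fj j) u) (ga (fj j) u) = 1 := if_pos (B1 _ _)

lemma lt_al {j : ℕ} {x u v : I} (hw : w (fj j) u v x = true)
    (hne : (u, v) ≠ (al (fj j) x, be (fj j) x)) : lt2 u v (al (fj j) x) (be (fj j) x) := by
  rcases A2 _ _ _ _ hw with ⟨rfl, rfl⟩ | h
  · exact absurd rfl hne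
  · exact h

lemma lt_ga {j : ℕ} {x u v : I} (hw : w (fj j) u v x = true)
    (hne : (x, v) ≠ (ga (fj j) u, de (fj j) u)) : lt2 x v (ga (fj j) u) (de (fj j) u) := by
  rcases B2 _ _ _ _ hw with ⟨rfl, rfl⟩ | h
  · exact absurd rfl hne
  · exact h

lemma hlow (σ : Rule) : ι k (ra σ) * ι k (rb σ) - ρ k σ ∈ low k rl [ra σ, rb σ] := by
  cases σ with
  | coev r i j =>
    simp only [ra, rb, ρ, coevR]
    rw [← Finset.add_sum_erase _ _ (Finset.mem_univ (c r))]
    have : ∀ a b d : A k, a - (a + b - d) = d - b := by intros; abel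
    rw [this]
    exact sub_mem (ite_low k _ _ _) (Submodule.sum_mem _ fun m hm =>
      pair_low k (List.Lex.rel (rl_col r i m (Finset.ne_of_mem_erase hm))))
  | ev r i j =>
    simp only [ra, rb, ρ, evR]
    rw [← Finset.add_sum_erase _ _ (Finset.mem_univ (c r))]
    have : ∀ a b d : A k, a - (a + b - d) = d - b := by intros; abel
    rw [this]
    exact sub_mem (ite_low k _ _ _) (Submodule.sum_mem _ fun m hm =>
      pair_low k (List.Lex.rel (rl_row r i m (Finset.ne_of_mem_erase hm))))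
  | O j x a b =>
    simp only [ra, rb, ρ, OR]
    refine lead_low k (fun u v => cw k j u v x)
      (fun u v => ι k (lam (j + 2), u, a) * ι k (lam (j + 1), v, b)) _ _ _ (cw_al k j x) ?_
      (Submodule.sum_mem _ fun y _ => Submodule.smul_mem _ _ (one_low k _ _ _))
    intro u v hne
    exact cw_smul_mem k fun hw => pair_low k
      (lex2 (p := fun u => (lam (j + 2), u, a)) (q := fun v => (lam (j + 1), v, b))
        (rl_even _ _) (rl_even _ _) (lt_al hw hne) _ _)
  | N j u e e' =>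
    simp only [ra, rb, ρ, NR]
    refine lead_low k (fun x v => cw k j u v x)
      (fun x v => ι k (lam j + 1, e, x) * ι k (lam (j + 1) + 1, e', v)) _ _ _ (cw_ga k j u) ?_
      (Submodule.sum_mem _ fun y _ => Submodule.smul_mem _ _ (one_low k _ _ _))
    intro x v hne
    exact cw_smul_mem k fun hw => pair_low k
      (lex2 (p := fun x => (lam j + 1, e, x)) (q := fun v => (lam (j + 1) + 1, e', v))
        (rl_odd _ _) (rl_odd _ _) (lt_ga hw hne) _ _)

lemma hinj (σ τ : Rule) (h1 : ra σ = ra τ) (h2 : rb σ = rb τ) : ρ k σ = ρ k τ := by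
  cases σ <;> cases τ <;> simp only [ra, rb, Prod.mk.injEq, lam] at h1 h2
  case coev.coev =>
    obtain ⟨rfl, rfl, -⟩ := h1
    obtain ⟨-, rfl, -⟩ := h2
    rfl
  case ev.ev =>
    obtain ⟨-, -, rfl⟩ := h1
    obtain ⟨rfl, -, rfl⟩ := h2
    rfl
  case O.O j x a b j' x' a' b' =>
    obtain ⟨l1, e1, rfl⟩ := h1
    obtain ⟨l2, e2, rfl⟩ := h2
    have := C1 _ _ _ _ e1 e2
    simp only [fj, Fin.ext_iff, ne_eq, Fin.val_one] at this
    obtain ⟨hf, hx⟩ : j % 3 = j' % 3 ∧ x.val = x'.val := by omega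
    obtain rfl : j = j' := by omega
    obtain rfl : x = x' := Fin.ext hx
    rfl
  case N.N j x a b j' x' a' b' =>
    obtain ⟨l1, rfl, e1⟩ := h1
    obtain ⟨l2, rfl, e2⟩ := h2
    have := C2 _ _ _ _ e1 e2
    simp only [fj, Fin.ext_iff, ne_eq, Fin.val_two] at this
    obtain ⟨hf, hx⟩ : j % 3 = j' % 3 ∧ x.val = x'.val := by omega
    obtain rfl : j = j' := by omega
    obtain rfl : x = x' := Fin.ext hx
    rfl
  all_goals omega

end Pool.Agent.H275Z.Anti
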