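import Pool.Agent.H275Z.BallSH

/-!
Local analytic geometry: thick points of a set and a regular point lemma.
-/

set_option autoImplicit false
set_option maxHeartbeats 400000

namespace Pool.Agent.H275Z.Ball

open Metric Set Filter Topology
open scoped InnerProductSpace ComplexConjugate

lemma ord_sum {J : Type*} [Fintype J] {c φ : J → ℂ → ℂ} (hc : ∀ m, AnalyticAt ℂ (c m) 0)
    (hφ : ∀ m, AnalyticAt ℂ (φ m) 0) {n : ℕ} (h : ∀ m, (n : ℕ∞) ≤ analyticOrderAt (φ m) 0) :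
    (n : ℕ∞) ≤ analyticOrderAt (fun z => ∑ m, c m z * φ m z) 0 := by
  choose G hG hG' using fun m => (natCast_le_analyticOrderAt (hφ m)).1 (h m)
  have ha : AnalyticAt ℂ (fun z => ∑ m, c m z * φ m z) 0 :=
    Finset.analyticAt_fun_sum _ fun m _ => (hc m).mul (hφ m)
  refine (natCast_le_analyticOrderAt ha).2 ⟨fun z => ∑ m, c m z * G m z,
    Finset.analyticAt_fun_sum _ fun m _ => (hc m).mul (hG m), ?_⟩
  filter_upwards [eventually_all.2 hG'] with z hz
  simp only [hz, smul_eq_mul, Finset.mul_sum]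
  exact Finset.sum_congr rfl fun m _ => by ring

lemma ev_zero {J : Type*} [Fintype J] (S : Set (ℂ → ℂ)) (han : ∀ φ ∈ S, AnalyticAt ℂ φ 0)
    (h0 : ∀ φ ∈ S, φ 0 = 0)
    (hd : ∀ φ ∈ S, ∃ c θ : J → ℂ → ℂ, (∀ m, AnalyticAt ℂ (c m) 0) ∧ (∀ m, θ m ∈ S) ∧
      deriv φ =ᶠ[𝓝 0] fun z => ∑ m, c m z * θ m z) :
    ∀ φ ∈ S, ∀ᶠ z in 𝓝 (0 : ℂ), φ z = 0 := by
  have key : ∀ n : ℕ, ∀ φ ∈ S, (n : ℕ∞) ≤ analyticOrderAt φ 0 := by
    intro n
    induction n with
    | zero => intro φ _; simp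
    | succ n ih =>
      intro φ hφ
      obtain ⟨c, θ, hc, hθ, he⟩ := hd φ hφ
      have h1 := ord_sum hc (fun m => han _ (hθ m)) fun m => ih _ (hθ m)
      rw [← analyticOrderAt_congr he] at h1
      have := (analyticOrderAt_deriv_ge_iff (han φ hφ) (h0 φ hφ)).1 h1
      exact_mod_cast this
  intro φ hφ
  exact analyticOrderAt_eq_top.1 (ENat.eq_top_iff_forall_ge.2 fun n => key n φ hφ)

variable {E : Type*} [NormedAddCommGroup E] [InnerProductSpace ℂ E]

lemma analyticAt_det {r : ℕ} {M : E → Matrix (Fin r) (Fin r) ℂ} {x : E}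
    (h : ∀ i j, AnalyticAt ℂ (fun z => M z i j) x) : AnalyticAt ℂ (fun z => (M z).det) x := by
  simp only [Matrix.det_apply']
  exact Finset.analyticAt_fun_sum _ fun σ _ =>
    analyticAt_const.mul (Finset.analyticAt_fun_prod _ fun i _ => h _ _)

/-- The Jacobian minor of a family of functions along a family of vectors. -/
noncomputable def jac {r : ℕ} (g : Fin r → E → ℂ) (w : Fin r → E) (z : E) : ℂ :=
  (Matrix.of fun i j => fderiv ℂ (g i) z (w j)).det

lemma analyticAt_jac {r : ℕ} {g : Fin r → E → ℂ} (w : Fin r → E) {x : E}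
    (h : ∀ i, AnalyticAt ℂ (g i) x) : AnalyticAt ℂ (jac g w) x :=
  analyticAt_det fun i j =>
    ((ContinuousLinearMap.apply ℂ ℂ (w j)).analyticAt _).comp (h i).fderiv

lemma jac_cons {r : ℕ} (f : E → ℂ) (g : Fin r → E → ℂ) (w : Fin r → E) (z : E) :
    ∃ Λ : E →L[ℂ] ℂ, (∀ v, jac (Fin.cons f g : Fin (r + 1) → E → ℂ) (Fin.cons v w) z = Λ v) ∧
      ∀ v, (∀ i, fderiv ℂ (g i) z v = 0) → Λ v = jac g w z * fderiv ℂ f z v := by
  refine ⟨∑ i : Fin (r + 1), ((-1) ^ (i : ℕ) * (Matrix.of fun a b =>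
    fderiv ℂ ((Fin.cons f g : Fin (r + 1) → E → ℂ) (i.succAbove a)) z (w b)).det) •
      fderiv ℂ ((Fin.cons f g : Fin (r + 1) → E → ℂ) i) z, fun v => ?_, fun v hv => ?_⟩
  · rw [jac, Matrix.det_succ_column_zero, ContinuousLinearMap.sum_apply]
    refine Finset.sum_congr rfl fun i _ => ?_
    simp only [Matrix.of_apply, Fin.cons_zero, ContinuousLinearMap.smul_apply, smul_eq_mul]
    rw [mul_right_comm]
    rfl
  · rw [ContinuousLinearMap.sum_apply, Fin.sum_univ_succ]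
    simp [hv, jac]

lemma surj_of_det {r : ℕ} {ℓ : Fin r → E →L[ℂ] ℂ} {w : Fin r → E}
    (h : (Matrix.of fun i j => ℓ i (w j)).det ≠ 0) :
    Function.Surjective (ContinuousLinearMap.pi ℓ) := by
  intro x
  have hu : IsUnit (Matrix.of fun i j => ℓ i (w j)) :=
    (Matrix.isUnit_iff_isUnit_det _).2 (isUnit_iff_ne_zero.2 h)
  obtain ⟨y, hy⟩ := Matrix.mulVec_surjective_iff_isUnit.2 hu x
  refine ⟨∑ j, y j • w j, ?_⟩
  rw [← hy]
  ext i
  simp [Matrix.mulVec, dotProduct, mul_comm]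

variable [FiniteDimensional ℂ E]

lemma ker_rank {r : ℕ} {ℓ : Fin r → E →L[ℂ] ℂ}
    (h : Function.Surjective (ContinuousLinearMap.pi ℓ)) :
    r + Module.finrank ℂ (ContinuousLinearMap.pi ℓ : E →ₗ[ℂ] (Fin r → ℂ)).ker =
      Module.finrank ℂ E := by
  have := LinearMap.finrank_range_add_finrank_ker
    (ContinuousLinearMap.pi ℓ : E →ₗ[ℂ] (Fin r → ℂ))
  rw [LinearMap.range_eq_top.2 h] at this
  simpa using this

lemma exists_linv {Φ : E → E} {a : E} (hΦ : AnalyticAt ℂ Φ a)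
    (hb : Function.Bijective (fderiv ℂ Φ a)) : ∃ ψ : E → E, AnalyticAt ℂ ψ 0 ∧ ψ 0 = a ∧
      Function.Injective (fderiv ℂ ψ 0) ∧ ∀ᶠ y in 𝓝 (0 : E), Φ (ψ y) = Φ a + y := by
  have : CompleteSpace E := FiniteDimensional.complete ℂ E
  let L : E ≃L[ℂ] E :=
    (LinearEquiv.ofBijective (fderiv ℂ Φ a : E →ₗ[ℂ] E) hb).toContinuousLinearEquiv
  have hL : HasFDerivAt Φ (L : E →L[ℂ] E) a := hΦ.differentiableAt.hasFDerivAt
  have hc : ContDiffAt ℂ ⊤ Φ a := hΦ.contDiffAt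
  have h1 : AnalyticAt ℂ (hc.localInverse hL (by simp)) (Φ a) :=
    (hc.to_localInverse hL (by simp)).analyticAt
  have h2 := hc.localInverse_apply_image hL (by simp)
  have h3 : ∀ᶠ y in 𝓝 (Φ a), Φ (hc.localInverse hL (by simp) y) = y :=
    (hc.hasStrictFDerivAt' hL (by simp)).eventually_right_inverse
  generalize hc.localInverse hL (by simp) = ψ at h1 h2 h3
  have ht : AnalyticAt ℂ (fun y : E => Φ a + y) 0 := analyticAt_const.add analyticAt_id
  have h4 : AnalyticAt ℂ (fun y => ψ (Φ a + y)) 0 := h1.comp_of_eq ht (by simp)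
  have h5 : ∀ᶠ y in 𝓝 (0 : E), Φ (ψ (Φ a + y)) = Φ a + y := by
    have : Tendsto (fun y : E => Φ a + y) (𝓝 0) (𝓝 (Φ a)) := by
      simpa using ht.continuousAt.tendsto
    exact this.eventually h3
  refine ⟨fun y => ψ (Φ a + y), h4, by simpa using h2, ?_, h5⟩
  have h6 : HasFDerivAt (fun y => Φ (ψ (Φ a + y)))
      ((fderiv ℂ Φ a).comp (fderiv ℂ (fun y => ψ (Φ a + y)) 0)) 0 :=
    HasFDerivAt.comp (g := Φ) 0 (by simpa [h2] using hΦ.differentiableAt.hasFDerivAt)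
      h4.differentiableAt.hasFDerivAt
  have h7 : HasFDerivAt (fun y => Φ (ψ (Φ a + y))) (ContinuousLinearMap.id ℂ E) 0 :=
    ((hasFDerivAt_id (0 : E)).const_add (Φ a)).congr_of_eventuallyEq h5
  have h8 := h6.unique h7
  intro u v huv
  have hu := DFunLike.congr_fun h8 u
  have hv := DFunLike.congr_fun h8 v
  simp only [ContinuousLinearMap.comp_apply, ContinuousLinearMap.id_apply] at hu hv
  rw [← hu, ← hv, huv]

/-- Functions analytic on `U` vanishing on `A`. -/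
def Van (U A : Set E) (f : E → ℂ) : Prop := AnalyticOnNhd ℂ f U ∧ ∀ z ∈ A, f z = 0

lemma regular {U A : Set E} (hU : IsOpen U) (hAU : A ⊆ U) {q : E} (hq : q ∈ A) {r : ℕ}
    {g : Fin r → E → ℂ} {w : Fin r → E} (hg : ∀ i, Van U A (g i)) (hj : jac g w q ≠ 0)
    (hmax : ∀ f, Van U A f → ∀ v, ∀ z ∈ A,
      jac (Fin.cons f g : Fin (r + 1) → E → ℂ) (Fin.cons v w) z = 0) :
    ∃ (W : Submodule ℂ E) (ψ : E → E), r + Module.finrank ℂ W = Module.finrank ℂ E ∧
      AnalyticAt ℂ ψ 0 ∧ ψ 0 = q ∧ Function.Injective (fderiv ℂ ψ 0) ∧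
      ∀ f, Van U A f → ∀ᶠ y in 𝓝 (0 : E), y ∈ W → f (ψ y) = 0 := by
  have hs := surj_of_det (ℓ := fun i => fderiv ℂ (g i) q) hj
  have hrk := ker_rank hs
  have hga : ∀ i, AnalyticAt ℂ (g i) q := fun i => (hg i).1 q (hAU hq)
  have hG : HasFDerivAt (fun z i => g i z) (ContinuousLinearMap.pi fun i => fderiv ℂ (g i) q) q :=
    hasFDerivAt_pi.2 fun i => (hga i).differentiableAt.hasFDerivAt
  have hGa : AnalyticAt ℂ (fun z i => g i z) q := AnalyticAt.pi hga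
  generalize (ContinuousLinearMap.pi fun i => fderiv ℂ (g i) q) = D at hs hrk hG
  obtain ⟨R0, hR0⟩ := (D : E →ₗ[ℂ] (Fin r → ℂ)).exists_rightInverse_of_surjective
    (LinearMap.range_eq_top.2 hs)
  obtain ⟨R, hR⟩ : ∃ R : (Fin r → ℂ) →L[ℂ] E, ∀ x, D (R x) = x :=
    ⟨LinearMap.toContinuousLinearMap R0, fun x => DFunLike.congr_fun hR0 x⟩
  have hΦa : AnalyticAt ℂ (fun z => (z - q) - R (D (z - q)) + R (fun i => g i z)) q := by
    have h1 : AnalyticAt ℂ (fun z : E => z - q) q := analyticAt_id.sub analyticAt_const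
    exact (h1.sub ((R.analyticAt _).comp ((D.analyticAt _).comp h1))).add
      ((R.analyticAt _).comp hGa)
  have hΦd : HasFDerivAt (fun z => (z - q) - R (D (z - q)) + R (fun i => g i z))
      (ContinuousLinearMap.id ℂ E) q := by
    have h1 : HasFDerivAt (fun z : E => z - q) (ContinuousLinearMap.id ℂ E) q :=
      (hasFDerivAt_id q).sub_const q
    have h2 := (h1.sub (R.hasFDerivAt.comp q (D.hasFDerivAt.comp q h1))).add
      (R.hasFDerivAt.comp q hG)
    have e : ContinuousLinearMap.id ℂ E - R.comp (D.comp (ContinuousLinearMap.id ℂ E)) +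
        R.comp D = ContinuousLinearMap.id ℂ E := by
      ext v
      simp
    rw [e] at h2
    exact h2
  obtain ⟨ψ, hψ, hψ0, hψi, hψe⟩ := exists_linv hΦa (by
    rw [hΦd.fderiv]; exact Function.bijective_id)
  have hgq : (fun i => g i q) = 0 := funext fun i => (hg i).2 q hq
  have hz : ∀ᶠ y in 𝓝 (0 : E), D y = 0 → ∀ i, g i (ψ y) = 0 := by
    filter_upwards [hψe] with y hy hy0 i
    have := congrArg D hy
    simp only [hgq, map_add, map_sub, hR, sub_self, map_zero, zero_add, hy0] at this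
    exact congrFun this i
  have hψU : ∀ᶠ y in 𝓝 (0 : E), ψ y ∈ U :=
    hψ.continuousAt.eventually (by rw [hψ0]; exact hU.mem_nhds (hAU hq))
  obtain ⟨δ, hδ, hball⟩ := Metric.eventually_nhds_iff_ball.1 (hψU.and hψ.eventually_analyticAt)
  refine ⟨(D : E →ₗ[ℂ] (Fin r → ℂ)).ker, ψ, hrk, hψ, hψ0, hψi, fun f hf => ?_⟩
  filter_upwards [ball_mem_nhds (0 : E) (half_pos hδ)] with u hu huW
  have huD : D u = 0 := huW
  have hlin : ∀ ζ0 : ℂ, AnalyticAt ℂ (fun ζ : ℂ => ζ • u) ζ0 := fun _ =>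
    analyticAt_id.smul analyticAt_const
  have ht : Tendsto (fun ζ : ℂ => ζ • u) (𝓝 0) (𝓝 0) := by
    simpa using (hlin 0).continuousAt.tendsto
  have hc : AnalyticAt ℂ (fun ζ : ℂ => ψ (ζ • u)) 0 := hψ.comp_of_eq (hlin 0) (by simp)
  have hcomp : ∀ f' : E → ℂ, AnalyticAt ℂ f' q → AnalyticAt ℂ (fun ζ : ℂ => f' (ψ (ζ • u))) 0 :=
    fun f' h => h.comp_of_eq hc (by simp [hψ0])
  have hgz : ∀ᶠ ζ in 𝓝 (0 : ℂ), ∀ i, g i (ψ (ζ • u)) = 0 := by
    filter_upwards [ht.eventually hz] with ζ h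
    exact h (by rw [map_smul, huD, smul_zero])
  have hja : AnalyticAt ℂ (jac g w) q := analyticAt_jac w hga
  have hev := ev_zero (J := Fin (Module.finrank ℂ E))
    {φ | ∃ f', Van U A f' ∧ φ = fun ζ : ℂ => f' (ψ (ζ • u))}
    (by rintro _ ⟨f', hf', rfl⟩; exact hcomp f' (hf'.1 q (hAU hq)))
    (by rintro _ ⟨f', hf', rfl⟩; simpa [hψ0] using hf'.2 q hq) ?_ _ ⟨f, hf, rfl⟩
  · have han : AnalyticOnNhd ℂ (fun ζ : ℂ => f (ψ (ζ • u))) (ball 0 2) := by
      intro ζ hζ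
      have h1 : ζ • u ∈ ball (0 : E) δ := by
        rw [mem_ball_zero_iff] at *
        rw [norm_smul]
        nlinarith [norm_nonneg ζ, norm_nonneg u]
      exact (hf.1 _ (hball _ h1).1).comp_of_eq ((hball _ h1).2.comp_of_eq (hlin ζ) rfl) rfl
    have := han.eqOn_zero_of_preconnected_of_eventuallyEq_zero
      (convex_ball (0 : ℂ) 2).isPreconnected (z₀ := 0) (by simp) hev (x := 1) (by simp)
    simpa using this
  · rintro _ ⟨f', hf', rfl⟩
    let b := stdOrthonormalBasis ℂ E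
    refine ⟨fun m ζ => ⟪b m, deriv (fun ζ : ℂ => ψ (ζ • u)) ζ⟫_ℂ / jac g w (ψ (ζ • u)),
      fun m ζ => jac (Fin.cons f' g : Fin (r + 1) → E → ℂ) (Fin.cons (b m) w) (ψ (ζ • u)),
      fun m => ?_, fun m => ⟨_, ⟨fun z hz => analyticAt_jac _ fun i => ?_, hmax f' hf' _⟩, rfl⟩, ?_⟩
    · have : CompleteSpace E := FiniteDimensional.complete ℂ E
      exact (((innerSL ℂ (b m)).analyticAt _).comp hc.deriv).div (hcomp _ hja)
        (by simpa [hψ0] using hj)
    · refine Fin.cases ?_ (fun i => ?_) i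
      · exact hf'.1 z hz
      · exact (hg i).1 z hz
    · have hjz : ∀ᶠ ζ in 𝓝 (0 : ℂ), jac g w (ψ (ζ • u)) ≠ 0 :=
        (hcomp _ hja).continuousAt.eventually_ne (by simpa [hψ0] using hj)
      filter_upwards [hjz, hgz.eventually_nhds, ht.eventually hψU, hc.eventually_analyticAt]
        with ζ h1 h2 h3 h4
      have hch : ∀ f'' : E → ℂ, AnalyticAt ℂ f'' (ψ (ζ • u)) →
          deriv (fun ζ : ℂ => f'' (ψ (ζ • u))) ζ =
            fderiv ℂ f'' (ψ (ζ • u)) (deriv (fun ζ : ℂ => ψ (ζ • u)) ζ) := fun f'' h =>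
        (h.differentiableAt.hasFDerivAt.comp_hasDerivAt ζ h4.differentiableAt.hasDerivAt).deriv
      obtain ⟨Λ, hΛ1, hΛ2⟩ := jac_cons f' g w (ψ (ζ • u))
      have h5 := hΛ2 (deriv (fun ζ : ℂ => ψ (ζ • u)) ζ) fun i => by
        rw [← hch _ ((hg i).1 _ h3)]
        have : (fun ζ : ℂ => g i (ψ (ζ • u))) =ᶠ[𝓝 ζ] fun _ => 0 := h2.mono fun ζ' h => h i
        rw [this.deriv_eq, deriv_const]
      rw [hch _ (hf'.1 _ h3)]
      generalize deriv (fun ζ : ℂ => ψ (ζ • u)) ζ = v at h5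
      simp only [hΛ1]
      have h6 : Λ v = ∑ m, ⟪b m, v⟫_ℂ * Λ (b m) := by
        conv_lhs => rw [← b.sum_repr' v]
        simp
      rw [h6] at h5
      simp only [div_mul_eq_mul_div, ← Finset.sum_div]
      rw [h5]
      field_simp

end Pool.Agent.H275Z.Ball
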