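import Pool.Agent.H275Z.BallMob

/-!
Four point averages along holomorphic curves.
-/

set_option autoImplicit false
set_option maxHeartbeats 400000

namespace Pool.Agent.H275Z.Ball

open Metric Set Filter Topology
open scoped InnerProductSpace ComplexConjugate

def om : Fin 4 → ℂ := ![1, -1, Complex.I, -Complex.I]

lemma norm_om (i : Fin 4) : ‖om i‖ = 1 := by fin_cases i <;> simp [om]

lemma norm_tom {t : ℝ} (ht : 0 ≤ t) (i : Fin 4) : ‖(t : ℂ) * om i‖ = t := by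
  rw [norm_mul, norm_om, mul_one, Complex.norm_real, Real.norm_of_nonneg ht]

lemma sum_om : ∑ i, om i = 0 := by simp [om, Fin.sum_univ_four]

lemma sum_om_sq : ∑ i, om i ^ 2 = 0 := by simp [om, Fin.sum_univ_four]

section
variable {V : Type*} [NormedAddCommGroup V] [InnerProductSpace ℂ V]

lemma avg_norm (d0 d1 d2 : V) (t : ℝ) :
    ∑ i, ‖d0 + ((t : ℂ) * om i) • d1 + ((t : ℂ) * om i) ^ 2 • d2‖ ^ 2 =
      4 * (‖d0‖ ^ 2 + t ^ 2 * ‖d1‖ ^ 2 + t ^ 4 * ‖d2‖ ^ 2) := by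
  have p1 := parallelogram_law_with_norm ℂ (d0 + (t : ℂ) ^ 2 • d2) ((t : ℂ) • d1)
  have p2 := parallelogram_law_with_norm ℂ (d0 - (t : ℂ) ^ 2 • d2) (((t : ℂ) * Complex.I) • d1)
  have p3 := parallelogram_law_with_norm ℂ d0 ((t : ℂ) ^ 2 • d2)
  have n1 : ‖(t : ℂ) • d1‖ ^ 2 = t ^ 2 * ‖d1‖ ^ 2 := by
    rw [norm_smul, mul_pow, Complex.norm_real, Real.norm_eq_abs, sq_abs]
  have n2 : ‖((t : ℂ) * Complex.I) • d1‖ ^ 2 = t ^ 2 * ‖d1‖ ^ 2 := by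
    rw [norm_smul, norm_mul, Complex.norm_I, mul_one, mul_pow, Complex.norm_real,
      Real.norm_eq_abs, sq_abs]
  have n3 : ‖(t : ℂ) ^ 2 • d2‖ ^ 2 = t ^ 4 * ‖d2‖ ^ 2 := by
    rw [norm_smul, norm_pow, mul_pow, Complex.norm_real, Real.norm_eq_abs, sq_abs]; ring
  have e0 : d0 + ((t : ℂ) * om 0) • d1 + ((t : ℂ) * om 0) ^ 2 • d2 =
      d0 + (t : ℂ) ^ 2 • d2 + (t : ℂ) • d1 := by
    simp only [om, Matrix.cons_val_zero, mul_one]; abel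
  have e1 : d0 + ((t : ℂ) * om 1) • d1 + ((t : ℂ) * om 1) ^ 2 • d2 =
      d0 + (t : ℂ) ^ 2 • d2 - (t : ℂ) • d1 := by
    have : om 1 = -1 := rfl
    rw [this]
    match_scalars <;> ring
  have e2 : d0 + ((t : ℂ) * om 2) • d1 + ((t : ℂ) * om 2) ^ 2 • d2 =
      d0 - (t : ℂ) ^ 2 • d2 + ((t : ℂ) * Complex.I) • d1 := by
    have : om 2 = Complex.I := rfl
    rw [this, mul_pow, Complex.I_sq]
    match_scalars <;> ring
  have e3 : d0 + ((t : ℂ) * om 3) • d1 + ((t : ℂ) * om 3) ^ 2 • d2 =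
      d0 - (t : ℂ) ^ 2 • d2 - ((t : ℂ) * Complex.I) • d1 := by
    have : om 3 = -Complex.I := rfl
    rw [this, mul_pow, neg_sq, Complex.I_sq]
    match_scalars <;> ring
  rw [Fin.sum_univ_four, e0, e1, e2, e3]
  nlinarith

lemma avg_le (u : Fin 4 → V) (d0 d1 d2 : V) {t C M : ℝ} (ht0 : 0 ≤ t) (ht1 : t ≤ 1) (hC : 0 ≤ C)
    (h0 : ‖d0‖ ≤ M) (h1 : ‖d1‖ ≤ M) (h2 : ‖d2‖ ≤ M)
    (hu : ∀ i, ‖u i - (d0 + ((t : ℂ) * om i) • d1 + ((t : ℂ) * om i) ^ 2 • d2)‖ ≤ C * t ^ 3) :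
    ∑ i, ‖u i‖ ^ 2 ≤ 4 * ‖d0‖ ^ 2 + 4 * t ^ 2 * ‖d1‖ ^ 2 +
      (4 * M ^ 2 + 4 * (6 * M * C + C ^ 2)) * t ^ 3 := by
  have hM : 0 ≤ M := (norm_nonneg _).trans h0
  have ht3 : 0 ≤ t ^ 3 := by positivity
  have ht31 : t ^ 3 ≤ 1 := pow_le_one₀ ht0 ht1
  have key : ∀ i, ‖u i‖ ^ 2 ≤ ‖d0 + ((t : ℂ) * om i) • d1 + ((t : ℂ) * om i) ^ 2 • d2‖ ^ 2 +
      (6 * M * C + C ^ 2) * t ^ 3 := by
    intro i
    set p := d0 + ((t : ℂ) * om i) • d1 + ((t : ℂ) * om i) ^ 2 • d2 with hp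
    have hp3 : ‖p‖ ≤ 3 * M := by
      have a1 : ‖((t : ℂ) * om i) • d1‖ ≤ M := by
        rw [norm_smul, norm_tom ht0]
        nlinarith [norm_nonneg d1]
      have a2 : ‖((t : ℂ) * om i) ^ 2 • d2‖ ≤ M := by
        rw [norm_smul, norm_pow, norm_tom ht0]
        have : t ^ 2 ≤ 1 := pow_le_one₀ ht0 ht1
        nlinarith [norm_nonneg d2, sq_nonneg t]
      have a3 := norm_add₃_le (a := d0) (b := ((t : ℂ) * om i) • d1)
        (c := ((t : ℂ) * om i) ^ 2 • d2)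
      linarith
    have hle : ‖u i‖ ≤ ‖p‖ + C * t ^ 3 := by
      have := norm_le_norm_add_norm_sub' (u i) p
      linarith [hu i]
    have hsq : ‖u i‖ ^ 2 ≤ (‖p‖ + C * t ^ 3) ^ 2 := by gcongr
    have b1 : ‖p‖ * (C * t ^ 3) ≤ 3 * M * (C * t ^ 3) := by gcongr
    have b2 : (C * t ^ 3) ^ 2 ≤ C ^ 2 * t ^ 3 := by
      have : (C * t ^ 3) ^ 2 = C ^ 2 * t ^ 3 * t ^ 3 := by ring
      rw [this]
      exact mul_le_of_le_one_right (by positivity) ht31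
    nlinarith
  have := Finset.sum_le_sum (fun i (_ : i ∈ Finset.univ) => key i)
  rw [Finset.sum_add_distrib, avg_norm] at this
  simp only [Finset.sum_const, Finset.card_univ, Fintype.card_fin, nsmul_eq_mul] at this
  have b3 : t ^ 4 * ‖d2‖ ^ 2 ≤ M ^ 2 * t ^ 3 := by
    have c1 : ‖d2‖ ^ 2 ≤ M ^ 2 := by gcongr
    have c2 : t ^ 4 ≤ t ^ 3 := pow_le_pow_of_le_one ht0 ht1 (by norm_num)
    calc t ^ 4 * ‖d2‖ ^ 2 ≤ t ^ 3 * M ^ 2 := by gcongr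
      _ = _ := mul_comm _ _
  push_cast at this
  nlinarith

end

lemma taylor {V : Type*} [NormedAddCommGroup V] [NormedSpace ℂ V] [CompleteSpace V] {f : ℂ → V}
    (hf : AnalyticAt ℂ f 0) : ∃ (d2 : V) (C δ : ℝ), 0 ≤ C ∧ 0 < δ ∧ ∀ z : ℂ, ‖z‖ ≤ δ →
      ‖f z - (f 0 + z • deriv f 0 + z ^ 2 • d2)‖ ≤ C * ‖z‖ ^ 3 := by
  obtain ⟨F, hF, h⟩ := hf.exists_eventuallyEq_sum_add_pow_mul 3
  have hb : ∀ᶠ z in 𝓝 (0 : ℂ), ‖F z‖ < ‖F 0‖ + 1 :=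
    hF.continuousAt.norm.eventually_lt continuousAt_const (by simp)
  obtain ⟨δ, hδ, hh⟩ := Metric.eventually_nhds_iff.1 (h.and hb)
  refine ⟨(1 / 2 : ℂ) • iteratedDeriv 2 f 0, ‖F 0‖ + 1, δ / 2, by positivity, by positivity,
    fun z hz => ?_⟩
  obtain ⟨h1, h2⟩ := hh (y := z) (by rw [dist_zero_right]; linarith)
  have : f z - (f 0 + z • deriv f 0 + z ^ 2 • (1 / 2 : ℂ) • iteratedDeriv 2 f 0) = z ^ 3 • F z := by
    rw [h1]
    simp only [Finset.sum_range_succ, Finset.range_zero, Finset.sum_empty, iteratedDeriv_zero,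
      iteratedDeriv_one, Nat.factorial]
    match_scalars <;> simp <;> ring
  rw [this, norm_smul, norm_pow, mul_comm]
  gcongr

lemma small {δ : ℝ} (hδ : 0 < δ) : ∀ᶠ t : ℝ in 𝓝[>] 0, 0 < t ∧ t ≤ δ := by
  filter_upwards [Ioc_mem_nhdsGT hδ] with t ht using ht

lemma avg_re {f : ℂ → ℂ} (hf : AnalyticAt ℂ f 0) : ∃ C : ℝ, ∀ᶠ t : ℝ in 𝓝[>] 0,
    ∑ i, (f (t * om i)).re ≤ 4 * (f 0).re + C * t ^ 3 := by
  obtain ⟨d2, C, δ, -, hδ, h⟩ := taylor hf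
  refine ⟨4 * C, ?_⟩
  filter_upwards [small hδ] with t ⟨ht0, ht1⟩
  have key : ∀ i, (f (t * om i)).re ≤
      (f 0 + ((t : ℂ) * om i) • deriv f 0 + ((t : ℂ) * om i) ^ 2 • d2).re + C * t ^ 3 := by
    intro i
    have h1 := h (t * om i) (by rw [norm_tom ht0.le]; exact ht1)
    rw [norm_tom ht0.le] at h1
    have h2 := (Complex.re_le_norm _).trans h1
    rw [Complex.sub_re] at h2
    linarith
  have := Finset.sum_le_sum (fun i (_ : i ∈ Finset.univ) => key i)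
  rw [Finset.sum_add_distrib, ← Complex.re_sum Finset.univ
    (fun i => f 0 + ((t : ℂ) * om i) • deriv f 0 + ((t : ℂ) * om i) ^ 2 • d2)] at this
  have e : ∑ i, (f 0 + ((t : ℂ) * om i) • deriv f 0 + ((t : ℂ) * om i) ^ 2 • d2) = 4 * f 0 := by
    simp only [Finset.sum_add_distrib, smul_eq_mul, mul_pow, ← Finset.sum_mul, ← Finset.mul_sum,
      sum_om, sum_om_sq]
    simp
  rw [e] at this
  simp only [Finset.sum_const, Finset.card_univ, Fintype.card_fin, nsmul_eq_mul] at this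
  simp only [Complex.mul_re, Complex.re_ofNat, Complex.im_ofNat, zero_mul, sub_zero] at this
  push_cast at this
  linarith

lemma avg_sq {V : Type*} [NormedAddCommGroup V] [InnerProductSpace ℂ V] [CompleteSpace V]
    {f : ℂ → V} (hf : AnalyticAt ℂ f 0) : ∃ C : ℝ, ∀ᶠ t : ℝ in 𝓝[>] 0,
    ∑ i, ‖f (t * om i)‖ ^ 2 ≤ 4 * ‖f 0‖ ^ 2 + 4 * t ^ 2 * ‖deriv f 0‖ ^ 2 + C * t ^ 3 := by
  obtain ⟨d2, C, δ, hC, hδ, h⟩ := taylor hf
  refine ⟨4 * (‖f 0‖ + ‖deriv f 0‖ + ‖d2‖) ^ 2 +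
    4 * (6 * (‖f 0‖ + ‖deriv f 0‖ + ‖d2‖) * C + C ^ 2), ?_⟩
  · filter_upwards [small hδ, small one_pos] with t ⟨ht0, ht1⟩ ⟨_, ht2⟩
    refine avg_le (fun i => f (t * om i)) (f 0) (deriv f 0) d2 ht0.le ht2 hC
      (M := ‖f 0‖ + ‖deriv f 0‖ + ‖d2‖) ?_ ?_ ?_ fun i => ?_
    · linarith [norm_nonneg (deriv f 0), norm_nonneg d2]
    · linarith [norm_nonneg (f 0), norm_nonneg d2]
    · linarith [norm_nonneg (deriv f 0), norm_nonneg (f 0)]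
    · have h1 := h (t * om i) (by rw [norm_tom ht0.le]; exact ht1)
      rwa [norm_tom ht0.le] at h1

lemma rpow_le {y σ : ℝ} (hy0 : 0 ≤ y) (hy1 : y ≤ 1) (hσ : 0 ≤ σ) :
    (1 - y) ^ σ ≤ 1 - σ * y + (σ * y) ^ 2 := by
  have h1 : (1 - y) ^ σ ≤ Real.exp (-y) ^ σ :=
    Real.rpow_le_rpow (by linarith) (Real.one_sub_le_exp_neg y) hσ
  rw [← Real.exp_mul] at h1
  set u := σ * y with hu
  have hu0 : 0 ≤ u := by positivity
  have h2 : Real.exp (-y * σ) = (Real.exp u)⁻¹ := by rw [← Real.exp_neg]; congr 1; ring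
  have h3 : 1 + u ≤ Real.exp u := by linarith [Real.add_one_le_exp u]
  have h4 : (Real.exp u)⁻¹ ≤ (1 + u)⁻¹ := inv_anti₀ (by linarith) h3
  have h5 : (1 + u)⁻¹ ≤ 1 - u + u ^ 2 := by
    rw [inv_le_iff_one_le_mul₀ (by linarith)]
    nlinarith [pow_nonneg hu0 3]
  linarith

noncomputable def wf (σ : ℝ) (x : ℂ) : ℂ := (1 - x) ^ ((-σ : ℝ) : ℂ)

lemma wf_an (σ : ℝ) : AnalyticAt ℂ (wf σ) 0 := by
  unfold wf
  exact (analyticAt_const.sub analyticAt_id).cpow analyticAt_const (by simp)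

lemma wf_zero (σ : ℝ) : wf σ 0 = 1 := by simp [wf]

lemma wf_deriv (σ : ℝ) : deriv (wf σ) 0 = σ := by
  have h : HasDerivAt (fun x : ℂ => 1 - x) (-1) 0 := by
    simpa using (hasDerivAt_id (0 : ℂ)).const_sub 1
  have := h.cpow_const (c := ((-σ : ℝ) : ℂ)) (by simp)
  have e := this.deriv
  simp only [sub_zero, Complex.one_cpow] at e
  unfold wf
  rw [e]
  simp

lemma wf_norm (σ : ℝ) {x : ℂ} {y : ℝ} (hy : 0 ≤ y) :
    (y / ‖1 - x‖ ^ 2) ^ σ = y ^ σ * ‖wf σ x‖ ^ 2 := by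
  rw [wf, Complex.norm_cpow_real, Real.div_rpow hy (by positivity), Real.rpow_neg (norm_nonneg _),
    div_eq_mul_inv, inv_pow, ← Real.rpow_natCast, ← Real.rpow_natCast,
    ← Real.rpow_mul (norm_nonneg _), ← Real.rpow_mul (norm_nonneg _), mul_comm σ]

end Pool.Agent.H275Z.Ball
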