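import Pool.Agent.H275Z.BallAvg

/-!
The second order estimate for the terms of the Poincare series along a holomorphic curve.
-/

set_option autoImplicit false
set_option maxHeartbeats 400000

namespace Pool.Agent.H275Z.Ball

open Metric Set Filter Topology
open scoped InnerProductSpace ComplexConjugate

lemma real_lo {t K n : ℝ} (ht : 0 ≤ t) (hK : 0 ≤ K) (hn : 0 ≤ n) (h : t - K * t ^ 2 ≤ n) :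
    t ^ 2 - 2 * K * t ^ 3 ≤ n ^ 2 := by
  by_cases h5 : 0 ≤ t - K * t ^ 2
  · have : (t - K * t ^ 2) ^ 2 ≤ n ^ 2 := by gcongr
    nlinarith [sq_nonneg (K * t ^ 2)]
  · have h6 : t * (t - K * t ^ 2) ≤ 0 := mul_nonpos_of_nonneg_of_nonpos ht (by linarith)
    nlinarith [sq_nonneg n, mul_nonneg hK (pow_nonneg ht 3)]

lemma real_A {t K L n σ : ℝ} (ht : 0 ≤ t) (ht1 : t ≤ 1) (hL : 0 ≤ L) (hn : 0 ≤ n) (hσ : 0 ≤ σ)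
    (htL : L * t ≤ 1) (hup : n ≤ L * t) (hlo : t ^ 2 - 2 * K * t ^ 3 ≤ n ^ 2) :
    (1 - n ^ 2) ^ σ ≤ 1 - σ * t ^ 2 + (2 * σ * K + σ ^ 2 * L ^ 4) * t ^ 3 := by
  have hy : n ^ 2 ≤ (L * t) ^ 2 := by gcongr
  have hy1 : (L * t) ^ 2 ≤ 1 := pow_le_one₀ (by positivity) htL
  refine (rpow_le (by positivity) (hy.trans hy1) hσ).trans ?_
  have a1 : σ * (t ^ 2 - 2 * K * t ^ 3) ≤ σ * n ^ 2 := by gcongr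
  have a2 : (σ * n ^ 2) ^ 2 ≤ (σ * (L * t) ^ 2) ^ 2 := by gcongr
  have a3 : (σ * (L * t) ^ 2) ^ 2 ≤ σ ^ 2 * L ^ 4 * t ^ 3 := by
    have : (σ * (L * t) ^ 2) ^ 2 = σ ^ 2 * L ^ 4 * t ^ 3 * t := by ring
    rw [this]
    exact mul_le_of_le_one_right (by positivity) ht1
  linarith

lemma real_fin {t σ n C3 C4 : ℝ} (ht : 0 ≤ t) (ht1 : t ≤ 1) (hσ : 0 ≤ σ) (hn : 0 ≤ n) (hn1 : n ≤ 1)
    (h3 : 0 ≤ C3) (h4 : 0 ≤ C4) :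
    (1 - σ * t ^ 2 + C4 * t ^ 3) * (4 * 1 ^ 2 + 4 * t ^ 2 * (σ * n) ^ 2 + C3 * t ^ 3) ≤
      4 - 4 * σ * t ^ 2 + 4 * σ ^ 2 * t ^ 2 * n ^ 2 + (C3 + C4 * (4 + 4 * σ ^ 2 + C3)) * t ^ 3 := by
  have q1 : 4 * 1 ^ 2 + 4 * t ^ 2 * (σ * n) ^ 2 + C3 * t ^ 3 ≤ 4 + 4 * σ ^ 2 + C3 := by
    have u0 : t ^ 2 ≤ 1 := pow_le_one₀ ht ht1
    have u1 : t ^ 2 * (σ * n) ^ 2 ≤ 1 * (σ * 1) ^ 2 := by gcongr
    have u2 : C3 * t ^ 3 ≤ C3 := mul_le_of_le_one_right h3 (pow_le_one₀ ht ht1)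
    linarith
  have q2 : C4 * t ^ 3 * (4 * 1 ^ 2 + 4 * t ^ 2 * (σ * n) ^ 2 + C3 * t ^ 3) ≤
      C4 * t ^ 3 * (4 + 4 * σ ^ 2 + C3) := by gcongr
  have q3 : 0 ≤ σ * t ^ 2 * (4 * t ^ 2 * (σ * n) ^ 2 + C3 * t ^ 3) := by positivity
  linarith

lemma wf_est {σ t K L C0 C1 δ1 : ℝ} {β x ζ α b : ℂ} (hσ : 0 ≤ σ) (ht : 0 ≤ t) (hC1 : 0 ≤ C1)
    (hK : 0 ≤ K)
    (hW : ∀ z : ℂ, ‖z‖ ≤ δ1 → ‖wf σ z - (1 + z • (σ : ℂ) + z ^ 2 • β)‖ ≤ C1 * ‖z‖ ^ 3)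
    (hζ : ‖ζ‖ = t) (hα : ‖α‖ ≤ 1) (hx : ‖x‖ ≤ L * t) (hδ : L * t ≤ δ1)
    (r2 : ‖x - (ζ * α + ζ ^ 2 * b)‖ ≤ C0 * t ^ 3) (r3 : ‖x - ζ * α‖ ≤ K * t ^ 2) :
    ‖wf σ x - (1 + ζ • ((σ : ℂ) * α) + ζ ^ 2 • (σ * b + β * α ^ 2))‖ ≤
      (σ * C0 + ‖β‖ * (K * (L + 1)) + C1 * L ^ 3) * t ^ 3 := by
  have r1 := hW x (hx.trans hδ)
  have r4 : ‖x + ζ * α‖ ≤ (L + 1) * t := by
    refine (norm_add_le _ _).trans ?_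
    rw [norm_mul, hζ]
    have : t * ‖α‖ ≤ t := mul_le_of_le_one_right ht hα
    linarith
  have e : wf σ x - (1 + ζ • ((σ : ℂ) * α) + ζ ^ 2 • (σ * b + β * α ^ 2)) =
      (wf σ x - (1 + x • (σ : ℂ) + x ^ 2 • β)) + σ * (x - (ζ * α + ζ ^ 2 * b)) +
        β * ((x - ζ * α) * (x + ζ * α)) := by
    simp only [smul_eq_mul]; ring
  rw [e]
  refine (norm_add₃_le).trans ?_
  rw [norm_mul, norm_mul, norm_mul, Complex.norm_real, Real.norm_of_nonneg hσ]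
  have s1 : C1 * ‖x‖ ^ 3 ≤ C1 * (L * t) ^ 3 := by gcongr
  have s2 : σ * ‖x - (ζ * α + ζ ^ 2 * b)‖ ≤ σ * (C0 * t ^ 3) := by gcongr
  have s3 : ‖β‖ * (‖x - ζ * α‖ * ‖x + ζ * α‖) ≤ ‖β‖ * ((K * t ^ 2) * ((L + 1) * t)) := by
    gcongr
  linarith

variable {E : Type*} [NormedAddCommGroup E] [InnerProductSpace ℂ E]

lemma curve_aux {u v b : E} {ζ : ℂ} {t C0 : ℝ} (ht : 0 ≤ t) (ht1 : t ≤ 1) (hC0 : 0 ≤ C0)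
    (hζ : ‖ζ‖ = t) (hv : ‖v‖ = 1) (hρ : ‖u - (ζ • v + ζ ^ 2 • b)‖ ≤ C0 * t ^ 3) :
    ‖u - ζ • v‖ ≤ (‖b‖ + C0) * t ^ 2 ∧ ‖u‖ ≤ (1 + (‖b‖ + C0)) * t ∧
      t ^ 2 - 2 * (‖b‖ + C0) * t ^ 3 ≤ ‖u‖ ^ 2 := by
  have ht32 : t ^ 3 ≤ t ^ 2 := pow_le_pow_of_le_one ht ht1 (by norm_num)
  have ht21 : t ^ 2 ≤ t := by nlinarith
  have hd : ‖u - ζ • v‖ ≤ (‖b‖ + C0) * t ^ 2 := by
    have e : u - ζ • v = (u - (ζ • v + ζ ^ 2 • b)) + ζ ^ 2 • b := by abel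
    rw [e]
    refine (norm_add_le _ _).trans ?_
    rw [norm_smul, norm_pow, hζ]
    have : C0 * t ^ 3 ≤ C0 * t ^ 2 := by gcongr
    linarith
  have hnv : ‖ζ • v‖ = t := by rw [norm_smul, hζ, hv, mul_one]
  refine ⟨hd, ?_, ?_⟩
  · have h1 := norm_le_norm_add_norm_sub' u (ζ • v)
    have h2 : (‖b‖ + C0) * t ^ 2 ≤ (‖b‖ + C0) * t := by gcongr
    rw [hnv] at h1
    linarith
  · have h3 := norm_sub_norm_le (ζ • v) u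
    rw [hnv, norm_sub_rev] at h3
    exact real_lo ht (by positivity) (norm_nonneg _) (by linarith)

lemma curve_bound [CompleteSpace E] {c : ℂ → E} (hc : AnalyticAt ℂ c 0) (h0 : c 0 = 0)
    (h1 : ‖deriv c 0‖ = 1) {σ : ℝ} (hσ : 0 ≤ σ) :
    ∃ C : ℝ, ∀ᶠ t : ℝ in 𝓝[>] 0, ∀ a : E, ‖a‖ ≤ 1 →
      ∑ i, ((1 - ‖c (t * om i)‖ ^ 2) / ‖1 - ⟪a, c (t * om i)⟫_ℂ‖ ^ 2) ^ σ ≤
        4 - 4 * σ * t ^ 2 + 4 * σ ^ 2 * t ^ 2 * ‖⟪a, deriv c 0⟫_ℂ‖ ^ 2 + C * t ^ 3 := by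
  obtain ⟨b, C0, δ0, hC0, hδ0, hT⟩ := taylor hc
  obtain ⟨β, C1, δ1, hC1, hδ1, hW⟩ := taylor (wf_an σ)
  rw [h0] at hT
  rw [wf_zero, wf_deriv] at hW
  generalize deriv c 0 = v at *
  obtain ⟨K, hK⟩ : ∃ K, K = ‖b‖ + C0 := ⟨_, rfl⟩
  have hK0 : 0 ≤ K := by rw [hK]; positivity
  obtain ⟨L, hL⟩ : ∃ L, L = 1 + K := ⟨_, rfl⟩
  have hL1 : 0 < L := by linarith
  obtain ⟨C2, hC2⟩ : ∃ C2, C2 = σ * C0 + ‖β‖ * (K * (L + 1)) + C1 * L ^ 3 := ⟨_, rfl⟩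
  have hC20 : 0 ≤ C2 := by rw [hC2]; positivity
  obtain ⟨M, hM⟩ : ∃ M, M = 1 + σ + (σ * ‖b‖ + ‖β‖) := ⟨_, rfl⟩
  have hM' : 0 ≤ σ * ‖b‖ + ‖β‖ := by positivity
  have hM0 : 0 ≤ M := by linarith
  obtain ⟨C3, hC3⟩ : ∃ C3, C3 = 4 * M ^ 2 + 4 * (6 * M * C2 + C2 ^ 2) := ⟨_, rfl⟩
  have hC30 : 0 ≤ C3 := by rw [hC3]; positivity
  obtain ⟨C4, hC4⟩ : ∃ C4, C4 = 2 * σ * K + σ ^ 2 * L ^ 4 := ⟨_, rfl⟩
  have hC40 : 0 ≤ C4 := by rw [hC4]; positivity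
  refine ⟨C3 + C4 * (4 + 4 * σ ^ 2 + C3), ?_⟩
  filter_upwards [small hδ0, small (div_pos hδ1 hL1), small (div_pos one_pos hL1),
    small one_pos] with t ⟨ht0, ht1⟩ ⟨_, ht2⟩ ⟨_, ht3⟩ ⟨_, ht4⟩ a ha
  have htL : L * t ≤ 1 := by rwa [le_div_iff₀ hL1, mul_comm] at ht3
  have htδ : L * t ≤ δ1 := by rwa [le_div_iff₀ hL1, mul_comm] at ht2
  have hρ : ∀ i, ‖c (t * om i) - (((t : ℂ) * om i) • v + ((t : ℂ) * om i) ^ 2 • b)‖ ≤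
      C0 * t ^ 3 := by
    intro i
    have := hT (t * om i) (by rw [norm_tom ht0.le]; exact ht1)
    rwa [norm_tom ht0.le, zero_add] at this
  have haux := fun i => curve_aux ht0.le ht4 hC0 (norm_tom ht0.le i) h1 (hρ i)
  rw [← hK, ← hL] at haux
  have hA : ∀ i, (1 - ‖c (t * om i)‖ ^ 2) ^ σ ≤ 1 - σ * t ^ 2 + C4 * t ^ 3 := fun i => by
    rw [hC4]
    exact real_A ht0.le ht4 hL1.le (norm_nonneg _) hσ htL (haux i).2.1 (haux i).2.2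
  have hin : ∀ w : E, ‖⟪a, w⟫_ℂ‖ ≤ ‖w‖ := fun w =>
    (norm_inner_le_norm a w).trans (mul_le_of_le_one_left (norm_nonneg _) ha)
  have hα1 : ‖⟪a, v⟫_ℂ‖ ≤ 1 := h1 ▸ hin v
  have hS : ∑ i, ‖wf σ ⟪a, c (t * om i)⟫_ℂ‖ ^ 2 ≤
      4 * ‖(1 : ℂ)‖ ^ 2 + 4 * t ^ 2 * ‖(σ : ℂ) * ⟪a, v⟫_ℂ‖ ^ 2 + C3 * t ^ 3 := by
    rw [hC3]
    refine avg_le (fun i => wf σ ⟪a, c (t * om i)⟫_ℂ) 1 (σ * ⟪a, v⟫_ℂ)
      (σ * ⟪a, b⟫_ℂ + β * ⟪a, v⟫_ℂ ^ 2) ht0.le ht4 hC20 (M := M) ?_ ?_ ?_ fun i => ?_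
    · rw [norm_one]
      linarith
    · rw [norm_mul, Complex.norm_real, Real.norm_of_nonneg hσ]
      have := mul_le_of_le_one_right hσ hα1
      linarith
    · refine (norm_add_le _ _).trans ?_
      rw [norm_mul, norm_mul, norm_pow, Complex.norm_real, Real.norm_of_nonneg hσ]
      have b1 : σ * ‖⟪a, b⟫_ℂ‖ ≤ σ * ‖b‖ := mul_le_mul_of_nonneg_left (hin b) hσ
      have b2 : ‖β‖ * ‖⟪a, v⟫_ℂ‖ ^ 2 ≤ ‖β‖ :=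
        mul_le_of_le_one_right (norm_nonneg _) (pow_le_one₀ (norm_nonneg _) hα1)
      linarith
    · rw [hC2]
      refine wf_est hσ ht0.le hC1 hK0 hW (norm_tom ht0.le i) hα1 ((hin _).trans (haux i).2.1)
        htδ ?_ ?_
      · have := (hin _).trans (hρ i)
        rwa [inner_sub_right, inner_add_right, inner_smul_right, inner_smul_right] at this
      · have := (hin _).trans (haux i).1
        rwa [inner_sub_right, inner_smul_right] at this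
  rw [norm_one, norm_mul, Complex.norm_real, Real.norm_of_nonneg hσ] at hS
  have hy0 : ∀ i, 0 ≤ 1 - ‖c (t * om i)‖ ^ 2 := by
    intro i
    have : ‖c (t * om i)‖ ^ 2 ≤ 1 := pow_le_one₀ (norm_nonneg _) ((haux i).2.1.trans htL)
    linarith
  have hA0 : 0 ≤ 1 - σ * t ^ 2 + C4 * t ^ 3 := (Real.rpow_nonneg (hy0 0) σ).trans (hA 0)
  calc ∑ i, ((1 - ‖c (t * om i)‖ ^ 2) / ‖1 - ⟪a, c (t * om i)⟫_ℂ‖ ^ 2) ^ σ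
      ≤ ∑ i, (1 - σ * t ^ 2 + C4 * t ^ 3) * ‖wf σ ⟪a, c (t * om i)⟫_ℂ‖ ^ 2 := by
        refine Finset.sum_le_sum fun i _ => ?_
        rw [wf_norm σ (hy0 i)]
        exact mul_le_mul_of_nonneg_right (hA i) (by positivity)
    _ ≤ (1 - σ * t ^ 2 + C4 * t ^ 3) *
          (4 * 1 ^ 2 + 4 * t ^ 2 * (σ * ‖⟪a, v⟫_ℂ‖) ^ 2 + C3 * t ^ 3) := by
        rw [← Finset.mul_sum]
        exact mul_le_mul_of_nonneg_left hS hA0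
    _ ≤ _ := real_fin ht0.le ht4 hσ (norm_nonneg _) hα1 hC30 hC40

end Pool.Agent.H275Z.Ball
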