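import Pool.Agent.H275Z.BallAn

/-!
A minimum principle on the thick part of an analytic set.
-/

set_option autoImplicit false
set_option maxHeartbeats 400000

namespace Pool.Agent.H275Z.Ball

open Metric Set Filter Topology
open scoped InnerProductSpace ComplexConjugate

variable {E : Type*} [NormedAddCommGroup E] [InnerProductSpace ℂ E] [FiniteDimensional ℂ E]

/-- Points of `Z` through which `Z` contains a piece of complex submanifold of dimension `≥ k`. -/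
def Thick (Z : Set E) (k : ℕ) (q : E) : Prop :=
  ∃ (W : Submodule ℂ E) (ψ : E → E), k ≤ Module.finrank ℂ W ∧ AnalyticAt ℂ ψ 0 ∧ ψ 0 = q ∧
    Function.Injective (fderiv ℂ ψ 0) ∧ ∀ᶠ y in 𝓝 (0 : E), y ∈ W → ψ y ∈ Z

lemma Thick.mem {Z : Set E} {k : ℕ} {q : E} (h : Thick Z k q) : q ∈ Z := by
  obtain ⟨W, ψ, -, -, h0, -, h⟩ := h
  exact h0 ▸ h.self_of_nhds W.zero_mem

lemma thick_near {Z : Set E} {k : ℕ} {W : Submodule ℂ E} {ψ : E → E}
    (hW : k ≤ Module.finrank ℂ W) (hψ : AnalyticAt ℂ ψ 0)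
    (hi : Function.Injective (fderiv ℂ ψ 0)) (h : ∀ᶠ y in 𝓝 (0 : E), y ∈ W → ψ y ∈ Z) :
    ∀ᶠ y in 𝓝 (0 : E), y ∈ W → Thick Z k (ψ y) := by
  have : CompleteSpace E := FiniteDimensional.complete ℂ E
  have h1 : ∀ᶠ y in 𝓝 (0 : E), Function.Injective (fderiv ℂ ψ y) :=
    hψ.fderiv.continuousAt.eventually
      ((ContinuousLinearMap.isOpen_injective (𝕜 := ℂ) (E := E) (F := E)).mem_nhds hi)
  filter_upwards [h1, hψ.eventually_analyticAt, h.eventually_nhds] with y h2 h3 h4 hy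
  have ht : AnalyticAt ℂ (fun x : E => y + x) 0 := analyticAt_const.add analyticAt_id
  refine ⟨W, fun x => ψ (y + x), hW, h3.comp_of_eq ht (by simp), by simp, ?_, ?_⟩
  · rw [fderiv_comp_add_left]
    simpa using h2
  · have : Tendsto (fun x : E => y + x) (𝓝 0) (𝓝 y) := by simpa using ht.continuousAt.tendsto
    filter_upwards [this.eventually h4] with x hx hxW
    exact hx (W.add_mem hy hxW)

lemma rank_le {U A : Set E} {r k : ℕ} {g : Fin r → E → ℂ} {w : Fin r → E}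
    (hg : ∀ i, Van U A (g i)) {W : Submodule ℂ E} {ψ : E → E} (hW : k ≤ Module.finrank ℂ W)
    (hψ : AnalyticAt ℂ ψ 0) (hi : Function.Injective (fderiv ℂ ψ 0)) (hU : ψ 0 ∈ U)
    (h : ∀ᶠ y in 𝓝 (0 : E), y ∈ W → ψ y ∈ A) (hj : jac g w (ψ 0) ≠ 0) :
    r + k ≤ Module.finrank ℂ E := by
  have hs := surj_of_det (ℓ := fun i => fderiv ℂ (g i) (ψ 0)) hj
  rw [← ker_rank hs]
  refine Nat.add_le_add_left (hW.trans ?_) r
  rw [(Submodule.equivMapOfInjective (fderiv ℂ ψ 0 : E →ₗ[ℂ] E) hi W).finrank_eq]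
  refine Submodule.finrank_mono ?_
  rintro _ ⟨u, hu, rfl⟩
  change (ContinuousLinearMap.pi fun i => fderiv ℂ (g i) (ψ 0)) (fderiv ℂ ψ 0 u) = 0
  ext i
  have h1 : HasDerivAt (fun ζ : ℂ => ζ • u) u 0 := by
    simpa using (hasDerivAt_id (0 : ℂ)).smul_const u
  have h2 : HasFDerivAt (g i ∘ ψ) ((fderiv ℂ (g i) (ψ 0)).comp (fderiv ℂ ψ 0))
      ((fun ζ : ℂ => ζ • u) 0) := by
    simpa using ((hg i).1 _ hU).differentiableAt.hasFDerivAt.comp 0
      hψ.differentiableAt.hasFDerivAt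
  have h3 := (h2.comp_hasDerivAt 0 h1).deriv
  have ht : Tendsto (fun ζ : ℂ => ζ • u) (𝓝 0) (𝓝 0) := by
    simpa using h1.continuousAt.tendsto
  have h4 : ((g i ∘ ψ) ∘ fun ζ : ℂ => ζ • u) =ᶠ[𝓝 0] fun _ => 0 := by
    filter_upwards [ht.eventually h] with ζ hζ
    exact (hg i).2 _ (hζ (W.smul_mem _ hu))
  rw [h4.deriv_eq, deriv_const] at h3
  exact h3.symm

lemma exists_max (U A : Set E) {p : E} (hp : p ∈ A) :
    ∃ (r : ℕ) (g : Fin r → E → ℂ) (w : Fin r → E) (q : E), (∀ i, Van U A (g i)) ∧ q ∈ A ∧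
      jac g w q ≠ 0 ∧ ∀ f, Van U A f → ∀ v, ∀ z ∈ A,
        jac (Fin.cons f g : Fin (r + 1) → E → ℂ) (Fin.cons v w) z = 0 := by
  classical
  let P : ℕ → Prop := fun r => ∃ (g : Fin r → E → ℂ) (w : Fin r → E) (q : E),
    (∀ i, Van U A (g i)) ∧ q ∈ A ∧ jac g w q ≠ 0
  have h0 : P 0 := ⟨Fin.elim0, Fin.elim0, p, fun i => i.elim0, hp, by simp [jac]⟩
  have hb : ∀ r, P r → r ≤ Module.finrank ℂ E := by
    rintro r ⟨g, w, q, -, -, hj⟩
    rw [← ker_rank (surj_of_det (ℓ := fun i => fderiv ℂ (g i) q) hj)]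
    exact Nat.le_add_right _ _
  obtain ⟨g, w, q, hg, hq, hj⟩ := Nat.findGreatest_spec (P := P) (Nat.zero_le (Module.finrank ℂ E)) h0
  refine ⟨_, g, w, q, hg, hq, hj, fun f hf v z hz => ?_⟩
  by_contra hne
  have h1 : P (Nat.findGreatest P (Module.finrank ℂ E) + 1) :=
    ⟨Fin.cons f g, Fin.cons v w, z, fun i => Fin.cases hf (fun i => hg i) i, hz, hne⟩
  have := Nat.le_findGreatest (hb _ h1) h1
  omega

lemma exists_N {a M x y : ℝ} (ha : 0 < a) (hxy : x < y) :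
    ∃ N : ℝ, 0 < N ∧ M * Real.exp (-(N * y)) < a * Real.exp (-(N * x)) := by
  have hd : 0 < y - x := by linarith
  refine ⟨(|M| / a + 1) / (y - x), by positivity, ?_⟩
  generalize hN : (|M| / a + 1) / (y - x) = N
  have h1 : N * (y - x) = |M| / a + 1 := by rw [← hN]; field_simp
  have h2 : Real.exp (-(N * x)) = Real.exp (N * (y - x)) * Real.exp (-(N * y)) := by
    rw [← Real.exp_add]; congr 1; ring
  rw [h2, ← mul_assoc]
  refine mul_lt_mul_of_pos_right ?_ (Real.exp_pos _)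
  have h3 := Real.add_one_le_exp (N * (y - x))
  have h4 : a * (|M| / a + 1 + 1) ≤ a * Real.exp (N * (y - x)) := by
    rw [h1] at h3 ⊢
    gcongr
  have h5 : a * (|M| / a + 1 + 1) = |M| + 2 * a := by field_simp; ring
  linarith [le_abs_self M]

lemma log_ineq {a b x y N : ℝ} (ha : 0 < a) (hb : 0 < b) (hN : 0 < N)
    (h : b * Real.exp (-(N * y)) ≤ a * Real.exp (-(N * x))) :
    x ≤ y + -N⁻¹ * Real.log (b / a) := by
  have h1 := Real.log_le_log (by positivity) h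
  rw [Real.log_mul hb.ne' (Real.exp_pos _).ne', Real.log_mul ha.ne' (Real.exp_pos _).ne',
    Real.log_exp, Real.log_exp] at h1
  rw [Real.log_div hb.ne' ha.ne']
  have h2 : N⁻¹ * (Real.log b - Real.log a) ≤ N⁻¹ * (N * (y - x)) := by
    gcongr
    linarith
  rw [← mul_assoc, inv_mul_cancel₀ hN.ne'] at h2
  linarith

theorem no_thick_min {Z B : Set E} {k : ℕ} (hB : IsOpen B)
    (hZ : ∀ p ∈ B, ∃ U : Set E, IsOpen U ∧ p ∈ U ∧ ∃ N : ℕ, ∃ f : Fin N → E → ℂ,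
      (∀ i, AnalyticOnNhd ℂ (f i) U) ∧ Z ∩ U = {z | z ∈ U ∧ ∀ i, f i z = 0})
    {F : E → ℝ} (hF : ContinuousOn F B) {p : E} (hpB : p ∈ B) (hp : p ∈ closure {q | Thick Z k q})
    (hmin : ∀ y ∈ B, y ∈ closure {q | Thick Z k q} → F p ≤ F y) {η : ℝ} (hη : 0 < η)
    (hSH : ∀ q ∈ B, F p ≤ F q → ∀ (W : Submodule ℂ E) (ψ : E → E) (H : E → ℂ),
      k ≤ Module.finrank ℂ W → AnalyticAt ℂ ψ 0 → ψ 0 = q → Function.Injective (fderiv ℂ ψ 0) →
      AnalyticAt ℂ H 0 → H 0 = 0 → ¬ ∀ᶠ y in 𝓝 (0 : E), y ∈ W → F q + η * ‖q - p‖ ^ 2 ≤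
        F (ψ y) + η * ‖ψ y - p‖ ^ 2 + (H y).re) : False := by
  obtain ⟨U, hU, hpU, n, f, hf, hZU⟩ := hZ p hpB
  obtain ⟨ρ, hρ, hρU⟩ := Metric.nhds_basis_closedBall.mem_iff.1 ((hU.inter hB).mem_nhds ⟨hpU, hpB⟩)
  obtain ⟨G, hG⟩ : ∃ G : E → ℝ, G = fun z => F z + η * ‖z - p‖ ^ 2 := ⟨_, rfl⟩
  have hGc : ContinuousOn G B := by
    rw [hG]
    exact hF.add (by fun_prop)
  obtain ⟨O, hO⟩ : ∃ O : Set E, O = B ∩ G ⁻¹' Iio (F p + η * ρ ^ 2) := ⟨_, rfl⟩
  have hOo : IsOpen O := hO ▸ hGc.isOpen_inter_preimage hB isOpen_Iio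
  obtain ⟨A, hA⟩ : ∃ A : Set E, A = closure {q | Thick Z k q} ∩ O := ⟨_, rfl⟩
  have hAb : A ⊆ ball p ρ := by
    rw [hA, hO]
    rintro z ⟨h1, h2, h3⟩
    have h4 := hmin z h2 h1
    rw [hG, mem_preimage, mem_Iio] at h3
    have h5 : ‖z - p‖ ^ 2 < ρ ^ 2 := lt_of_mul_lt_mul_left (a := η) (by linarith) hη.le
    rw [mem_ball, dist_eq_norm]
    exact lt_of_pow_lt_pow_left₀ 2 hρ.le h5
  have hAU : A ⊆ U := fun z hz => (hρU (ball_subset_closedBall (hAb hz))).1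
  have hpA : p ∈ A := by
    rw [hA, hO, hG]
    refine ⟨hp, hpB, ?_⟩
    have : 0 < η * ρ ^ 2 := by positivity
    simpa using this
  have hfv : ∀ i, Van U A (f i) := by
    refine fun i => ⟨hf i, fun z hz => ?_⟩
    have hzU := hAU hz
    rw [hA] at hz
    have h1 : ∃ᶠ x in 𝓝 z, f i x = 0 := by
      refine ((mem_closure_iff_frequently.1 hz.1).and_eventually (hU.mem_nhds hzU)).mono ?_
      rintro x ⟨h1, h2⟩
      have : x ∈ Z ∩ U := ⟨Thick.mem h1, h2⟩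
      rw [hZU] at this
      exact this.2 i
    by_contra hne
    exact h1 (((hf i z hzU).continuousAt.eventually_ne hne))
  obtain ⟨r, g, w, q0, hg, hq0, hj0, hmax⟩ := exists_max U A hpA
  have hja : AnalyticOnNhd ℂ (jac g w) U := fun z hz => analyticAt_jac w fun i => (hg i).1 z hz
  have hK : IsCompact (closure {q | Thick Z k q} ∩ closedBall p ρ) :=
    haveI := FiniteDimensional.proper ℂ E
    (isCompact_closedBall p ρ).inter_left isClosed_closure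
  have hKU : closure {q | Thick Z k q} ∩ closedBall p ρ ⊆ U ∩ B := fun z hz => hρU hz.2
  have hjc : ContinuousOn (fun z => ‖jac g w z‖) (closure {q | Thick Z k q} ∩ closedBall p ρ) :=
    (hja.continuousOn.mono fun z hz => (hKU hz).1).norm
  have hq0K : q0 ∈ closure {q | Thick Z k q} ∩ closedBall p ρ :=
    ⟨(hA ▸ hq0).1, ball_subset_closedBall (hAb hq0)⟩
  obtain ⟨M, hM⟩ := hK.bddAbove_image hjc
  have hq0G : G q0 < F p + η * ρ ^ 2 := by
    rw [hA, hO] at hq0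
    exact hq0.2.2
  obtain ⟨N, hN, hN'⟩ := exists_N (M := M) (norm_pos_iff.2 hj0) hq0G
  obtain ⟨q, hqK, hqmax⟩ := hK.exists_isMaxOn (f := fun z => ‖jac g w z‖ * Real.exp (-(N * G z)))
    ⟨q0, hq0K⟩ (hjc.mul (((hGc.mono fun z hz => (hKU hz).2).const_mul N).neg.rexp))
  have h1 : M * Real.exp (-(N * (F p + η * ρ ^ 2))) < ‖jac g w q‖ * Real.exp (-(N * G q)) :=
    hN'.trans_le (hqmax hq0K)
  have hqM : ‖jac g w q‖ ≤ M := hM ⟨q, hqK, rfl⟩
  have hM0 : 0 ≤ M := (norm_nonneg _).trans hqM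
  have hjq : jac g w q ≠ 0 := by
    intro h
    rw [h, norm_zero, zero_mul] at h1
    have : 0 ≤ M * Real.exp (-(N * (F p + η * ρ ^ 2))) := by positivity
    linarith
  have hqO : q ∈ O := by
    rw [hO]
    refine ⟨(hKU hqK).2, ?_⟩
    by_contra hge
    rw [mem_preimage, mem_Iio, not_lt] at hge
    have : ‖jac g w q‖ * Real.exp (-(N * G q)) ≤ M * Real.exp (-(N * (F p + η * ρ ^ 2))) := by
      gcongr
    linarith
  have hqA : q ∈ A := hA ▸ ⟨hqK.1, hqO⟩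
  have hqU := hAU hqA
  have hrk : r + k ≤ Module.finrank ℂ E := by
    obtain ⟨t, ⟨W, ψ, hW, hψ, hψ0, hi, hev⟩, htO, htU, htj⟩ :=
      ((mem_closure_iff_frequently.1 hqK.1).and_eventually
        (Eventually.and (hOo.mem_nhds hqO) (Eventually.and (hU.mem_nhds hqU)
          ((hja q hqU).continuousAt.eventually_ne hjq)))).exists
    subst hψ0
    refine rank_le hg hW hψ hi htU ?_ htj
    filter_upwards [thick_near hW hψ hi hev, hψ.continuousAt.eventually (hOo.mem_nhds htO)]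
      with y h1 h2 hy
    exact hA ▸ ⟨subset_closure (h1 hy), h2⟩
  obtain ⟨W, ψ, hW, hψ, hψ0, hi, hvan⟩ := regular hU hAU hqA hg hjq hmax
  have hW' : k ≤ Module.finrank ℂ W := by omega
  have hψU : ∀ᶠ y in 𝓝 (0 : E), ψ y ∈ U :=
    hψ.continuousAt.eventually (by rw [hψ0]; exact hU.mem_nhds hqU)
  have hψZ : ∀ᶠ y in 𝓝 (0 : E), y ∈ W → ψ y ∈ Z := by
    filter_upwards [hψU, eventually_all.2 fun i => hvan (f i) (hfv i)] with y h1 h2 hy
    have : ψ y ∈ Z ∩ U := by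
      rw [hZU]
      exact ⟨h1, fun i => h2 i hy⟩
    exact this.1
  have hjψ : AnalyticAt ℂ (fun y => jac g w (ψ y) / jac g w q) 0 :=
    ((hja q hqU).comp_of_eq hψ hψ0).div_const
  refine hSH q (hKU hqK).2 (hmin q (hKU hqK).2 hqK.1) W ψ
    (fun y => ((-N⁻¹ : ℝ) : ℂ) * Complex.log (jac g w (ψ y) / jac g w q)) hW' hψ hψ0 hi
    (analyticAt_const.mul (hjψ.clog (by simp [hψ0, hjq]))) (by simp [hψ0, hjq]) ?_
  have hψb : ∀ᶠ y in 𝓝 (0 : E), ψ y ∈ ball p ρ :=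
    hψ.continuousAt.eventually (by rw [hψ0]; exact isOpen_ball.mem_nhds (hAb hqA))
  have hψj : ∀ᶠ y in 𝓝 (0 : E), jac g w (ψ y) ≠ 0 :=
    ((hja q hqU).comp_of_eq hψ hψ0).continuousAt.eventually_ne (by simpa [hψ0] using hjq)
  filter_upwards [thick_near hW' hψ hi hψZ, hψb, hψj] with y h2 h3 h4 hy
  have h5 : ‖jac g w (ψ y)‖ * Real.exp (-(N * G (ψ y))) ≤ ‖jac g w q‖ * Real.exp (-(N * G q)) :=
    hqmax (a := ψ y) ⟨subset_closure (h2 hy), ball_subset_closedBall h3⟩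
  have h6 := log_ineq (norm_pos_iff.2 hjq) (norm_pos_iff.2 h4) hN h5
  rw [Complex.re_ofReal_mul, Complex.log_re, norm_div]
  rw [hG] at h6
  exact h6

end Pool.Agent.H275Z.Ball
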