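import Mathlib

/-!
Involutive automorphisms of the unit ball of a complex inner product space, and the norm identity for
arbitrary holomorphic automorphisms of the ball.
-/

set_option autoImplicit false

namespace Pool.Agent.H275Z.Ball

open Metric Set
open scoped InnerProductSpace ComplexConjugate

variable {E : Type*} [NormedAddCommGroup E] [InnerProductSpace ℂ E]

noncomputable def sq1 (a : E) : ℝ := Real.sqrt (1 - ‖a‖ ^ 2)

noncomputable def num (a z : E) : E :=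
  (1 - ⟪a, z⟫_ℂ / (1 + (sq1 a : ℂ))) • a - (sq1 a : ℂ) • z

/-- The involution of the ball that exchanges `0` and `a`. -/
noncomputable def mob (a z : E) : E := (1 - ⟪a, z⟫_ℂ)⁻¹ • num a z

lemma sq1_sq {a : E} (ha : ‖a‖ < 1) : sq1 a ^ 2 = 1 - ‖a‖ ^ 2 :=
  Real.sq_sqrt (by nlinarith [norm_nonneg a])

lemma sq1_pos {a : E} (ha : ‖a‖ < 1) : 0 < sq1 a :=
  Real.sqrt_pos.2 (by nlinarith [norm_nonneg a])

lemma norm_inner_lt {a z : E} (ha : ‖a‖ ≤ 1) (hz : ‖z‖ < 1) : ‖⟪a, z⟫_ℂ‖ < 1 := by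
  have := norm_inner_le_norm (𝕜 := ℂ) a z
  nlinarith [norm_nonneg a, norm_nonneg z]

lemma den_ne {a z : E} (ha : ‖a‖ ≤ 1) (hz : ‖z‖ < 1) : 1 - ⟪a, z⟫_ℂ ≠ 0 := by
  intro h
  have h1 := norm_inner_lt ha hz
  rw [sub_eq_zero] at h
  rw [← h] at h1
  simp at h1

lemma one_add_ne {a : E} (ha : ‖a‖ < 1) : (1 + (sq1 a : ℂ)) ≠ 0 := by
  have := sq1_pos ha
  exact_mod_cast (by linarith : (1 + sq1 a : ℝ) ≠ 0)

lemma inner_self_eq {a : E} (ha : ‖a‖ < 1) : ⟪a, a⟫_ℂ = 1 - (sq1 a : ℂ) ^ 2 := by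
  rw [inner_self_eq_norm_sq_to_K]
  have := sq1_sq ha
  have h2 : ((sq1 a ^ 2 : ℝ) : ℂ) = ((1 - ‖a‖ ^ 2 : ℝ) : ℂ) := by rw [this]
  push_cast at h2
  rw [h2]
  simp

lemma inner_num {a : E} (ha : ‖a‖ < 1) (z : E) :
    ⟪a, num a z⟫_ℂ = 1 - (sq1 a : ℂ) ^ 2 - ⟪a, z⟫_ℂ := by
  have h := one_add_ne ha
  simp only [num, inner_sub_right, inner_smul_right, inner_self_eq ha]
  field_simp
  ring

lemma norm_num {a : E} (ha : ‖a‖ < 1) (z : E) :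
    ‖num a z‖ ^ 2 = ‖1 - ⟪a, z⟫_ℂ‖ ^ 2 - (1 - ‖a‖ ^ 2) * (1 - ‖z‖ ^ 2) := by
  have h := one_add_ne ha
  have e : ((‖num a z‖ ^ 2 : ℝ) : ℂ) =
      ((‖1 - ⟪a, z⟫_ℂ‖ ^ 2 - sq1 a ^ 2 * (1 - ‖z‖ ^ 2) : ℝ) : ℂ) := by
    have e1 : ((‖num a z‖ ^ 2 : ℝ) : ℂ) = ⟪num a z, num a z⟫_ℂ := by
      rw [inner_self_eq_norm_sq_to_K]; simp
    have e2 : ((‖z‖ ^ 2 : ℝ) : ℂ) = ⟪z, z⟫_ℂ := by
      rw [inner_self_eq_norm_sq_to_K]; simp
    have e3 : ((‖1 - ⟪a, z⟫_ℂ‖ ^ 2 : ℝ) : ℂ) = (1 - ⟪a, z⟫_ℂ) * (1 - conj ⟪a, z⟫_ℂ) := by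
      rw [← Complex.normSq_eq_norm_sq, ← Complex.mul_conj]; simp
    rw [e1, Complex.ofReal_sub, Complex.ofReal_mul, Complex.ofReal_sub, e2, e3]
    simp only [num, inner_sub_right, inner_smul_right, inner_sub_left, inner_smul_left,
      inner_self_eq ha, map_sub, map_one, map_div₀, map_add, Complex.conj_ofReal,
      ← inner_conj_symm z a]
    push_cast
    field_simp
    ring
  rw [← sq1_sq ha]
  exact_mod_cast e

lemma one_sub_norm_mob {a z : E} (ha : ‖a‖ < 1) (hz : ‖z‖ < 1) :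
    1 - ‖mob a z‖ ^ 2 = (1 - ‖a‖ ^ 2) * (1 - ‖z‖ ^ 2) / ‖1 - ⟪a, z⟫_ℂ‖ ^ 2 := by
  have h : ‖1 - ⟪a, z⟫_ℂ‖ ≠ 0 := norm_ne_zero_iff.2 (den_ne ha.le hz)
  rw [mob, norm_smul, norm_inv, mul_pow, norm_num ha]
  field_simp
  ring

lemma norm_mob_lt {a z : E} (ha : ‖a‖ < 1) (hz : ‖z‖ < 1) : ‖mob a z‖ < 1 := by
  have h : 0 < ‖1 - ⟪a, z⟫_ℂ‖ := norm_pos_iff.2 (den_ne ha.le hz)
  have h1 : 0 < 1 - ‖mob a z‖ ^ 2 := by
    rw [one_sub_norm_mob ha hz]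
    have : 0 < 1 - ‖a‖ ^ 2 := by nlinarith [norm_nonneg a]
    have : 0 < 1 - ‖z‖ ^ 2 := by nlinarith [norm_nonneg z]
    positivity
  nlinarith [norm_nonneg (mob a z)]

lemma mob_zero (a : E) : mob a 0 = a := by simp [mob, num]

lemma mob_mob {a z : E} (ha : ‖a‖ < 1) (hz : ‖z‖ < 1) : mob a (mob a z) = z := by
  have h := one_add_ne ha
  have hd := den_ne ha.le hz
  have hs : (sq1 a : ℂ) ≠ 0 := by exact_mod_cast (sq1_pos ha).ne'
  have e1 : ⟪a, mob a z⟫_ℂ = (1 - ⟪a, z⟫_ℂ)⁻¹ * (1 - (sq1 a : ℂ) ^ 2 - ⟪a, z⟫_ℂ) := by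
    rw [mob, inner_smul_right, inner_num ha]
  have e2 : 1 - ⟪a, mob a z⟫_ℂ = (1 - ⟪a, z⟫_ℂ)⁻¹ * (sq1 a : ℂ) ^ 2 := by
    rw [e1]; field_simp; ring
  rw [mob, e2, num, e1, mob, num]
  match_scalars
  · field_simp
    ring
  · field_simp

lemma mob_self {a : E} (ha : ‖a‖ < 1) : mob a a = 0 := by
  have := mob_mob (z := 0) ha (by simp)
  rwa [mob_zero] at this

lemma analyticAt_mob {a z : E} (ha : ‖a‖ < 1) (hz : ‖z‖ < 1) : AnalyticAt ℂ (mob a) z := by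
  have h1 : AnalyticAt ℂ (fun w : E => ⟪a, w⟫_ℂ) z := (innerSL ℂ a).analyticAt z
  unfold mob num
  refine ((analyticAt_const.sub h1).inv (den_ne ha.le hz)).smul ?_
  exact ((analyticAt_const.sub (h1.div_const)).smul analyticAt_const).sub
    (analyticAt_const.smul analyticAt_id)

/-- Holomorphic automorphisms of the unit ball. -/
structure Aut (g : E → E) : Prop where
  maps : MapsTo g (ball 0 1) (ball 0 1)
  an : AnalyticOnNhd ℂ g (ball 0 1)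
  inv : ∃ h : E → E, MapsTo h (ball 0 1) (ball 0 1) ∧ AnalyticOnNhd ℂ h (ball 0 1) ∧
    (∀ z ∈ ball (0 : E) 1, h (g z) = z) ∧ ∀ z ∈ ball (0 : E) 1, g (h z) = z

lemma mob_maps {a : E} (ha : ‖a‖ < 1) : MapsTo (mob a) (ball 0 1) (ball 0 1) := fun _ hz =>
  mem_ball_zero_iff.2 (norm_mob_lt ha (mem_ball_zero_iff.1 hz))

lemma mob_an {a : E} (ha : ‖a‖ < 1) : AnalyticOnNhd ℂ (mob a) (ball 0 1) := fun _ hz =>
  analyticAt_mob ha (mem_ball_zero_iff.1 hz)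

lemma aut_mob {a : E} (ha : ‖a‖ < 1) : Aut (mob a) :=
  ⟨mob_maps ha, mob_an ha, mob a, mob_maps ha, mob_an ha,
    fun _ hz => mob_mob ha (mem_ball_zero_iff.1 hz), fun _ hz => mob_mob ha (mem_ball_zero_iff.1 hz)⟩

lemma Aut.comp {g g' : E → E} (hg : Aut g) (hg' : Aut g') : Aut (g ∘ g') := by
  obtain ⟨h, h1, h2, h3, h4⟩ := hg.inv
  obtain ⟨h', h1', h2', h3', h4'⟩ := hg'.inv
  refine ⟨hg.maps.comp hg'.maps, hg.an.comp hg'.an hg'.maps, h' ∘ h, h1'.comp h1,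
    h2'.comp h2 h1, fun z hz => ?_, fun z hz => ?_⟩
  · simp only [Function.comp_apply]
    rw [h3 _ (hg'.maps hz), h3' _ hz]
  · simp only [Function.comp_apply]
    rw [h4' _ (h1 hz), h4 _ hz]

lemma Aut.norm_of_zero {g : E → E} (hg : Aut g) (h0 : g 0 = 0) {z : E} (hz : ‖z‖ < 1) :
    ‖g z‖ = ‖z‖ := by
  obtain ⟨h, h1, h2, h3, -⟩ := hg.inv
  have hz' : z ∈ ball (0 : E) 1 := mem_ball_zero_iff.2 hz
  apply le_antisymm
  · exact Complex.norm_le_norm_of_mapsTo_ball hg.an.differentiableOn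
      (hg.maps.mono_right ball_subset_closedBall) h0 hz
  · have hh0 : h 0 = 0 := by
      have := h3 0 (by simp)
      rwa [h0] at this
    have := Complex.norm_le_norm_of_mapsTo_ball h2.differentiableOn
      (h1.mono_right ball_subset_closedBall) hh0 (mem_ball_zero_iff.1 (hg.maps hz'))
    rwa [h3 z hz'] at this

lemma Aut.norm_formula {g : E → E} (hg : Aut g) : ∃ a : E, ‖a‖ < 1 ∧ ∀ z : E, ‖z‖ < 1 →
    1 - ‖g z‖ ^ 2 = (1 - ‖g 0‖ ^ 2) * (1 - ‖z‖ ^ 2) / ‖1 - ⟪a, z⟫_ℂ‖ ^ 2 := by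
  obtain ⟨h, h1, -, -, h4⟩ := hg.inv
  have ha : ‖h 0‖ < 1 := mem_ball_zero_iff.1 (h1 (by simp))
  have hc := hg.comp (aut_mob ha)
  have h0 : (g ∘ mob (h 0)) 0 = 0 := by
    simp only [Function.comp_apply, mob_zero]
    exact h4 0 (by simp)
  have key : ∀ z : E, ‖z‖ < 1 → ‖g z‖ = ‖mob (h 0) z‖ := by
    intro z hz
    have := hc.norm_of_zero h0 (norm_mob_lt ha hz)
    simp only [Function.comp_apply, mob_mob ha hz] at this
    exact this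
  refine ⟨h 0, ha, fun z hz => ?_⟩
  rw [key z hz, key 0 (by simp), mob_zero, one_sub_norm_mob ha hz]

lemma Aut.fderiv_injective {g : E → E} (hg : Aut g) {z : E} (hz : z ∈ ball (0 : E) 1) :
    Function.Injective (fderiv ℂ g z) := by
  obtain ⟨h, -, h2, h3, -⟩ := hg.inv
  have e : (h ∘ g) =ᶠ[nhds z] id := by
    filter_upwards [isOpen_ball.mem_nhds hz] with w hw using h3 w hw
  have e2 := e.fderiv_eq (𝕜 := ℂ)
  rw [fderiv_comp z (h2 _ (hg.maps hz)).differentiableAt (hg.an z hz).differentiableAt,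
    fderiv_id] at e2
  intro u v huv
  have hu := DFunLike.congr_fun e2 u
  have hv := DFunLike.congr_fun e2 v
  simp only [ContinuousLinearMap.comp_apply, ContinuousLinearMap.id_apply] at hu hv
  rw [← hu, ← hv, huv]

lemma norm_fderiv_mob {a : E} (ha : ‖a‖ < 1) : ‖fderiv ℂ (mob a) 0‖ ≤ 2 := by
  have := Complex.norm_fderiv_le_div_of_mapsTo_ball (f := mob a) (c := 0) (R₁ := 1) (R₂ := 2)
    (mob_an ha).differentiableOn (fun z hz => by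
      rw [mob_zero, mem_closedBall, dist_eq_norm]
      have h1 := norm_mob_lt ha (mem_ball_zero_iff.1 hz)
      have h2 := norm_sub_le (mob a z) a
      linarith) one_pos
  simpa using this

end Pool.Agent.H275Z.Ball
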