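import Pool.Agent.H275Z.BallCurve

/-!
Strict superharmonicity of the Poincare series along complex submanifolds of large dimension.
-/

set_option autoImplicit false
set_option maxHeartbeats 400000

namespace Pool.Agent.H275Z.Ball

open Metric Set Filter Topology
open scoped InnerProductSpace ComplexConjugate

variable {E : Type*} [NormedAddCommGroup E] [InnerProductSpace ℂ E]

/-- The Poincare series of a family of maps. -/
noncomputable def pser {ι : Type*} (g : ι → E → E) (σ : ℝ) (z : E) : ℝ :=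
  ∑' i, (1 - ‖g i z‖ ^ 2) ^ σ

lemma tends_tom (l : Fin 4) : Tendsto (fun t : ℝ => (t : ℂ) * om l) (𝓝[>] 0) (𝓝 0) := by
  have : Continuous (fun t : ℝ => (t : ℂ) * om l) := by fun_prop
  have h := this.tendsto 0
  simp only [Complex.ofReal_zero, zero_mul] at h
  exact h.mono_left nhdsWithin_le_nhds

lemma real_contra {a C : ℝ} (ha : 0 < a) :
    ¬ ∀ᶠ t : ℝ in 𝓝[>] 0, a * t ^ 2 ≤ C * t ^ 3 := by
  intro h
  have hC : 0 < |C| + 1 := by positivity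
  obtain ⟨t, h1, ht0, ht1⟩ := (h.and (small (div_pos ha hC))).exists
  rw [le_div_iff₀ hC] at ht1
  have h2 : C * t ^ 3 ≤ |C| * t ^ 3 := by gcongr; exact le_abs_self C
  have h3 : 0 < t ^ 2 := by positivity
  have h4 : t * (|C| + 1) * t ^ 2 ≤ a * t ^ 2 := by gcongr
  have h5 : 0 < t ^ 3 := by positivity
  nlinarith

lemma one_sub_nonneg {z : E} (hz : z ∈ ball (0 : E) 1) : 0 ≤ 1 - ‖z‖ ^ 2 := by
  have h := mem_ball_zero_iff.1 hz
  nlinarith [norm_nonneg z]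

lemma pser_curves [CompleteSpace E] {ι : Type*} {g : ι → E → E} (hg : ∀ i, Aut (g i)) {σ : ℝ}
    (hσ : 0 ≤ σ) (hs : ∀ z ∈ ball (0 : E) 1, Summable fun i => (1 - ‖g i z‖ ^ 2) ^ σ)
    {q : E} (hq : ‖q‖ < 1) {k : ℕ} {c : Fin k → ℂ → E} (hc : ∀ j, AnalyticAt ℂ (c j) 0)
    (h0 : ∀ j, c j 0 = 0) (ho : Orthonormal ℂ fun j => deriv (c j) 0) :
    ∃ C : ℝ, ∀ᶠ t : ℝ in 𝓝[>] 0, ∑ j, ∑ l, pser g σ (mob q (c j (t * om l))) ≤
      pser g σ q * (4 * k - 4 * σ * (k - σ) * t ^ 2 + C * t ^ 3) := by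
  choose C hC using fun j => curve_bound (hc j) (h0 j) (ho.1 j) hσ
  choose a ha ha' using fun i => ((hg i).comp (aut_mob hq)).norm_formula
  have hb : ∀ j l, ∀ᶠ t : ℝ in 𝓝[>] 0, ‖c j (t * om l)‖ < 1 := by
    intro j l
    have h1 : ∀ᶠ ζ in 𝓝 (0 : ℂ), ‖c j ζ‖ < 1 :=
      (hc j).continuousAt.norm.eventually_lt continuousAt_const (by simp [h0 j])
    exact (tends_tom l).eventually h1
  refine ⟨∑ j, C j, ?_⟩
  filter_upwards [eventually_all.2 hC, eventually_all.2 fun j => eventually_all.2 (hb j)]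
    with t h1 h2
  have hq' : q ∈ ball (0 : E) 1 := mem_ball_zero_iff.2 hq
  have hm : ∀ j l, mob q (c j (t * om l)) ∈ ball (0 : E) 1 := fun j l =>
    mem_ball_zero_iff.2 (norm_mob_lt hq (h2 j l))
  have key : ∀ i, ∑ j, ∑ l, (1 - ‖g i (mob q (c j (t * om l)))‖ ^ 2) ^ σ ≤
      (1 - ‖g i q‖ ^ 2) ^ σ * (4 * k - 4 * σ * (k - σ) * t ^ 2 + (∑ j, C j) * t ^ 3) := by
    intro i
    have hn := one_sub_nonneg ((hg i).maps hq')
    have e : ∀ j l, (1 - ‖g i (mob q (c j (t * om l)))‖ ^ 2) ^ σ = (1 - ‖g i q‖ ^ 2) ^ σ *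
        ((1 - ‖c j (t * om l)‖ ^ 2) / ‖1 - ⟪a i, c j (t * om l)⟫_ℂ‖ ^ 2) ^ σ := by
      intro j l
      have := ha' i _ (h2 j l)
      simp only [Function.comp_apply, mob_zero] at this
      rw [this, mul_div_assoc, Real.mul_rpow hn]
      exact div_nonneg (one_sub_nonneg (mem_ball_zero_iff.2 (h2 j l))) (by positivity)
    simp only [e, ← Finset.mul_sum]
    refine mul_le_mul_of_nonneg_left ?_ (Real.rpow_nonneg hn σ)
    refine (Finset.sum_le_sum fun j _ => h1 j (a i) (ha i).le).trans ?_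
    have hB := ho.sum_inner_products_le (a i) (s := Finset.univ)
    have hB2 : ∑ j, ‖⟪a i, deriv (c j) 0⟫_ℂ‖ ^ 2 ≤ 1 := by
      simp only [norm_inner_symm (a i)]
      refine hB.trans ?_
      exact pow_le_one₀ (norm_nonneg _) (ha i).le
    simp only [Finset.sum_add_distrib, Finset.sum_sub_distrib, ← Finset.mul_sum, ← Finset.sum_mul,
      Finset.sum_const, Finset.card_univ, Fintype.card_fin, nsmul_eq_mul]
    have : 4 * σ ^ 2 * t ^ 2 * ∑ j, ‖⟪a i, deriv (c j) 0⟫_ℂ‖ ^ 2 ≤ 4 * σ ^ 2 * t ^ 2 * 1 := by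
      gcongr
    linarith
  unfold pser
  rw [← tsum_mul_right]
  have hs1 : ∀ j, Summable fun i => ∑ l, (1 - ‖g i (mob q (c j (t * om l)))‖ ^ 2) ^ σ :=
    fun j => summable_sum fun l _ => hs _ (hm j l)
  calc ∑ j, ∑ l, ∑' i, (1 - ‖g i (mob q (c j (t * om l)))‖ ^ 2) ^ σ
      = ∑ j, ∑' i, ∑ l, (1 - ‖g i (mob q (c j (t * om l)))‖ ^ 2) ^ σ := by
        refine Finset.sum_congr rfl fun j _ => ?_
        rw [Summable.tsum_finsetSum fun l _ => hs _ (hm j l)]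
    _ = ∑' i, ∑ j, ∑ l, (1 - ‖g i (mob q (c j (t * om l)))‖ ^ 2) ^ σ := by
        rw [Summable.tsum_finsetSum fun j _ => hs1 j]
    _ ≤ _ := Summable.tsum_le_tsum key (summable_sum fun j _ => hs1 j) ((hs q hq').mul_right _)

lemma no_min_curves [CompleteSpace E] {ι : Type*} {g : ι → E → E} (hg : ∀ i, Aut (g i)) {σ : ℝ}
    (hσ : 0 ≤ σ) (hs : ∀ z ∈ ball (0 : E) 1, Summable fun i => (1 - ‖g i z‖ ^ 2) ^ σ)
    {q p : E} (hq : ‖q‖ < 1) {k : ℕ} {c : Fin k → ℂ → E} (hc : ∀ j, AnalyticAt ℂ (c j) 0)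
    (h0 : ∀ j, c j 0 = 0) (ho : Orthonormal ℂ fun j => deriv (c j) 0) {η : ℝ} (hη : 0 ≤ η)
    (hη' : 4 * k * η < σ * (k - σ) * pser g σ q) {H : Fin k → ℂ → ℂ}
    (hH : ∀ j, AnalyticAt ℂ (H j) 0) (hH0 : ∀ j, H j 0 = 0) :
    ¬ ∀ j, ∀ᶠ ζ in 𝓝 (0 : ℂ), pser g σ q + η * ‖q - p‖ ^ 2 ≤
      pser g σ (mob q (c j ζ)) + η * ‖mob q (c j ζ) - p‖ ^ 2 + (H j ζ).re := by
  intro hmin
  obtain ⟨C, hC⟩ := pser_curves hg hσ hs hq hc h0 ho
  have hm0 : AnalyticAt ℂ (mob q) 0 := analyticAt_mob hq (by simp)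
  have hd : ∀ j, AnalyticAt ℂ (fun ζ => mob q (c j ζ) - p) 0 := fun j =>
    (hm0.comp_of_eq (hc j) (h0 j)).sub analyticAt_const
  have hd1 : ∀ j, ‖deriv (fun ζ => mob q (c j ζ) - p) 0‖ ≤ 2 := by
    intro j
    have h1 : HasFDerivAt (mob q) (fderiv ℂ (mob q) 0) (c j 0) := by
      rw [h0 j]; exact hm0.differentiableAt.hasFDerivAt
    have h2 := (h1.comp_hasDerivAt 0 (hc j).differentiableAt.hasDerivAt).sub_const p
    have h3 := h2.deriv
    simp only [Function.comp_def] at h3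
    rw [h3]
    refine (ContinuousLinearMap.le_opNorm _ _).trans ?_
    rw [ho.1 j, mul_one]
    exact norm_fderiv_mob hq
  choose C1 hC1 using fun j => avg_sq (hd j)
  choose C2 hC2 using fun j => avg_re (hH j)
  refine real_contra (a := 4 * (σ * (k - σ) * pser g σ q - 4 * k * η))
    (C := pser g σ q * C + η * ∑ j, C1 j + ∑ j, C2 j) (by linarith) ?_
  filter_upwards [hC, eventually_all.2 hC1, eventually_all.2 hC2,
    eventually_all.2 fun j => eventually_all.2 fun l => (tends_tom l).eventually (hmin j)]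
    with t h1 h2 h3 h4
  have s1 := Finset.sum_le_sum fun j (_ : j ∈ Finset.univ) =>
    Finset.sum_le_sum fun l (_ : l ∈ Finset.univ) => h4 j l
  have s2 : ∑ j, ∑ l, ‖mob q (c j (t * om l)) - p‖ ^ 2 ≤
      ∑ j, (4 * ‖q - p‖ ^ 2 + 16 * t ^ 2 + C1 j * t ^ 3) := by
    refine Finset.sum_le_sum fun j _ => (h2 j).trans ?_
    simp only [h0 j, mob_zero]
    have : ‖deriv (fun ζ => mob q (c j ζ) - p) 0‖ ^ 2 ≤ 2 ^ 2 := by
      gcongr
      exact hd1 j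
    nlinarith [sq_nonneg t]
  have s3 : ∑ j, ∑ l, (H j (t * om l)).re ≤ ∑ j, C2 j * t ^ 3 := by
    refine Finset.sum_le_sum fun j _ => (h3 j).trans ?_
    simp [hH0 j]
  simp only [Finset.sum_add_distrib, ← Finset.mul_sum, ← Finset.sum_mul,
    Finset.sum_const, Finset.card_univ, Fintype.card_fin, nsmul_eq_mul] at s1 s2 s3
  have s4 := mul_le_mul_of_nonneg_left s2 hη
  push_cast at s1
  nlinarith

lemma no_min [FiniteDimensional ℂ E] {ι : Type*} {g : ι → E → E} (hg : ∀ i, Aut (g i)) {σ : ℝ}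
    (hσ : 0 ≤ σ) (hs : ∀ z ∈ ball (0 : E) 1, Summable fun i => (1 - ‖g i z‖ ^ 2) ^ σ)
    {q p : E} (hq : ‖q‖ < 1) {k : ℕ} {ψ : E → E} (hψ : AnalyticAt ℂ ψ 0) (hψ0 : ψ 0 = q)
    (hinj : Function.Injective (fderiv ℂ ψ 0)) {W : Submodule ℂ E} (hW : k ≤ Module.finrank ℂ W)
    {η : ℝ} (hη : 0 ≤ η) (hη' : 4 * k * η < σ * (k - σ) * pser g σ q) {H : E → ℂ}
    (hH : AnalyticAt ℂ H 0) (hH0 : H 0 = 0) :
    ¬ ∀ᶠ y in 𝓝 (0 : E), y ∈ W → pser g σ q + η * ‖q - p‖ ^ 2 ≤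
      pser g σ (ψ y) + η * ‖ψ y - p‖ ^ 2 + (H y).re := by
  intro hmin
  haveI : CompleteSpace E := FiniteDimensional.complete ℂ E
  have hmq : AnalyticAt ℂ (mob q) q := analyticAt_mob hq hq
  have hL : HasFDerivAt (mob q ∘ ψ) ((fderiv ℂ (mob q) q).comp (fderiv ℂ ψ 0)) 0 :=
    HasFDerivAt.comp 0 (by rw [hψ0]; exact hmq.differentiableAt.hasFDerivAt)
      hψ.differentiableAt.hasFDerivAt
  generalize hLd : (fderiv ℂ (mob q) q).comp (fderiv ℂ ψ 0) = L at hL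
  have hLi : Function.Injective L := by
    rw [← hLd]
    exact ((aut_mob hq).fderiv_injective (mem_ball_zero_iff.2 hq)).comp hinj
  have hr : k ≤ Module.finrank ℂ (W.map (L : E →ₗ[ℂ] E)) := by
    rwa [← (Submodule.equivMapOfInjective (L : E →ₗ[ℂ] E) hLi W).finrank_eq]
  have hb := (stdOrthonormalBasis ℂ (W.map (L : E →ₗ[ℂ] E))).orthonormal.comp (Fin.castLE hr)
    (Fin.castLE_injective hr)
  have hb2 := hb.comp_linearIsometry (W.map (L : E →ₗ[ℂ] E)).subtypeₗᵢ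
  have hw : ∀ j : Fin k, ∃ w ∈ W, L w =
      ((W.map (L : E →ₗ[ℂ] E)).subtypeₗᵢ ∘ (stdOrthonormalBasis ℂ (W.map (L : E →ₗ[ℂ] E))) ∘
        Fin.castLE hr) j := fun j =>
    ((stdOrthonormalBasis ℂ (W.map (L : E →ₗ[ℂ] E))) (Fin.castLE hr j)).2
  choose w hwW hw using hw
  have hlin : ∀ j, AnalyticAt ℂ (fun ζ : ℂ => ζ • w j) 0 := fun j =>
    analyticAt_id.smul analyticAt_const
  have hψj : ∀ j, AnalyticAt ℂ (fun ζ : ℂ => ψ (ζ • w j)) 0 := fun j =>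
    hψ.comp_of_eq (hlin j) (by simp)
  have hder : ∀ j, deriv (fun ζ : ℂ => mob q (ψ (ζ • w j))) 0 = L (w j) := by
    intro j
    have h1 : HasDerivAt (fun ζ : ℂ => ζ • w j) (w j) 0 := by
      simpa using (hasDerivAt_id (0 : ℂ)).smul_const (w j)
    have h2 : HasFDerivAt (mob q ∘ ψ) L ((fun ζ : ℂ => ζ • w j) 0) := by simpa using hL
    exact (h2.comp_hasDerivAt 0 h1).deriv
  refine no_min_curves hg hσ hs (p := p) hq (c := fun j ζ => mob q (ψ (ζ • w j)))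
    (fun j => hmq.comp_of_eq (hψj j) (by simp [hψ0])) (fun j => by simp [hψ0, mob_self hq]) ?_
    hη hη' (H := fun j ζ => H (ζ • w j)) (fun j => hH.comp_of_eq (hlin j) (by simp))
    (fun j => by simp [hH0]) fun j => ?_
  · simp only [hder, hw]
    exact hb2
  · have ht : Tendsto (fun ζ : ℂ => ζ • w j) (𝓝 0) (𝓝 0) := by
      simpa using (hlin j).continuousAt.tendsto
    have hb : ∀ᶠ ζ in 𝓝 (0 : ℂ), ‖ψ (ζ • w j)‖ < 1 :=
      (hψj j).continuousAt.norm.eventually_lt continuousAt_const (by simpa [hψ0] using hq)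
    filter_upwards [ht.eventually hmin, hb] with ζ h1 h2
    rw [mob_mob hq h2]
    exact h1 (W.smul_mem _ (hwW j))

end Pool.Agent.H275Z.Ball
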