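import Pool.Agent.H275Z.BallMin

/-!
Convergence and continuity of the Poincare series.
-/

set_option autoImplicit false
set_option maxHeartbeats 400000

namespace Pool.Agent.H275Z.Ball

open Metric Set Filter Topology
open scoped InnerProductSpace ComplexConjugate

variable {E : Type*} [NormedAddCommGroup E] [InnerProductSpace ℂ E]

lemma real_quot {x : ℝ} (h0 : 0 ≤ x) (h1 : x < 1) : 1 - x ^ 2 ≤ 4 * ((1 - x) / (1 + x)) := by
  rw [← mul_div_assoc, le_div_iff₀ (by linarith)]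
  have : (1 + x) ^ 2 ≤ 4 := by nlinarith
  nlinarith

lemma summable_up {ι : Type*} {x : ι → ℝ} (h0 : ∀ i, 0 ≤ x i) (h1 : ∀ i, x i < 1) {s σ : ℝ}
    (hs : 0 ≤ s) (hσ : s ≤ σ) (h : Summable fun i => ((1 - x i) / (1 + x i)) ^ s) :
    Summable fun i => (1 - x i ^ 2) ^ σ := by
  have hp : ∀ i, 0 < 1 - x i ^ 2 := fun i => by nlinarith [h0 i, h1 i]
  refine Summable.of_nonneg_of_le (fun i => Real.rpow_nonneg (hp i).le _) (fun i => ?_)
    (h.mul_left ((4 : ℝ) ^ s))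
  have hq : 0 ≤ (1 - x i) / (1 + x i) := div_nonneg (by linarith [h1 i]) (by linarith [h0 i])
  rw [← Real.mul_rpow (by norm_num) hq]
  refine (Real.rpow_le_rpow_of_exponent_ge (hp i) (by nlinarith [sq_nonneg (x i)]) hσ).trans ?_
  exact Real.rpow_le_rpow (hp i).le (real_quot (h0 i) (h1 i)) hs

lemma Aut.term_le {g : E → E} (hg : Aut g) {σ R : ℝ} (hσ : 0 ≤ σ) (hR : R < 1) {z : E}
    (hz : ‖z‖ ≤ R) : (1 - ‖g z‖ ^ 2) ^ σ ≤ (1 - ‖g 0‖ ^ 2) ^ σ * (((1 - R) ^ 2)⁻¹) ^ σ := by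
  obtain ⟨a, ha, h⟩ := hg.norm_formula
  have hz1 : ‖z‖ < 1 := hz.trans_lt hR
  have h0 := one_sub_nonneg (hg.maps (mem_ball_self one_pos))
  have hR0 : 0 < 1 - R := by linarith
  rw [← Real.mul_rpow h0 (by positivity)]
  refine Real.rpow_le_rpow (one_sub_nonneg (hg.maps (mem_ball_zero_iff.2 hz1))) ?_ hσ
  rw [h z hz1, mul_div_assoc]
  refine mul_le_mul_of_nonneg_left ?_ h0
  have h1 : ‖⟪a, z⟫_ℂ‖ ≤ R := by
    have := norm_inner_le_norm (𝕜 := ℂ) a z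
    nlinarith [norm_nonneg a, norm_nonneg z]
  have h2 : 1 - R ≤ ‖1 - ⟪a, z⟫_ℂ‖ := by
    have := norm_sub_norm_le (1 : ℂ) ⟪a, z⟫_ℂ
    rw [norm_one] at this
    linarith
  rw [← one_div]
  gcongr
  nlinarith [sq_nonneg ‖z‖]

lemma summable_all {ι : Type*} {g : ι → E → E} (hg : ∀ i, Aut (g i)) {σ : ℝ} (hσ : 0 ≤ σ)
    (hs : Summable fun i => (1 - ‖g i 0‖ ^ 2) ^ σ) :
    ∀ z ∈ ball (0 : E) 1, Summable fun i => (1 - ‖g i z‖ ^ 2) ^ σ := fun _ hz =>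
  Summable.of_nonneg_of_le (fun i => Real.rpow_nonneg (one_sub_nonneg ((hg i).maps hz)) _)
    (fun i => (hg i).term_le hσ (mem_ball_zero_iff.1 hz) le_rfl) (hs.mul_right _)

lemma pser_cont {ι : Type*} {g : ι → E → E} (hg : ∀ i, Aut (g i)) {σ : ℝ} (hσ : 0 ≤ σ)
    (hs : Summable fun i => (1 - ‖g i 0‖ ^ 2) ^ σ) : ContinuousOn (pser g σ) (ball 0 1) := by
  intro z hz
  obtain ⟨R, hR1, hR2⟩ := exists_between (mem_ball_zero_iff.1 hz)
  have hsub : ball (0 : E) R ⊆ ball 0 1 := ball_subset_ball hR2.le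
  have : ContinuousOn (pser g σ) (ball 0 R) := by
    refine continuousOn_tsum (fun i => ?_) (hs.mul_right ((((1 - R) ^ 2)⁻¹) ^ σ)) fun i x hx => ?_
    · exact (continuousOn_const.sub (((hg i).an.continuousOn.mono hsub).norm.pow 2)).rpow_const
        fun _ _ => Or.inr hσ
    · rw [Real.norm_of_nonneg (Real.rpow_nonneg (one_sub_nonneg ((hg i).maps (hsub hx))) _)]
      exact (hg i).term_le hσ hR2 (mem_ball_zero_iff.1 hx).le
  exact (this.continuousAt (isOpen_ball.mem_nhds (mem_ball_zero_iff.2 hR1))).continuousWithinAt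

lemma pser_pos {ι : Type*} [Nonempty ι] {g : ι → E → E} (hg : ∀ i, Aut (g i)) {σ : ℝ}
    {z : E} (hz : z ∈ ball (0 : E) 1) (hs : Summable fun i => (1 - ‖g i z‖ ^ 2) ^ σ) :
    0 < pser g σ z := by
  obtain ⟨i⟩ := ‹Nonempty ι›
  refine hs.tsum_pos (fun i => Real.rpow_nonneg (one_sub_nonneg ((hg i).maps hz)) _) i
    (Real.rpow_pos_of_pos ?_ _)
  have := mem_ball_zero_iff.1 ((hg i).maps hz)
  nlinarith [norm_nonneg (g i z)]

lemma Aut.thick [FiniteDimensional ℂ E] {g : E → E} (hg : Aut g) {Z : Set E} (hZ : MapsTo g Z Z)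
    {k : ℕ} {q : E} (hq : q ∈ ball (0 : E) 1) (h : Thick Z k q) : Thick Z k (g q) := by
  obtain ⟨W, ψ, hW, hψ, h0, hi, hev⟩ := h
  subst h0
  refine ⟨W, g ∘ ψ, hW, (hg.an _ hq).comp hψ, rfl, ?_, hev.mono fun y h hy => hZ (h hy)⟩
  rw [fderiv_comp 0 (hg.an _ hq).differentiableAt hψ.differentiableAt]
  exact (hg.fderiv_injective hq).comp hi

lemma Aut.closure_thick [FiniteDimensional ℂ E] {g : E → E} (hg : Aut g) {Z : Set E}
    (hZ : MapsTo g Z Z) {k : ℕ} {q : E} (hq : q ∈ ball (0 : E) 1)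
    (h : q ∈ closure {q | Thick Z k q}) : g q ∈ closure {q | Thick Z k q} := by
  refine mem_closure_iff_frequently.2 ((hg.an _ hq).continuousAt.tendsto.frequently ?_)
  exact ((mem_closure_iff_frequently.1 h).and_eventually (isOpen_ball.mem_nhds hq)).mono
    fun x hx => hg.thick hZ hx.2 hx.1

lemma closure_sub {Z B T : Set E} (hT : T ⊆ Z)
    (hZ : ∀ p ∈ B, ∃ U : Set E, IsOpen U ∧ p ∈ U ∧ ∃ N : ℕ, ∃ f : Fin N → E → ℂ,
      (∀ i, AnalyticOnNhd ℂ (f i) U) ∧ Z ∩ U = {z | z ∈ U ∧ ∀ i, f i z = 0})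
    {z : E} (hz : z ∈ B) (h : z ∈ closure T) : z ∈ Z := by
  obtain ⟨U, hU, hzU, n, f, hf, hZU⟩ := hZ z hz
  have : z ∈ Z ∩ U := by
    rw [hZU]
    refine ⟨hzU, fun i => ?_⟩
    have h1 : ∃ᶠ x in 𝓝 z, f i x = 0 := by
      refine ((mem_closure_iff_frequently.1 h).and_eventually (hU.mem_nhds hzU)).mono ?_
      rintro x ⟨h1, h2⟩
      have : x ∈ Z ∩ U := ⟨hT h1, h2⟩
      rw [hZU] at this
      exact this.2 i
    by_contra hne
    exact h1 (((hf i z hzU).continuousAt.eventually_ne hne))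
  exact this.1

theorem main [FiniteDimensional ℂ E] (Γ : Subgroup (Equiv.Perm E))
    (hΓ : ∀ γ ∈ Γ, MapsTo γ (ball (0 : E) 1) (ball 0 1) ∧ AnalyticOnNhd ℂ γ (ball (0 : E) 1))
    {k : ℕ} {s : ℝ} (hs0 : 0 ≤ s) (hsk : s < k)
    (hsum : Summable fun γ : Γ =>
      ((1 - ‖(γ : Equiv.Perm E) 0‖) / (1 + ‖(γ : Equiv.Perm E) 0‖)) ^ s)
    {Z : Set E}
    (hZ : ∀ p ∈ ball (0 : E) 1, ∃ U : Set E, IsOpen U ∧ p ∈ U ∧ ∃ N : ℕ, ∃ f : Fin N → E → ℂ,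
      (∀ i, AnalyticOnNhd ℂ (f i) U) ∧ Z ∩ U = {z | z ∈ U ∧ ∀ i, f i z = 0})
    (hinv : ∀ γ ∈ Γ, MapsTo γ Z Z) {K : Set E} (hK : IsCompact K) (hKB : K ⊆ ball 0 1)
    (hZK : Z ⊆ ⋃ γ ∈ Γ, γ '' K) {q : E} (hq : Thick Z k q) : False := by
  have hA : ∀ γ : Γ, Aut (γ : Equiv.Perm E) := fun γ =>
    ⟨(hΓ _ γ.2).1, (hΓ _ γ.2).2, ((γ : Equiv.Perm E)⁻¹ : Equiv.Perm E), (hΓ _ (Γ.inv_mem γ.2)).1,
      (hΓ _ (Γ.inv_mem γ.2)).2, fun z _ => by simp, fun z _ => by simp⟩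
  obtain ⟨σ, hσ1, hσ2⟩ := exists_between hsk
  have hσ0 : 0 < σ := hs0.trans_lt hσ1
  have hS0 : Summable fun γ : Γ => (1 - ‖(γ : Equiv.Perm E) 0‖ ^ 2) ^ σ :=
    summable_up (x := fun γ : Γ => ‖(γ : Equiv.Perm E) 0‖) (fun _ => norm_nonneg _)
      (fun γ => mem_ball_zero_iff.1 ((hA γ).maps (mem_ball_self one_pos))) hs0 hσ1.le hsum
  have hS := summable_all hA hσ0.le hS0
  have hFc := pser_cont hA hσ0.le hS0
  have hFi : ∀ (γ : Γ) (z : E), pser (fun γ : Γ => ⇑(γ : Equiv.Perm E)) σ ((γ : Equiv.Perm E) z) =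
      pser (fun γ : Γ => ⇑(γ : Equiv.Perm E)) σ z := by
    intro γ z
    unfold pser
    rw [← (Equiv.mulRight γ).tsum_eq (fun i : Γ => (1 - ‖(i : Equiv.Perm E) z‖ ^ 2) ^ σ)]
    rfl
  have hred : ∀ y ∈ Z, y ∈ closure {q | Thick Z k q} → ∃ x ∈ closure {q | Thick Z k q} ∩ K,
      ∃ γ : Γ, (γ : Equiv.Perm E) x = y := by
    intro y hy hy'
    obtain ⟨γ, hγ, x, hx, rfl⟩ := mem_iUnion₂.1 (hZK hy)
    refine ⟨x, ⟨?_, hx⟩, ⟨γ, hγ⟩, rfl⟩
    have := (hA ⟨γ⁻¹, Γ.inv_mem hγ⟩).closure_thick (hinv _ (Γ.inv_mem hγ))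
      ((hΓ γ hγ).1 (hKB hx)) hy'
    simpa using this
  obtain ⟨x0, hx0, -⟩ := hred q hq.mem (subset_closure hq)
  obtain ⟨p, hp, hmin⟩ := (hK.inter_left isClosed_closure).exists_isMinOn ⟨x0, hx0⟩
    (hFc.mono fun z hz => hKB hz.2)
  have hpB := hKB hp.2
  have hpos := pser_pos hA hpB (hS p hpB)
  have hk : (0 : ℝ) < k := hσ0.trans hσ2
  have hd : 0 < k - σ := by linarith
  refine no_thick_min isOpen_ball hZ hFc hpB hp.1 (fun y hy hy' => ?_)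
    (η := σ * (k - σ) * pser (fun γ : Γ => ⇑(γ : Equiv.Perm E)) σ p / (8 * k)) (by positivity)
    fun q hq hle W ψ H hW hψ h0 hi hH hH0 =>
      no_min hA hσ0.le hS (mem_ball_zero_iff.1 hq) hψ h0 hi hW (by positivity) ?_ hH hH0
  · obtain ⟨x, hx, γ, rfl⟩ := hred y (closure_sub (fun _ h => Thick.mem h) hZ hy hy') hy'
    rw [hFi]
    exact hmin hx
  · generalize pser (fun γ : Γ => ⇑(γ : Equiv.Perm E)) σ p = a at *
    generalize pser (fun γ : Γ => ⇑(γ : Equiv.Perm E)) σ q = b at *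
    have e : 4 * (k : ℝ) * (σ * (k - σ) * a / (8 * k)) = σ * (k - σ) * (a / 2) := by
      field_simp
      ring
    rw [e]
    gcongr
    linarith

lemma thick_of_chart [FiniteDimensional ℂ E] {Z U : Set E} {p : E} (hp : p ∈ Z) (hU : IsOpen U)
    (hpU : p ∈ U) {φ : E → E} (hφ : AnalyticAt ℂ φ p) (hb : Function.Bijective (fderiv ℂ φ p))
    {W : Submodule ℂ E} {k : ℕ} (hW : Module.finrank ℂ W = k)
    (hZ : Z ∩ U = U ∩ φ ⁻¹' (W : Set E)) : Thick Z k p := by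
  obtain ⟨ψ, hψ, h0, hi, hev⟩ := exists_linv hφ hb
  have hpW : φ p ∈ W := by
    have : p ∈ Z ∩ U := ⟨hp, hpU⟩
    rw [hZ] at this
    exact this.2
  refine ⟨W, ψ, hW.ge, hψ, h0, hi, ?_⟩
  filter_upwards [hev, hψ.continuousAt.eventually (h0 ▸ hU.mem_nhds hpU)] with y h1 h2 hy
  have : ψ y ∈ Z ∩ U := by
    rw [hZ]
    refine ⟨h2, ?_⟩
    rw [mem_preimage, h1]
    exact W.add_mem hpW hy
  exact this.1

end Pool.Agent.H275Z.Ball
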