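import Mathlib

/-!
A quadratic version of Bergman's diamond lemma for free algebras, with the degree-lexicographic order.
-/

set_option autoImplicit false

namespace Pool.Agent.H275Z.Diamond

open FreeAlgebra

variable {k : Type*} [CommRing k] {L : Type*}

/-- The monomial attached to a word. -/
noncomputable def W (k : Type*) [CommRing k] {L : Type*} (l : List L) : FreeAlgebra k L :=
  (l.map (ι k)).prod

@[simp] lemma W_nil : W k ([] : List L) = 1 := rfl

@[simp] lemma W_cons (a : L) (l : List L) : W k (a :: l) = ι k a * W k l := by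
  simp [W]

lemma W_append (s t : List L) : W k (s ++ t) = W k s * W k t := by
  simp [W]

lemma W_single (a : L) : W k [a] = ι k a := by simp

lemma W_pair (a b : L) : W k [a, b] = ι k a * ι k b := by simp

lemma basis_eq (l : List L) : basisFreeMonoid k L (FreeMonoid.ofList l) = W k l := by
  have h : equivMonoidAlgebraFreeMonoid (W k l) =
      MonoidAlgebra.single (FreeMonoid.ofList l) (1 : k) := by
    induction l with
    | nil => simp [MonoidAlgebra.one_def]
    | cons a l ih =>
      rw [W_cons, map_mul, ih, FreeMonoid.ofList_cons]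
      have : equivMonoidAlgebraFreeMonoid (ι k a) =
          MonoidAlgebra.single (FreeMonoid.of a) (1 : k) := by
        simp [equivMonoidAlgebraFreeMonoid]
      rw [this, MonoidAlgebra.single_mul_single, one_mul]
  simp only [basisFreeMonoid, Module.Basis.map_apply, Finsupp.coe_basisSingleOne]
  rw [LinearEquiv.symm_apply_eq]
  simp [h]

/-- The linear map with prescribed values on monomials. -/
noncomputable def ext {M : Type*} [AddCommGroup M] [Module k M] (g : List L → M) :
    FreeAlgebra k L →ₗ[k] M :=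
  (basisFreeMonoid k L).constr k (fun w => g (FreeMonoid.toList w))

@[simp] lemma ext_W {M : Type*} [AddCommGroup M] [Module k M] (g : List L → M) (l : List L) :
    ext g (W k l) = g l := by
  rw [← basis_eq, ext, Module.Basis.constr_basis]
  rfl

lemma span_W : Submodule.span k (Set.range (W k : List L → FreeAlgebra k L)) = ⊤ := by
  rw [eq_top_iff, ← (basisFreeMonoid k L).span_eq]
  refine Submodule.span_mono ?_
  rintro _ ⟨w, rfl⟩
  exact ⟨FreeMonoid.toList w, by rw [← basis_eq]; rfl⟩

lemma lex_append {r : L → L → Prop} {s t : List L} (h : List.Lex r s t) (hl : s.length = t.length)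
    (v v' : List L) : List.Lex r (s ++ v) (t ++ v') := by
  induction h with
  | nil => simp at hl
  | rel h => exact List.Lex.rel h
  | cons _ ih => exact List.Lex.cons (ih (by simpa using hl))

lemma shortlex_mul {r : L → L → Prop} {s t : List L} (h : List.Shortlex r s t) (u v : List L) :
    List.Shortlex r (u ++ s ++ v) (u ++ t ++ v) := by
  rcases List.shortlex_def.1 h with h | ⟨h1, h2⟩
  · exact List.Shortlex.of_length_lt (by simp; omega)
  · refine List.Shortlex.of_lex (by simp [h1]) ?_
    rw [List.append_assoc, List.append_assoc]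
    exact List.Lex.append_left _ (lex_append h2 h1 v v) u

section main

variable (r : L → L → Prop) {S : Type*} (a b : S → L) (ρ : S → FreeAlgebra k L)

/-- The span of the monomials below `w`. -/
def low (k : Type*) [CommRing k] {L : Type*} (r : L → L → Prop) (w : List L) :
    Submodule k (FreeAlgebra k L) :=
  Submodule.span k {x | ∃ u, List.Shortlex r u w ∧ x = W k u}

/-- The span of the instances of relations whose leading monomial is below `w`. -/
def J (w : List L) : Submodule k (FreeAlgebra k L) :=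
  Submodule.span k {x | ∃ u v σ, List.Shortlex r (u ++ [a σ, b σ] ++ v) w ∧ x = W k u * ρ σ * W k v}

lemma W_mem_low {u w : List L} (h : List.Shortlex r u w) : W k u ∈ low k r w :=
  Submodule.subset_span ⟨u, h, rfl⟩

lemma mem_J {w : List L} (u v : List L) (σ : S) (h : List.Shortlex r (u ++ [a σ, b σ] ++ v) w) :
    W k u * ρ σ * W k v ∈ J r a b ρ w :=
  Submodule.subset_span ⟨u, v, σ, h, rfl⟩

lemma mem_J0 {w : List L} (σ : S) (h : 2 < w.length) : ρ σ ∈ J r a b ρ w := by
  simpa using mem_J r a b ρ [] [] σ (List.Shortlex.of_length_lt (by simpa using h))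

lemma mem_J_right {w : List L} (σ : S) (c : L) (h : List.Shortlex r [a σ, b σ, c] w) :
    ρ σ * ι k c ∈ J r a b ρ w := by
  simpa using mem_J r a b ρ [] [c] σ (by simpa using h)

lemma mem_J_left {w : List L} (σ : S) (c : L) (h : List.Shortlex r [c, a σ, b σ] w) :
    ι k c * ρ σ ∈ J r a b ρ w := by
  simpa using mem_J r a b ρ [c] [] σ (by simpa using h)

lemma low_mul {w : List L} {x : FreeAlgebra k L} (hx : x ∈ low k r w) (u v : List L) :
    W k u * x * W k v ∈ low k r (u ++ w ++ v) := by
  induction hx using Submodule.span_induction with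
  | mem x hx =>
    obtain ⟨s, hs, rfl⟩ := hx
    rw [← W_append, ← W_append]
    exact W_mem_low r (shortlex_mul hs u v)
  | zero => simp
  | add x y _ _ hx hy => rw [mul_add, add_mul]; exact add_mem hx hy
  | smul c x _ hx => rw [mul_smul_comm, smul_mul_assoc]; exact Submodule.smul_mem _ _ hx

lemma J_mul {w : List L} {x : FreeAlgebra k L} (hx : x ∈ J r a b ρ w) (u v : List L) :
    W k u * x * W k v ∈ J r a b ρ (u ++ w ++ v) := by
  induction hx using Submodule.span_induction with
  | mem x hx =>
    obtain ⟨s, t, σ, hs, rfl⟩ := hx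
    have h1 := mem_J r a b ρ (u ++ s) (t ++ v) σ (w := u ++ w ++ v)
      (by simpa [List.append_assoc] using shortlex_mul hs u v)
    rw [W_append, W_append] at h1
    simpa [mul_assoc] using h1
  | zero => simp
  | add x y _ _ hx hy => rw [mul_add, add_mul]; exact add_mem hx hy
  | smul c x _ hx => rw [mul_smul_comm, smul_mul_assoc]; exact Submodule.smul_mem _ _ hx

lemma low_rel_right {w : List L} {x : FreeAlgebra k L} (hx : x ∈ low k r w) (m : List L) (τ : S) :
    x * W k m * ρ τ ∈ J r a b ρ (w ++ m ++ [a τ, b τ]) := by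
  induction hx using Submodule.span_induction with
  | mem x hx =>
    obtain ⟨s, hs, rfl⟩ := hx
    have h1 := mem_J r a b ρ (s ++ m) [] τ (w := w ++ m ++ [a τ, b τ])
      (by simpa [List.append_assoc] using shortlex_mul hs [] (m ++ [a τ, b τ]))
    rw [W_append] at h1
    simpa using h1
  | zero => simp
  | add x y _ _ hx hy => rw [add_mul, add_mul]; exact add_mem hx hy
  | smul c x _ hx => rw [smul_mul_assoc, smul_mul_assoc]; exact Submodule.smul_mem _ _ hx

lemma low_rel_left {w : List L} {x : FreeAlgebra k L} (hx : x ∈ low k r w) (m : List L) (τ : S) :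
    ρ τ * W k m * x ∈ J r a b ρ ([a τ, b τ] ++ m ++ w) := by
  induction hx using Submodule.span_induction with
  | mem x hx =>
    obtain ⟨s, hs, rfl⟩ := hx
    have h1 := mem_J r a b ρ [] (m ++ s) τ (w := [a τ, b τ] ++ m ++ w)
      (by simpa [List.append_assoc] using shortlex_mul hs ([a τ, b τ] ++ m) [])
    rw [W_append] at h1
    simpa [mul_assoc] using h1
  | zero => simp
  | add x y _ _ hx hy => rw [mul_add]; exact add_mem hx hy
  | smul c x _ hx => rw [mul_smul_comm]; exact Submodule.smul_mem _ _ hx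

/-- A word is reducible if it contains a leading monomial. -/
def Red (w : List L) : Prop := ∃ p : List L × List L × S, w = p.1 ++ [a p.2.2, b p.2.2] ++ p.2.1

open Classical in
/-- One step of the recursive definition of the normal form. -/
noncomputable def step (w : List L) (ih : ∀ y, List.Shortlex r y w → FreeAlgebra k L) :
    FreeAlgebra k L :=
  if h : Red a b w then
    ext (fun y => if hy : List.Shortlex r y w then ih y hy else 0)
      (W k h.choose.1 * (ι k (a h.choose.2.2) * ι k (b h.choose.2.2) - ρ h.choose.2.2) *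
        W k h.choose.2.1)
  else W k w

/-- The normal form of a word. -/
noncomputable def nfw (hr : WellFounded r) : List L → FreeAlgebra k L :=
  (List.Shortlex.wf hr).fix (step r a b ρ)

lemma nfw_irr (hr : WellFounded r) {w : List L} (h : ¬ Red a b w) : nfw r a b ρ hr w = W k w := by
  rw [nfw, WellFounded.fix_eq, step, dif_neg h]

lemma nfw_red (hr : WellFounded r)
    (hlow : ∀ σ, ι k (a σ) * ι k (b σ) - ρ σ ∈ low k r [a σ, b σ]) {w : List L} (h : Red a b w) :
    ∃ u v σ, w = u ++ [a σ, b σ] ++ v ∧ nfw r a b ρ hr w =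
      ext (nfw r a b ρ hr) (W k u * (ι k (a σ) * ι k (b σ) - ρ σ) * W k v) := by
  classical
  refine ⟨h.choose.1, h.choose.2.1, h.choose.2.2, h.choose_spec, ?_⟩
  have hm := low_mul r (hlow h.choose.2.2) h.choose.1 h.choose.2.1
  rw [← h.choose_spec] at hm
  conv_lhs => rw [nfw, WellFounded.fix_eq, step, dif_pos h]
  refine LinearMap.eqOn_span ?_ hm
  rintro _ ⟨u, hu, rfl⟩
  rw [ext_W, ext_W, dif_pos hu]
  rfl

lemma compare_aux
    (hlow : ∀ σ, ι k (a σ) * ι k (b σ) - ρ σ ∈ low k r [a σ, b σ])
    (hinj : ∀ σ τ, a σ = a τ → b σ = b τ → ρ σ = ρ τ)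
    (hov : ∀ σ τ, b σ = a τ →
      ρ σ * ι k (b τ) - ι k (a σ) * ρ τ ∈ J r a b ρ [a σ, b σ, b τ])
    (u m v v' : List L) (σ τ : S) (h : [a σ, b σ] ++ v = m ++ [a τ, b τ] ++ v') :
    W k u * ρ σ * W k v - W k (u ++ m) * ρ τ * W k v' ∈ J r a b ρ (u ++ [a σ, b σ] ++ v) := by
  match m, h with
  | [], h =>
    simp only [List.nil_append, List.cons_append, List.cons.injEq] at h
    obtain ⟨h1, h2, h3⟩ := h
    rw [hinj σ τ h1 h2, h3]
    simp
  | [x], h =>
    simp only [List.nil_append, List.cons_append, List.cons.injEq] at h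
    obtain ⟨h1, h2, h3⟩ := h
    have := J_mul r a b ρ (hov σ τ h2) u v'
    rw [h3, ← h1, W_append]
    simp only [W_cons, W_nil, mul_one]
    convert this using 1
    · simp
    · noncomm_ring
  | x :: y :: m, h =>
    simp only [List.nil_append, List.cons_append, List.cons.injEq] at h
    obtain ⟨h1, h2, h3⟩ := h
    have e1 := J_mul r a b ρ (low_rel_right r a b ρ (hlow σ) m τ) u v'
    have e2 := J_mul r a b ρ (low_rel_left r a b ρ (hlow τ) m σ) u v'
    have e3 := sub_mem e2 e1
    rw [h3, ← h1, ← h2]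
    simp only [W_append, W_cons, W_nil, mul_one]
    convert e3 using 1
    · simp
    · noncomm_ring

theorem nf_rel (hr : WellFounded r)
    (hlow : ∀ σ, ι k (a σ) * ι k (b σ) - ρ σ ∈ low k r [a σ, b σ])
    (hinj : ∀ σ τ, a σ = a τ → b σ = b τ → ρ σ = ρ τ)
    (hov : ∀ σ τ, b σ = a τ →
      ρ σ * ι k (b τ) - ι k (a σ) * ρ τ ∈ J r a b ρ [a σ, b σ, b τ]) (w : List L) :
    ∀ u v σ, w = u ++ [a σ, b σ] ++ v → ext (nfw r a b ρ hr) (W k u * ρ σ * W k v) = 0 := by
  induction w using (List.Shortlex.wf hr).induction with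
  | _ w ih =>
  intro u v σ hw
  have hJ : ∀ x ∈ J r a b ρ w, ext (nfw r a b ρ hr) x = 0 := by
    intro x hx
    refine LinearMap.eqOn_span (g := 0) ?_ hx
    rintro _ ⟨s, t, τ, hs, rfl⟩
    exact ih _ hs s t τ rfl
  obtain ⟨u0, v0, σ0, hw0, hn⟩ := nfw_red r a b ρ hr hlow (w := w) ⟨(u, v, σ), hw⟩
  have h0 : ext (nfw r a b ρ hr) (W k u0 * ρ σ0 * W k v0) = 0 := by
    have e : W k u0 * ρ σ0 * W k v0 =
        W k w - W k u0 * (ι k (a σ0) * ι k (b σ0) - ρ σ0) * W k v0 := by
      rw [hw0]
      simp only [W_append, W_cons, W_nil, mul_one]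
      noncomm_ring
    rw [e, map_sub, ext_W, ← hn, sub_self]
  have heq : u ++ ([a σ, b σ] ++ v) = u0 ++ ([a σ0, b σ0] ++ v0) := by
    rw [← List.append_assoc, ← List.append_assoc, ← hw, ← hw0]
  rcases List.append_eq_append_iff.1 heq with ⟨m, hm1, hm2⟩ | ⟨m, hm1, hm2⟩
  · have := compare_aux r a b ρ hlow hinj hov u m v v0 σ σ0 (by rw [hm2, List.append_assoc])
    rw [← hw, ← hm1] at this
    have := hJ _ this
    rw [map_sub, h0, sub_zero] at this
    exact this
  · have := compare_aux r a b ρ hlow hinj hov u0 m v0 v σ0 σ (by rw [hm2, List.append_assoc])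
    rw [← hw0, ← hm1] at this
    have := hJ _ this
    rw [map_sub, h0, zero_sub, neg_eq_zero] at this
    exact this

/-- The relation that kills the elements `ρ σ`. -/
def rel (x y : FreeAlgebra k L) : Prop := ∃ σ, x = ρ σ ∧ y = 0

/-- The diamond lemma: a linear normal form map that is the identity on irreducible monomials and
vanishes on the ideal generated by the relations. -/
theorem diamond (hr : WellFounded r)
    (hlow : ∀ σ, ι k (a σ) * ι k (b σ) - ρ σ ∈ low k r [a σ, b σ])
    (hinj : ∀ σ τ, a σ = a τ → b σ = b τ → ρ σ = ρ τ)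
    (hov : ∀ σ τ, b σ = a τ →
      ρ σ * ι k (b τ) - ι k (a σ) * ρ τ ∈ J r a b ρ [a σ, b σ, b τ]) :
    ∃ nf : FreeAlgebra k L →ₗ[k] FreeAlgebra k L,
      (∀ w, ¬ Red a b w → nf (W k w) = W k w) ∧
      ∀ z, RingQuot.mkAlgHom k (rel ρ) z = 0 → nf z = 0 := by
  refine ⟨ext (nfw r a b ρ hr), fun w hw => by rw [ext_W, nfw_irr r a b ρ hr hw], ?_⟩
  set nf : FreeAlgebra k L →ₗ[k] FreeAlgebra k L := ext (nfw r a b ρ hr) with hnf
  have key : ∀ σ (x y : FreeAlgebra k L), nf (x * ρ σ * y) = 0 := by
    intro σ x y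
    have hx : x ∈ Submodule.span k (Set.range (W k : List L → FreeAlgebra k L)) := by
      rw [span_W]; trivial
    have hy : y ∈ Submodule.span k (Set.range (W k : List L → FreeAlgebra k L)) := by
      rw [span_W]; trivial
    induction hx using Submodule.span_induction with
    | mem x hx =>
      obtain ⟨u, rfl⟩ := hx
      induction hy using Submodule.span_induction with
      | mem y hy =>
        obtain ⟨v, rfl⟩ := hy
        exact nf_rel r a b ρ hr hlow hinj hov _ u v σ rfl
      | zero => simp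
      | add x y _ _ hx hy => rw [mul_add, map_add, hx, hy, add_zero]
      | smul c x _ hx => rw [mul_smul_comm, map_smul, hx, smul_zero]
    | zero => simp
    | add x y _ _ hx hy => rw [add_mul, add_mul, map_add, hx, hy, add_zero]
    | smul c x _ hx => rw [smul_mul_assoc, smul_mul_assoc, map_smul, hx, smul_zero]
  let c : RingCon (FreeAlgebra k L) :=
    { r := fun x y => ∀ u v, nf (u * x * v) = nf (u * y * v)
      iseqv := ⟨fun _ _ _ => rfl, fun h u v => (h u v).symm, fun h h' u v => (h u v).trans (h' u v)⟩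
      add' := fun {x y z t} h h' u v => by
        simp only [mul_add, add_mul, map_add, h u v, h' u v]
      mul' := fun {x y z t} h h' u v => by
        have e1 := h u (z * v)
        have e2 := h' (u * y) v
        simp only [mul_assoc] at e1 e2 ⊢
        rw [e1, e2] }
  intro z hz
  have hf : ∀ ⦃x y⦄, rel ρ x y → c.mk' x = c.mk' y := by
    rintro x y ⟨σ, rfl, rfl⟩
    refine (RingCon.eq c).2 ?_
    intro u v
    rw [key]; simp
  have h1 := RingQuot.lift_mkRingHom_apply c.mk' hf z
  have h2 : RingQuot.mkRingHom (rel ρ) z = 0 := by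
    rw [← RingQuot.mkAlgHom_coe k]; exact hz
  rw [h2, map_zero] at h1
  have h3 : c z 0 := (RingCon.eq c).1 h1.symm
  simpa using h3 1 1

end main

/-- The algebraic identity behind all overlaps. -/
lemma overlap {A : Type*} [Ring A] [Algebra k A] {α β β' ε : Type*} [Fintype α] [Fintype β]
    [Fintype β'] [Fintype ε] [DecidableEq α] [DecidableEq β] [DecidableEq β'] [DecidableEq ε]
    (Jw : Submodule k A) (P : α → A) (Q : β → β' → A) (T : ε → A)
    (F : α → β → k) (G : β' → ε → k) (lF RF : β' → A) (lG RG : β → A)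
    (hRF : ∀ y, RF y = (∑ x, ∑ z, F x z • (P x * Q z y)) - lF y)
    (hRG : ∀ z, RG z = (∑ y, ∑ e, G y e • (Q z y * T e)) - lG z)
    (x0 : α) (z0 : β) (y0 : β') (e0 : ε) (hF : F x0 z0 = 1) (hG : G y0 e0 = 1)
    (h1 : ∀ y e, (y, e) ≠ (y0, e0) → G y e • (RF y * T e) ∈ Jw)
    (h2 : ∀ x z, (x, z) ≠ (x0, z0) → F x z • (P x * RG z) ∈ Jw)
    (h3 : (∑ x, ∑ z, F x z • (P x * lG z)) - (∑ y, ∑ e, G y e • (lF y * T e)) ∈ Jw) :
    RF y0 * T e0 - P x0 * RG z0 ∈ Jw := by
  have id1 : (∑ p : β' × ε, G p.1 p.2 • (RF p.1 * T p.2)) -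
      (∑ p : α × β, F p.1 p.2 • (P p.1 * RG p.2)) =
      (∑ x, ∑ z, F x z • (P x * lG z)) - (∑ y, ∑ e, G y e • (lF y * T e)) := by
    simp only [Fintype.sum_prod_type, hRF, hRG, sub_mul, mul_sub, smul_sub, Finset.sum_sub_distrib,
      Finset.sum_mul, Finset.mul_sum, Finset.smul_sum, smul_mul_assoc, mul_smul_comm]
    have : (∑ y, ∑ e, ∑ x, ∑ z, G y e • F x z • (P x * Q z y * T e)) =
        ∑ x, ∑ z, ∑ y, ∑ e, F x z • G y e • (P x * (Q z y * T e)) := by
      calc (∑ y, ∑ e, ∑ x, ∑ z, G y e • F x z • (P x * Q z y * T e))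
          = ∑ p : β' × ε, ∑ q : α × β, G p.1 p.2 • F q.1 q.2 • (P q.1 * Q q.2 p.1 * T p.2) := by
            simp only [Fintype.sum_prod_type]
        _ = ∑ q : α × β, ∑ p : β' × ε, F q.1 q.2 • G p.1 p.2 • (P q.1 * (Q q.2 p.1 * T p.2)) := by
            rw [Finset.sum_comm]
            refine Finset.sum_congr rfl fun q _ => Finset.sum_congr rfl fun p _ => ?_
            rw [smul_comm, mul_assoc]
        _ = _ := by simp only [Fintype.sum_prod_type]
    rw [this]
    abel
  rw [← Finset.add_sum_erase _ _ (Finset.mem_univ (y0, e0)),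
    ← Finset.add_sum_erase _ _ (Finset.mem_univ (x0, z0))] at id1
  simp only [hF, hG, one_smul] at id1
  have s1 : ∑ p ∈ Finset.univ.erase (y0, e0), G p.1 p.2 • (RF p.1 * T p.2) ∈ Jw :=
    Submodule.sum_mem _ fun p hp => h1 p.1 p.2 (Finset.ne_of_mem_erase hp)
  have s2 : ∑ p ∈ Finset.univ.erase (x0, z0), F p.1 p.2 • (P p.1 * RG p.2) ∈ Jw :=
    Submodule.sum_mem _ fun p hp => h2 p.1 p.2 (Finset.ne_of_mem_erase hp)
  have := add_mem (sub_mem h3 s1) s2
  rw [← id1] at this
  convert this using 1
  abel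

end Pool.Agent.H275Z.Diamond
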