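import Pool.Agent.H520Z.Sel.Euler

set_option autoImplicit false

namespace Pool.Agent.H369Z.Err

open Pool.Agent.H520Z.Sel

theorem ec_eq_zero_of_dvd (c : ℕ → ℝ) {p n : ℕ} (hp : p.Prime) (h : p ∣ n) (hc : c p = 0) :
    ec c n = 0 := by
  rcases eq_or_ne n 0 with rfl | hn
  · exact ec_zero c
  rw [ec_eq c hn]
  refine Finset.prod_eq_zero (Nat.mem_primeFactors.2 ⟨hp, h, hn⟩) ?_
  rw [hc, zero_pow (hp.factorization_pos_of_dvd hn h).ne', zero_div]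

theorem abs_ec_le_of_dvd (c d : ℕ → ℝ) (n : ℕ) (h : ∀ p : ℕ, p.Prime → p ∣ n → |c p| ≤ d p) :
    |ec c n| ≤ ec d n := by
  rcases eq_or_ne n 0 with rfl | hn
  · simp [ec_zero]
  rw [abs_ec, ec_eq _ hn, ec_eq _ hn]
  refine Finset.prod_le_prod (fun p _ => by positivity) fun p hp => ?_
  have := h p (Nat.prime_of_mem_primeFactors hp) (Nat.dvd_of_mem_primeFactors hp)
  gcongr

theorem ec_sum_le (u : ℕ → ℝ) (hu : ∀ p, 0 ≤ u p) (σ : ℝ)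
    (hs : Summable fun p : ℕ => u p * (p : ℝ) ^ σ) (M : ℕ) :
    ∑ s ∈ Finset.Icc 1 M, ec u s * (s : ℝ) ^ σ ≤ Real.exp (∑' p : ℕ, u p * (p : ℝ) ^ σ) := by
  have h0 : ∀ p : ℕ, 0 ≤ u p * (p : ℝ) ^ σ := fun p => mul_nonneg (hu p) (by positivity)
  have h1 : Summable fun p : Nat.Primes => u p * ((p : ℕ) : ℝ) ^ σ :=
    hs.comp_injective (i := fun p : Nat.Primes => (p : ℕ)) Subtype.val_injective
  have h2 := hasSum_ec_real (c := fun p : ℕ => u p * (p : ℝ) ^ σ) h1.abs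
  simp only [← ec_rpow]
  refine (sum_le_hasSum _ (fun i _ => ec_nonneg h0 i) h2).trans (Real.exp_le_exp.2 ?_)
  exact Summable.tsum_le_tsum_of_inj (fun p : Nat.Primes => (p : ℕ)) Subtype.val_injective
    (fun c _ => h0 c) (fun _ => le_rfl) h1 hs

theorem t2_ec_one_le (n : ℕ) : ec (fun _ => (1 : ℝ)) n ≤ 1 := by
  rcases eq_or_ne n 0 with rfl | hn
  · simp [ec_zero]
  rw [ec_eq _ hn]
  refine Finset.prod_le_one (fun p _ => by positivity) fun p _ => ?_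
  rw [one_pow]
  exact div_le_self zero_le_one (by exact_mod_cast Nat.factorial_pos _)

theorem t2_ec_le (v : ℕ → ℝ) (μ : ℝ) (hv : ∀ p, 0 ≤ v p)
    (hvb : ∀ p : ℕ, p.Prime → v p ≤ (p : ℝ) ^ (-μ)) (r : ℕ) : ec v r ≤ (r : ℝ) ^ (-μ) := by
  have h := abs_ec_le_of_dvd v (fun p => 1 * (p : ℝ) ^ (-μ)) r fun p hp _ => by
    rw [abs_of_nonneg (hv p), one_mul]
    exact hvb p hp
  rw [ec_rpow] at h
  exact (le_abs_self _).trans (h.trans (mul_le_of_le_one_left (by positivity) (t2_ec_one_le r)))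

theorem t2_card (X Z : ℝ) (hX : 0 < X) (hXZ : X ≤ Z) {s : ℕ} (hs : 0 < s) :
    (((Finset.Ioc ⌊X⌋₊ ⌊Z⌋₊).filter (s ∣ ·)).card : ℝ) ≤ (Z - X) / s + 1 := by
  have hle : ⌊X⌋₊ ≤ ⌊Z⌋₊ := Nat.floor_mono hXZ
  have h1 : ((Finset.Ioc ⌊X⌋₊ ⌊Z⌋₊).filter (s ∣ ·)).card + ⌊X⌋₊ / s = ⌊Z⌋₊ / s := by
    rw [← Nat.Ioc_filter_dvd_card_eq_div, ← Nat.Ioc_filter_dvd_card_eq_div,
      ← Finset.card_union_of_disjoint, ← Finset.filter_union, Finset.union_comm,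
      Finset.Ioc_union_Ioc_eq_Ioc (Nat.zero_le _) hle]
    refine Finset.disjoint_filter_filter ?_
    rw [Finset.disjoint_left]
    intro a ha hb
    rw [Finset.mem_Ioc] at ha hb
    omega
  rw [← Nat.floor_div_natCast, ← Nat.floor_div_natCast] at h1
  have h2 : (⌊Z / s⌋₊ : ℝ) ≤ Z / s := Nat.floor_le (div_nonneg (by linarith) (Nat.cast_nonneg _))
  have h3 : X / s < ⌊X / s⌋₊ + 1 := Nat.lt_floor_add_one _
  have h4 : (((Finset.Ioc ⌊X⌋₊ ⌊Z⌋₊).filter (s ∣ ·)).card : ℝ) + ⌊X / s⌋₊ = ⌊Z / s⌋₊ := by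
    exact_mod_cast h1
  rw [sub_div]
  linarith

theorem conv_short (u v : ℕ → ℝ) (μ X Z S1 S2 : ℝ) (hu : ∀ p, 0 ≤ u p) (hv : ∀ p, 0 ≤ v p)
    (hvb : ∀ p : ℕ, p.Prime → v p ≤ (p : ℝ) ^ (-μ)) (hμ : 0 ≤ μ) (hX : 0 < X) (hXZ : X ≤ Z)
    (h1 : ∀ M : ℕ, ∑ s ∈ Finset.Icc 1 M, ec u s * (s : ℝ) ^ (μ - 1) ≤ S1)
    (h2 : ∀ M : ℕ, ∑ s ∈ Finset.Icc 1 M, ec u s * (s : ℝ) ^ μ ≤ S2) :
    ∑ n ∈ Finset.Ioc ⌊X⌋₊ ⌊Z⌋₊, ec (fun p => u p + v p) n ≤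
      (Z - X) * X ^ (-μ) * S1 + X ^ (-μ) * S2 := by
  have hXμ : 0 < X ^ (-μ) := Real.rpow_pos_of_pos hX _
  have key : ∀ n ∈ Finset.Ioc ⌊X⌋₊ ⌊Z⌋₊, ec (fun p => u p + v p) n ≤
      ∑ s ∈ Finset.Icc 1 ⌊Z⌋₊, if s ∣ n then X ^ (-μ) * (ec u s * (s : ℝ) ^ μ) else 0 := by
    intro n hn
    rw [Finset.mem_Ioc] at hn
    have hn0 : n ≠ 0 := by omega
    have hXn : X < n := (Nat.floor_lt hX.le).1 hn.1
    rw [ec_add, Nat.sum_divisorsAntidiagonal (fun a b => ec u a * ec v b), ← Finset.sum_filter]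
    have e : n.divisors = (Finset.Icc 1 ⌊Z⌋₊).filter (· ∣ n) := by
      ext s
      rw [Nat.mem_divisors, Finset.mem_filter, Finset.mem_Icc]
      refine ⟨fun h => ⟨⟨Nat.pos_of_dvd_of_pos h.1 (by omega), ?_⟩, h.1⟩, fun h => ⟨h.2, hn0⟩⟩
      exact (Nat.le_of_dvd (by omega) h.1).trans hn.2
    rw [← e]
    refine Finset.sum_le_sum fun s hs => ?_
    have hd := Nat.dvd_of_mem_divisors hs
    have hs0 : (0 : ℝ) < s := by exact_mod_cast Nat.pos_of_mem_divisors hs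
    have h3 : ec v (n / s) ≤ X ^ (-μ) * (s : ℝ) ^ μ := by
      refine (t2_ec_le v μ hv hvb _).trans ?_
      rw [Nat.cast_div hd hs0.ne']
      have h4 : ((n : ℝ) / s) ^ (-μ) ≤ (X / s) ^ (-μ) :=
        Real.rpow_le_rpow_of_nonpos (by positivity) (by gcongr) (by linarith)
      rw [Real.div_rpow hX.le hs0.le, Real.rpow_neg hs0.le, div_inv_eq_mul] at h4
      exact h4
    calc ec u s * ec v (n / s) ≤ ec u s * (X ^ (-μ) * (s : ℝ) ^ μ) :=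
          mul_le_mul_of_nonneg_left h3 (ec_nonneg hu s)
      _ = _ := by ring
  refine (Finset.sum_le_sum key).trans ?_
  rw [Finset.sum_comm]
  have key2 : ∀ s ∈ Finset.Icc 1 ⌊Z⌋₊, (∑ n ∈ Finset.Ioc ⌊X⌋₊ ⌊Z⌋₊,
      if s ∣ n then X ^ (-μ) * (ec u s * (s : ℝ) ^ μ) else 0) ≤
      (Z - X) * X ^ (-μ) * (ec u s * (s : ℝ) ^ (μ - 1)) + X ^ (-μ) * (ec u s * (s : ℝ) ^ μ) := by
    intro s hs
    have hs1 : 0 < s := (Finset.mem_Icc.1 hs).1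
    have hs0 : (0 : ℝ) < s := by exact_mod_cast hs1
    rw [← Finset.sum_filter, Finset.sum_const, nsmul_eq_mul]
    have h0 : 0 ≤ X ^ (-μ) * (ec u s * (s : ℝ) ^ μ) := by
      have := ec_nonneg hu s
      positivity
    refine (mul_le_mul_of_nonneg_right (t2_card X Z hX hXZ hs1) h0).trans (le_of_eq ?_)
    rw [Real.rpow_sub_one hs0.ne']
    field_simp
  refine (Finset.sum_le_sum key2).trans ?_
  rw [Finset.sum_add_distrib, ← Finset.mul_sum, ← Finset.mul_sum]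
  have h5 : 0 ≤ (Z - X) * X ^ (-μ) := mul_nonneg (by linarith) hXμ.le
  exact add_le_add (mul_le_mul_of_nonneg_left (h1 _) h5) (mul_le_mul_of_nonneg_left (h2 _) hXμ.le)

end Pool.Agent.H369Z.Err
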