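import Pool.Agent.H275Z.Hollow

/-!
The free Hopf algebra on the coalgebra dual to the 3 by 3 matrices acts on a tensor algebra so that the
middle diagonal generator acts through scalars.
-/

set_option autoImplicit false

namespace Pool.Agent.H275Z.Essential

open FreeHopf Hollow TensorProduct

variable (k : Type) [Field k]

noncomputable def ρ0 : Bool × ℕ × Fin 3 × Fin 3 → FreeAlgebra k (Lt (Fin 3))
  | (false, r, i, j) => coevR k r i j
  | (true, r, i, j) => evR k r i j

abbrev rel0 := Diamond.rel (ρ0 k)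

lemma mk_ρ0 (σ : Bool × ℕ × Fin 3 × Fin 3) : RingQuot.mkAlgHom k (rel0 k) (ρ0 k σ) = 0 := by
  rw [RingQuot.mkAlgHom_rel k (s := rel0 k) (y := 0) ⟨σ, rfl, rfl⟩, map_zero]

lemma good : Good k (rel0 k) := by
  have hc := fun r i j => coev_of k (rel0 k) r i j (mk_ρ0 k (false, r, i, j))
  have he := fun r i j => ev_of k (rel0 k) r i j (mk_ρ0 k (true, r, i, j))
  refine ⟨hc, he, ?_, ?_, ?_⟩
  · rintro _ _ ⟨⟨b, r, i, j⟩, rfl, rfl⟩
    rw [map_zero]
    cases b
    · exact D0_coevR k _ hc r i j
    · exact D0_evR k _ he r i j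
  · rintro _ _ ⟨⟨b, r, i, j⟩, rfl, rfl⟩
    rw [map_zero]
    cases b
    · exact E0_coevR k r i j
    · exact E0_evR k r i j
  · rintro _ _ ⟨⟨b, r, i, j⟩, rfl, rfl⟩
    rw [map_zero]
    cases b
    · exact S0_coevR k _ he r i j
    · exact S0_evR k _ hc r i j

/-- The free Hopf algebra. -/
abbrev H := RingQuot (rel0 k)

abbrev N := ℕ → Q k

abbrev R := TensorAlgebra k (N k)

noncomputable def lm (a : Q k) : N k →ₗ[k] N k where
  toFun n := fun t => a * n t
  map_add' x y := by ext t; simp [mul_add]
  map_smul' c x := by ext t; simp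

noncomputable def phi0 (r : ℕ) : N k →ₗ[k] Matrix (Fin 3) (Fin 3) (R k) where
  toFun n := Matrix.of fun i j => TensorAlgebra.ι k (lm k (q k r i j) n)
  map_add' x y := by ext i j; simp
  map_smul' c x := by ext i j; simp

noncomputable def phi (r : ℕ) : R k →ₐ[k] Matrix (Fin 3) (Fin 3) (R k) :=
  TensorAlgebra.lift k (phi0 k r)

noncomputable def T (r : ℕ) (i j : Fin 3) : Module.End k (R k) where
  toFun z := phi k r z i j
  map_add' x y := by simp
  map_smul' c x := by simp

lemma T_ι (r : ℕ) (i j : Fin 3) (n : N k) :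
    T k r i j (TensorAlgebra.ι k n) = TensorAlgebra.ι k (lm k (q k r i j) n) := by
  simp [T, phi, phi0]

lemma T_mul (r : ℕ) (i j : Fin 3) (x y : R k) :
    T k r i j (x * y) = ∑ m, T k r i m x * T k r m j y := by
  simp [T, Matrix.mul_apply]

lemma T_one (r : ℕ) (i j : Fin 3) : T k r i j 1 = if i = j then 1 else 0 := by
  simp [T, Matrix.one_apply]

lemma T_algebraMap (r : ℕ) (i j : Fin 3) (a : k) :
    T k r i j (algebraMap k _ a) = if i = j then algebraMap k _ a else 0 := by
  rw [Algebra.algebraMap_eq_smul_one, map_smul, T_one]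
  split_ifs <;> simp

lemma sum_lm (f g : Fin 3 → Q k) (n : N k) :
    ∑ m, lm k (f m) (lm k (g m) n) = lm k (∑ m, f m * g m) n := by
  ext t
  simp [lm, Finset.sum_mul, mul_assoc]

lemma lm_ite (P : Prop) [Decidable P] (n : N k) :
    lm k (if P then 1 else 0) n = if P then n else 0 := by
  ext t
  split_ifs <;> simp [lm]

lemma T_coev (r : ℕ) (z : R k) :
    ∀ i j, ∑ m, T k r i m (T k (r + 1) j m z) = if i = j then z else 0 := by
  induction z using TensorAlgebra.induction with
  | algebraMap a =>
    intro i j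
    simp only [T_algebraMap, apply_ite (T k r i _), map_zero, Finset.sum_ite_eq, Finset.mem_univ,
      if_true]
  | ι n =>
    intro i j
    simp only [T_ι, ← map_sum, sum_lm, q_coev, lm_ite]
    split_ifs <;> simp
  | mul x y hx hy =>
    intro i j
    simp only [T_mul, map_sum]
    rw [Finset.sum_comm]
    have : ∀ l, ∑ m, ∑ p, T k r i p (T k (r + 1) j l x) * T k r p m (T k (r + 1) l m y) =
        T k r i l (T k (r + 1) j l x) * y := by
      intro l
      rw [Finset.sum_comm]
      simp only [← Finset.mul_sum, hy, mul_ite, mul_zero, Finset.sum_ite_eq', Finset.mem_univ,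
        if_true]
    simp only [this, ← Finset.sum_mul, hx]
    split_ifs <;> simp
  | add x y hx hy =>
    intro i j
    simp only [map_add, Finset.sum_add_distrib, hx, hy]
    split_ifs <;> simp

lemma T_ev (r : ℕ) (z : R k) :
    ∀ i j, ∑ m, T k (r + 1) m i (T k r m j z) = if i = j then z else 0 := by
  induction z using TensorAlgebra.induction with
  | algebraMap a =>
    intro i j
    simp only [T_algebraMap, apply_ite (T k (r + 1) _ i), map_zero, Finset.sum_ite_eq',
      Finset.mem_univ, if_true, eq_comm (a := j)]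
  | ι n =>
    intro i j
    simp only [T_ι, ← map_sum, sum_lm, q_ev, lm_ite]
    split_ifs <;> simp
  | mul x y hx hy =>
    intro i j
    simp only [T_mul, map_sum]
    rw [Finset.sum_comm]
    have : ∀ l, ∑ m, ∑ p, T k (r + 1) m p (T k r m l x) * T k (r + 1) p i (T k r l j y) =
        x * T k (r + 1) l i (T k r l j y) := by
      intro l
      rw [Finset.sum_comm]
      simp only [← Finset.sum_mul, hx, ite_mul, zero_mul, Finset.sum_ite_eq', Finset.mem_univ,
        if_true]
    simp only [this, ← Finset.mul_sum, hy]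
    split_ifs <;> simp
  | add x y hx hy =>
    intro i j
    simp only [map_add, Finset.sum_add_distrib, hx, hy]
    split_ifs <;> simp

noncomputable def act0 : FreeAlgebra k (Lt (Fin 3)) →ₐ[k] Module.End k (R k) :=
  FreeAlgebra.lift k (fun l => T k l.1 l.2.1 l.2.2)

lemma act0_rel : ∀ ⦃x y⦄, rel0 k x y → act0 k x = act0 k y := by
  rintro _ _ ⟨⟨b, r, i, j⟩, rfl, rfl⟩
  rw [map_zero]
  cases b
  · simp only [ρ0, coevR, map_sub, map_sum, map_mul, act0, FreeAlgebra.lift_ι_apply, sub_eq_zero]
    refine LinearMap.ext fun z => ?_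
    simp only [LinearMap.sum_apply, Module.End.mul_apply, T_coev]
    split_ifs <;> simp
  · simp only [ρ0, evR, map_sub, map_sum, map_mul, act0, FreeAlgebra.lift_ι_apply, sub_eq_zero]
    refine LinearMap.ext fun z => ?_
    simp only [LinearMap.sum_apply, Module.End.mul_apply, T_ev]
    split_ifs <;> simp

noncomputable def act : H k →ₐ[k] Module.End k (R k) :=
  RingQuot.liftAlgHom k ⟨act0 k, act0_rel k⟩

lemma act_X (r : ℕ) (i j : Fin 3) : act k (X k (rel0 k) r i j) = T k r i j := by
  rw [act, X, RingQuot.liftAlgHom_mkAlgHom_apply]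
  simp [act0]

noncomputable def bil (x y : R k) : H k ⊗[k] H k →ₗ[k] R k :=
  TensorProduct.lift ((LinearMap.mul k (R k)).compl₁₂
    ((act k).toLinearMap.flip x) ((act k).toLinearMap.flip y))

lemma bil_tmul (x y : R k) (a b : H k) : bil k x y (a ⊗ₜ[k] b) = act k a x * act k b y := by
  simp [bil]

lemma act_mul (h : H k) : ∀ x y : R k, act k h (x * y) = bil k x y (D (good k) h) := by
  induction h using FreeHopf.induction with
  | h0 c =>
    intro x y
    simp [Algebra.algebraMap_eq_smul_one, Algebra.TensorProduct.one_def, bil_tmul]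
  | h1 r i j =>
    intro x y
    simp only [D_X, map_sum, bil_tmul, act_X, T_mul]
  | hmul a b ha hb =>
    intro x y
    rw [map_mul (act k), map_mul (D (good k)), Module.End.mul_apply, hb]
    generalize D (good k) b = t
    induction t using TensorProduct.induction_on with
    | zero => simp
    | tmul u v =>
      rw [bil_tmul, ha]
      generalize D (good k) a = s
      induction s using TensorProduct.induction_on with
      | zero => simp
      | tmul u' v' => simp [bil_tmul]
      | add s s' hs hs' => simp only [map_add, add_mul, hs, hs']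
    | add s t hs ht => simp only [mul_add, map_add, hs, ht]
  | hadd a b ha hb =>
    intro x y
    simp only [map_add, LinearMap.add_apply, ha, hb]

lemma act_one (h : H k) : act k h 1 = algebraMap k (R k) (E (good k) h) := by
  induction h using FreeHopf.induction with
  | h0 c => simp [Algebra.algebraMap_eq_smul_one]
  | h1 r i j =>
    rw [act_X, T_one, E_X]
    split_ifs <;> simp
  | hmul a b ha hb =>
    rw [map_mul (act k), Module.End.mul_apply, hb, Algebra.algebraMap_eq_smul_one, map_smul, ha,
      map_mul, map_mul, Algebra.smul_def, Algebra.commutes]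
  | hadd a b ha hb => simp only [map_add, LinearMap.add_apply, ha, hb]

lemma T_shape (z : R k) : T k 0 1 0 z = 0 ∧ T k 0 2 0 z = 0 ∧ T k 0 2 1 z = 0 ∧
    ∃ c : k, T k 0 1 1 z = algebraMap k _ c := by
  have hl : ∀ n : N k, lm k 0 n = 0 := fun n => by ext t; simp [lm]
  induction z using TensorAlgebra.induction with
  | algebraMap a =>
    refine ⟨?_, ?_, ?_, a, ?_⟩ <;> simp [T_algebraMap]
  | ι n =>
    refine ⟨?_, ?_, ?_, 0, ?_⟩ <;> rw [T_ι, q_zero k _ _ (by decide) (by decide), hl] <;> simp
  | mul x y hx hy =>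
    obtain ⟨a1, a2, a3, c, a4⟩ := hx
    obtain ⟨b1, b2, b3, d, b4⟩ := hy
    refine ⟨?_, ?_, ?_, c * d, ?_⟩ <;>
      simp [T_mul, Fin.sum_univ_three, a1, a2, a3, a4, b1, b2, b3, b4]
  | add x y hx hy =>
    obtain ⟨a1, a2, a3, c, a4⟩ := hx
    obtain ⟨b1, b2, b3, d, b4⟩ := hy
    refine ⟨?_, ?_, ?_, c + d, ?_⟩ <;> simp [a1, a2, a3, a4, b1, b2, b3, b4]

lemma T_comm (x y : R k) : T k 0 1 1 x * y = y * T k 0 1 1 x := by
  obtain ⟨-, -, -, c, hc⟩ := T_shape k x
  rw [hc, Algebra.commutes]

lemma not_PI (m : ℕ) (p : FreeAlgebra k (Fin m))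
    (hp : ∀ r : Fin m → R k, FreeAlgebra.lift k r p = 0) : p = 0 := by
  obtain ⟨lam, hlam⟩ := Module.Projective.exists_dual_eq_one k (one_ne k)
  let ψ : N k →ₗ[k] FreeAlgebra k (Fin m) :=
    { toFun := fun f => ∑ i : Fin m, lam (f i) • FreeAlgebra.ι k i
      map_add' := fun x y => by simp [add_smul, Finset.sum_add_distrib]
      map_smul' := fun c x => by simp [Finset.smul_sum, mul_smul] }
  let r : Fin m → R k := fun i => TensorAlgebra.ι k (Pi.single (i : ℕ) 1)
  have : (TensorAlgebra.lift k ψ).comp (FreeAlgebra.lift k r) = AlgHom.id k _ := by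
    ext i
    simp only [Function.comp_apply, AlgHom.comp_apply, FreeAlgebra.lift_ι_apply, r,
      TensorAlgebra.lift_ι_apply, AlgHom.id_apply, ψ, LinearMap.coe_mk, AddHom.coe_mk]
    rw [Finset.sum_eq_single i]
    · simp [hlam]
    · intro j _ hj
      rw [Pi.single_eq_of_ne (fun h => hj (Fin.ext h))]
      simp
    · simp
  have h2 := AlgHom.congr_fun this p
  rw [AlgHom.comp_apply, hp, map_zero] at h2
  exact h2.symm

end Pool.Agent.H275Z.Essential
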