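import Pool.Agent.H275Z.Diamond
import Pool.Agent.H275Z.FreeHopf

/-!
A nonzero ring with a sequence of 3 by 3 matrices `U_r`, `U_{r+1}^T = U_r^{-1}`, in which `U_0` has a zero
2 by 2 block in its lower left corner.
-/

set_option autoImplicit false

namespace Pool.Agent.H275Z.Hollow

open FreeAlgebra Diamond FreeHopf

variable (k : Type) [Field k]

noncomputable def Y (r : ℕ) (i j : Fin 3) : FreeAlgebra k (Lt (Fin 3)) :=
  if r = 0 ∧ i ≠ 0 ∧ j ≠ 2 then 0 else ι k (r, i, j)

def c (r : ℕ) : Fin 3 := if r % 2 = 0 then 2 else 0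

lemma c_succ (r : ℕ) : c (r + 1) ≠ c r := by
  unfold c
  rcases Nat.mod_two_eq_zero_or_one r with h | h
  · rw [if_pos h, if_neg (by omega)]; decide
  · rw [if_pos (by omega), if_neg (by omega)]; decide

def wt (l : Lt (Fin 3)) : ℕ := (if l.2.2 = c l.1 then 1 else 0) + (if l.2.1 = c l.1 then 1 else 0)

def rl (x y : Lt (Fin 3)) : Prop := wt x < wt y

lemma rl_wf : WellFounded rl := InvImage.wf wt wellFounded_lt

lemma rl_col (r : ℕ) (i m : Fin 3) (h : m ≠ c r) : rl (r, i, m) (r, i, c r) := by
  simp [rl, wt, h]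

lemma rl_row (r : ℕ) (i m : Fin 3) (h : m ≠ c r) : rl (r, m, i) (r, c r, i) := by
  simp [rl, wt, h]

lemma Y_cases (r : ℕ) (i j : Fin 3) : Y k r i j = 0 ∨ Y k r i j = ι k (r, i, j) := by
  unfold Y; split_ifs <;> simp

lemma Y_succ (r : ℕ) (i j : Fin 3) : Y k (r + 1) i j = ι k (r + 1, i, j) := by simp [Y]

lemma Y_col (r : ℕ) (i : Fin 3) : Y k r i (c r) = ι k (r, i, c r) := by
  unfold Y
  rw [if_neg]
  rintro ⟨rfl, -, h⟩
  exact h rfl

lemma Y_row (r : ℕ) (j : Fin 3) : Y k r (c (r + 1)) j = ι k (r, c (r + 1), j) := by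
  unfold Y
  rw [if_neg]
  rintro ⟨rfl, h, -⟩
  exact h rfl

noncomputable def cR (r : ℕ) (i j : Fin 3) : FreeAlgebra k (Lt (Fin 3)) :=
  ∑ m, Y k r i m * Y k (r + 1) j m - if i = j then 1 else 0

noncomputable def eR (r : ℕ) (i j : Fin 3) : FreeAlgebra k (Lt (Fin 3)) :=
  ∑ m, Y k (r + 1) m i * Y k r m j - if i = j then 1 else 0

inductive Rule
  | coev (r : ℕ) (i j : Fin 3)
  | ev (r : ℕ) (i j : Fin 3)

def ra : Rule → Lt (Fin 3)
  | .coev r i _ => (r, i, c r)
  | .ev r i _ => (r + 1, c (r + 1), i)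

def rb : Rule → Lt (Fin 3)
  | .coev r _ j => (r + 1, j, c r)
  | .ev r _ j => (r, c (r + 1), j)

noncomputable def ρ : Rule → FreeAlgebra k (Lt (Fin 3))
  | .coev r i j => cR k r i j
  | .ev r i j => eR k r i j

lemma ite_low (P : Prop) [Decidable P] (x y : Lt (Fin 3)) :
    (if P then 1 else 0 : FreeAlgebra k (Lt (Fin 3))) ∈ low k rl [x, y] := by
  split_ifs
  · exact W_mem_low rl (u := []) (List.Shortlex.of_length_lt (by simp))
  · exact zero_mem _

lemma pair_low {x y x' y' : Lt (Fin 3)} (h : rl x' x) : ι k x' * ι k y' ∈ low k rl [x, y] := by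
  rw [← W_pair]
  exact W_mem_low rl (List.Shortlex.of_lex rfl (List.Lex.rel h))

lemma hlow (σ : Rule) : ι k (ra σ) * ι k (rb σ) - ρ k σ ∈ low k rl [ra σ, rb σ] := by
  cases σ with
  | coev r i j =>
    simp only [ra, rb, ρ, cR]
    rw [← Finset.add_sum_erase _ _ (Finset.mem_univ (c r)), Y_col, Y_succ]
    have : ∀ a b d : FreeAlgebra k (Lt (Fin 3)), a - (a + b - d) = d - b := by intros; abel
    rw [this]
    refine sub_mem (ite_low k _ _ _) (Submodule.sum_mem _ fun m hm => ?_)
    rcases Y_cases k r i m with h | h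
    · rw [h, zero_mul]; exact zero_mem _
    · rw [h, Y_succ]; exact pair_low k (rl_col r i m (Finset.ne_of_mem_erase hm))
  | ev r i j =>
    simp only [ra, rb, ρ, eR]
    rw [← Finset.add_sum_erase _ _ (Finset.mem_univ (c (r + 1))), Y_row, Y_succ]
    have : ∀ a b d : FreeAlgebra k (Lt (Fin 3)), a - (a + b - d) = d - b := by intros; abel
    rw [this]
    refine sub_mem (ite_low k _ _ _) (Submodule.sum_mem _ fun m hm => ?_)
    rcases Y_cases k r m j with h | h
    · rw [h, mul_zero]; exact zero_mem _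
    · rw [h, Y_succ]; exact pair_low k (rl_row (r + 1) i m (Finset.ne_of_mem_erase hm))

lemma hinj (σ τ : Rule) (h1 : ra σ = ra τ) (h2 : rb σ = rb τ) : ρ k σ = ρ k τ := by
  cases σ <;> cases τ <;> simp only [ra, rb, Prod.mk.injEq] at h1 h2
  · obtain ⟨rfl, rfl, -⟩ := h1
    obtain ⟨-, rfl, -⟩ := h2
    rfl
  · omega
  · omega
  · obtain ⟨-, -, rfl⟩ := h1
    obtain ⟨rfl, -, rfl⟩ := h2
    rfl

lemma sum_delta (f : Fin 3 → Fin 3 → FreeAlgebra k (Lt (Fin 3))) :
    ∑ x, ∑ z, (if x = z then (1 : k) else 0) • f x z = ∑ x, f x x := by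
  simp [ite_smul]

lemma hov (σ τ : Rule) (h : rb σ = ra τ) :
    ρ k σ * ι k (rb τ) - ι k (ra σ) * ρ k τ ∈ J rl ra rb (ρ k) [ra σ, rb σ, rb τ] := by
  cases σ with
  | coev r i j =>
    cases τ with
    | coev r' i' j' =>
      simp only [ra, rb, Prod.mk.injEq] at h
      obtain ⟨rfl, -, h⟩ := h
      exact absurd h.symm (c_succ r)
    | ev r' i' j' =>
      simp only [ra, rb, Prod.mk.injEq, add_left_inj] at h
      obtain ⟨rfl, rfl, rfl⟩ := h
      simp only [ra, rb, ρ]
      rw [← Y_row, ← Y_col]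
      refine overlap _ (fun x => Y k r i x) (fun z y => Y k (r + 1) y z) (fun e => Y k r e j')
        (fun x z => if x = z then (1 : k) else 0) (fun x z => if x = z then (1 : k) else 0)
        (fun y => if i = y then 1 else 0) (fun y => cR k r i y)
        (fun z => if z = j' then 1 else 0) (fun z => eR k r z j')
        (fun y => by rw [sum_delta]; rfl) (fun z => by rw [sum_delta]; rfl)
        (c r) (c r) (c (r + 1)) (c (r + 1)) (by simp) (by simp) ?_ ?_ ?_
      · intro y e hye
        by_cases h : y = e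
        · subst h
          have hy : y ≠ c (r + 1) := fun h => hye (by rw [h])
          refine Submodule.smul_mem _ _ ?_
          rcases Y_cases k r y j' with h | h
          · rw [h, mul_zero]; exact zero_mem _
          · rw [h]
            exact mem_J_right rl ra rb (ρ k) (.coev r i y) _
              (List.Shortlex.of_lex rfl (List.Lex.cons (List.Lex.rel (rl_row _ _ _ hy))))
        · simp [h]
      · intro x z hxz
        by_cases h : x = z
        · subst h
          have hy : x ≠ c r := fun h => hxz (by rw [h])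
          refine Submodule.smul_mem _ _ ?_
          rcases Y_cases k r i x with h | h
          · rw [h, zero_mul]; exact zero_mem _
          · rw [h]
            exact mem_J_left rl ra rb (ρ k) (.ev r x j') _
              (List.Shortlex.of_lex rfl (List.Lex.rel (rl_col _ _ _ hy)))
        · simp [h]
      · rw [sum_delta, sum_delta]
        simp
  | ev r i j =>
    cases τ with
    | ev r' i' j' =>
      simp only [ra, rb, Prod.mk.injEq] at h
      obtain ⟨rfl, h, -⟩ := h
      exact absurd h (c_succ _)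
    | coev r' i' j' =>
      simp only [ra, rb, Prod.mk.injEq] at h
      obtain ⟨rfl, rfl, rfl⟩ := h
      simp only [ra, rb, ρ]
      rw [← Y_succ, ← Y_succ]
      refine overlap _ (fun x => Y k (r + 1) x i) (fun z y => Y k r z y) (fun e => Y k (r + 1) j' e)
        (fun x z => if x = z then (1 : k) else 0) (fun x z => if x = z then (1 : k) else 0)
        (fun y => if i = y then 1 else 0) (fun y => eR k r i y)
        (fun z => if z = j' then 1 else 0) (fun z => cR k r z j')
        (fun y => by rw [sum_delta]; rfl) (fun z => by rw [sum_delta]; rfl)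
        (c (r + 1)) (c (r + 1)) (c r) (c r) (by simp) (by simp) ?_ ?_ ?_
      · intro y e hye
        by_cases h : y = e
        · subst h
          have hy : y ≠ c r := fun h => hye (by rw [h])
          refine Submodule.smul_mem _ _ ?_
          rw [Y_succ]
          exact mem_J_right rl ra rb (ρ k) (.ev r i y) _
            (List.Shortlex.of_lex rfl (List.Lex.cons (List.Lex.rel (rl_col _ _ _ hy))))
        · simp [h]
      · intro x z hxz
        by_cases h : x = z
        · subst h
          have hy : x ≠ c (r + 1) := fun h => hxz (by rw [h])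
          refine Submodule.smul_mem _ _ ?_
          rw [Y_succ]
          exact mem_J_left rl ra rb (ρ k) (.coev r x j') _
            (List.Shortlex.of_lex rfl (List.Lex.rel (rl_row _ _ _ hy)))
        · simp [h]
      · rw [sum_delta, sum_delta]
        simp

/-- The quotient ring. -/
abbrev Q := RingQuot (rel (ρ k))

noncomputable def q (r : ℕ) (i j : Fin 3) : Q k := RingQuot.mkAlgHom k _ (Y k r i j)

lemma one_ne : (1 : Q k) ≠ 0 := by
  obtain ⟨nf, h1, h2⟩ := diamond rl ra rb (ρ k) rl_wf (hlow k) (hinj k) (hov k)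
  intro h
  have h3 := h2 1 (by rw [map_one, h])
  have h4 := h1 [] (by
    rintro ⟨p, hp⟩
    simp at hp)
  rw [W_nil, h3] at h4
  exact zero_ne_one h4

lemma mk_ρ (σ : Rule) : RingQuot.mkAlgHom k (rel (ρ k)) (ρ k σ) = 0 := by
  rw [RingQuot.mkAlgHom_rel k (s := rel (ρ k)) (y := 0) ⟨σ, rfl, rfl⟩, map_zero]

lemma q_coev (r : ℕ) (i j : Fin 3) :
    ∑ m, q k r i m * q k (r + 1) j m = if i = j then 1 else 0 := by
  have h := mk_ρ k (.coev r i j)
  simp only [ρ, cR, map_sub, map_sum, map_mul, sub_eq_zero] at h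
  simp only [q]
  rw [h]
  split_ifs <;> simp

lemma q_ev (r : ℕ) (i j : Fin 3) :
    ∑ m, q k (r + 1) m i * q k r m j = if i = j then 1 else 0 := by
  have h := mk_ρ k (.ev r i j)
  simp only [ρ, eR, map_sub, map_sum, map_mul, sub_eq_zero] at h
  simp only [q]
  rw [h]
  split_ifs <;> simp

lemma q_zero (i j : Fin 3) (hi : i ≠ 0) (hj : j ≠ 2) : q k 0 i j = 0 := by
  simp [q, Y, hi, hj]

end Pool.Agent.H275Z.Hollow
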