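import Mathlib

set_option autoImplicit false

namespace Pool.Agent.H275Z.TwoDens

/-- Edge list of a triangle-free graph on 12 vertices with 20 edges and independence number 4. -/
def edges : List (ℕ × ℕ) :=
  [(0, 1), (0, 2), (0, 8), (0, 11), (1, 4), (1, 9), (2, 6), (2, 9), (2, 10), (3, 6), (3, 7),
   (3, 11), (4, 6), (4, 10), (5, 8), (5, 9), (5, 11), (7, 8), (7, 10), (10, 11)]

def adjB (i j : Fin 12) : Bool := decide ((i.val, j.val) ∈ edges) || decide ((j.val, i.val) ∈ edges)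

lemma adjB_symm : ∀ i j : Fin 12, adjB i j = adjB j i := by decide

lemma adjB_irrefl : ∀ i : Fin 12, adjB i i = false := by decide

def G : SimpleGraph (Fin 12) where
  Adj i j := adjB i j = true
  symm := ⟨fun i j h => by rw [adjB_symm]; exact h⟩
  loopless := ⟨fun i h => by rw [adjB_irrefl] at h; exact absurd h (by decide)⟩

def cnt (f : Fin 12 → Bool) : ℕ := ∑ i, if f i = true then 1 else 0

def ecnt (f : Fin 12 → Bool) : ℕ :=
  ∑ i, ∑ j, if f i = true ∧ f j = true ∧ adjB i j = true then 1 else 0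

def c1 (b : Bool) : ℕ := cond b 1 0

def cntL (b0 b1 b2 b3 b4 b5 b6 b7 b8 b9 b10 b11 : Bool) : ℕ :=
  c1 b0 + c1 b1 + c1 b2 + c1 b3 + c1 b4 + c1 b5 + c1 b6 + c1 b7 + c1 b8 + c1 b9 + c1 b10 + c1 b11

def eL (b0 b1 b2 b3 b4 b5 b6 b7 b8 b9 b10 b11 : Bool) : ℕ :=
  c1 (b0 && b1) + c1 (b0 && b2) + c1 (b0 && b8) + c1 (b0 && b11) + c1 (b1 && b4) + c1 (b1 && b9) +
  c1 (b2 && b6) + c1 (b2 && b9) + c1 (b2 && b10) + c1 (b3 && b6) + c1 (b3 && b7) + c1 (b3 && b11) +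
  c1 (b4 && b6) + c1 (b4 && b10) + c1 (b5 && b8) + c1 (b5 && b9) + c1 (b5 && b11) +
  c1 (b7 && b8) + c1 (b7 && b10) + c1 (b10 && b11)

lemma key : ∀ b0 b1 b2 b3 b4 b5 b6 b7 b8 b9 b10 b11 : Bool,
    (3 ≤ cntL b0 b1 b2 b3 b4 b5 b6 b7 b8 b9 b10 b11 →
      eL b0 b1 b2 b3 b4 b5 b6 b7 b8 b9 b10 b11 + 4 ≤ 2 * cntL b0 b1 b2 b3 b4 b5 b6 b7 b8 b9 b10 b11) ∧
    (cntL b0 b1 b2 b3 b4 b5 b6 b7 b8 b9 b10 b11 = 5 →
      0 < eL b0 b1 b2 b3 b4 b5 b6 b7 b8 b9 b10 b11) := by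
  decide +kernel

lemma ite_c1 (b : Bool) : (if b = true then 1 else 0 : ℕ) = c1 b := by cases b <;> rfl

lemma ite_c2 (a b : Bool) : (if a = true ∧ b = true then 1 else 0 : ℕ) = c1 (a && b) := by
  cases a <;> cases b <;> rfl

lemma cnt_eq (f : Fin 12 → Bool) : cnt f =
    cntL (f 0) (f 1) (f 2) (f 3) (f 4) (f 5) (f 6) (f 7) (f 8) (f 9) (f 10) (f 11) := by
  simp only [cnt, cntL, ite_c1, Fin.sum_univ_succ, Fin.sum_univ_zero]
  simp only [← add_assoc, add_zero]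
  rfl

lemma ite_c3 (a b c : Bool) :
    (if a = true ∧ b = true ∧ c = true then 1 else 0 : ℕ) = cond c (c1 (a && b)) 0 := by
  cases a <;> cases b <;> cases c <;> rfl

lemma c1_comm (a b : Bool) : c1 (a && b) = c1 (b && a) := by cases a <;> cases b <;> rfl

lemma ecnt_eq (f : Fin 12 → Bool) : ecnt f =
    2 * eL (f 0) (f 1) (f 2) (f 3) (f 4) (f 5) (f 6) (f 7) (f 8) (f 9) (f 10) (f 11) := by
  have h : ecnt f =
      (c1 (f 0 && f 1) + c1 (f 0 && f 2) + c1 (f 0 && f 8) + c1 (f 0 && f 11)) +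
      (c1 (f 1 && f 0) + c1 (f 1 && f 4) + c1 (f 1 && f 9)) +
      (c1 (f 2 && f 0) + c1 (f 2 && f 6) + c1 (f 2 && f 9) + c1 (f 2 && f 10)) +
      (c1 (f 3 && f 6) + c1 (f 3 && f 7) + c1 (f 3 && f 11)) +
      (c1 (f 4 && f 1) + c1 (f 4 && f 6) + c1 (f 4 && f 10)) +
      (c1 (f 5 && f 8) + c1 (f 5 && f 9) + c1 (f 5 && f 11)) +
      (c1 (f 6 && f 2) + c1 (f 6 && f 3) + c1 (f 6 && f 4)) +
      (c1 (f 7 && f 3) + c1 (f 7 && f 8) + c1 (f 7 && f 10)) +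
      (c1 (f 8 && f 0) + c1 (f 8 && f 5) + c1 (f 8 && f 7)) +
      (c1 (f 9 && f 1) + c1 (f 9 && f 2) + c1 (f 9 && f 5)) +
      (c1 (f 10 && f 2) + c1 (f 10 && f 4) + c1 (f 10 && f 7) + c1 (f 10 && f 11)) +
      (c1 (f 11 && f 0) + c1 (f 11 && f 3) + c1 (f 11 && f 5) + c1 (f 11 && f 10)) := by
    simp only [ecnt, ite_c3]
    have hrow : ∀ g : Fin 12 → ℕ, ∑ j, g j = g 0 + g 1 + g 2 + g 3 + g 4 + g 5 + g 6 + g 7 + g 8 +
        g 9 + g 10 + g 11 := by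
      intro g
      simp only [Fin.sum_univ_succ, Fin.sum_univ_zero]
      simp only [← add_assoc, add_zero]
      rfl
    simp only [hrow]
    have ht : ∀ i j : Fin 12, adjB i j = (decide ((i.val, j.val) ∈ edges) ||
      decide ((j.val, i.val) ∈ edges)) := fun _ _ => rfl
    simp only [ht]
    simp [edges]
  rw [h]
  simp only [eL]
  rw [c1_comm (f 1) (f 0), c1_comm (f 2) (f 0), c1_comm (f 4) (f 1), c1_comm (f 6) (f 2),
    c1_comm (f 6) (f 3), c1_comm (f 6) (f 4), c1_comm (f 7) (f 3), c1_comm (f 8) (f 0),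
    c1_comm (f 8) (f 5), c1_comm (f 8) (f 7), c1_comm (f 9) (f 1), c1_comm (f 9) (f 2),
    c1_comm (f 9) (f 5), c1_comm (f 10) (f 2), c1_comm (f 10) (f 4), c1_comm (f 10) (f 7),
    c1_comm (f 11) (f 0), c1_comm (f 11) (f 3), c1_comm (f 11) (f 5), c1_comm (f 11) (f 10)]
  ring

lemma card_eq (S : Finset (Fin 12)) : S.card = cnt (fun i => decide (i ∈ S)) := by
  simp [cnt]

lemma ecard_eq (S : Finset (Fin 12))
    [DecidablePred fun p : Fin 12 × Fin 12 => p.1 ∈ S ∧ p.2 ∈ S ∧ G.Adj p.1 p.2] :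
    (Finset.univ.filter (fun p : Fin 12 × Fin 12 => p.1 ∈ S ∧ p.2 ∈ S ∧ G.Adj p.1 p.2)).card =
      ecnt (fun i => decide (i ∈ S)) := by
  rw [Finset.card_filter, Fintype.sum_prod_type]
  simp only [ecnt, decide_eq_true_eq]
  refine Finset.sum_congr rfl fun i _ => Finset.sum_congr rfl fun j _ => ?_
  congr 1

lemma bound (S : Finset (Fin 12)) (hS : 3 ≤ S.card)
    [DecidablePred fun p : Fin 12 × Fin 12 => p.1 ∈ S ∧ p.2 ∈ S ∧ G.Adj p.1 p.2] :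
    (Finset.univ.filter (fun p : Fin 12 × Fin 12 => p.1 ∈ S ∧ p.2 ∈ S ∧ G.Adj p.1 p.2)).card + 8 ≤
      4 * S.card := by
  rw [ecard_eq, ecnt_eq]
  rw [card_eq, cnt_eq] at hS ⊢
  have := (key _ _ _ _ _ _ _ _ _ _ _ _).1 hS
  omega

lemma cliqueFree : Gᶜ.CliqueFree 5 := by
  classical
  intro S hS
  have h5 := hS.card_eq
  have h0 : (Finset.univ.filter
      (fun p : Fin 12 × Fin 12 => p.1 ∈ S ∧ p.2 ∈ S ∧ G.Adj p.1 p.2)).card = 0 := by
    rw [Finset.card_eq_zero, Finset.filter_eq_empty_iff]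
    rintro p - ⟨h1, h2, h3⟩
    have := hS.isClique h1 h2 h3.ne
    exact this.2 h3
  rw [ecard_eq, ecnt_eq] at h0
  rw [card_eq, cnt_eq] at h5
  have := (key _ _ _ _ _ _ _ _ _ _ _ _).2 h5
  omega

end Pool.Agent.H275Z.TwoDens
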